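import Pool.Agent.Lib.MP_8a819d_co.LH.RDef

/-!
# MP_8a819d_co, the core with a prescribed set: two small lemmas
-/

set_option autoImplicit false

namespace SSB

open Finset

theorem dp_sq10 {m n : ℕ} (hn : 1 ≤ n) (h : m ^ 10 ≤ n ^ 3) : m ^ 2 ≤ n := by
  by_contra hcon
  push Not at hcon
  have h1 : n ^ 5 < (m ^ 2) ^ 5 := Nat.pow_lt_pow_left hcon (by norm_num)
  have h2 : (m ^ 2) ^ 5 = m ^ 10 := by rw [← pow_mul]
  have h3 : n ^ 3 ≤ n ^ 5 := Nat.pow_le_pow_right hn (by norm_num)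
  omega

theorem dp_sq5 {m n : ℕ} (h : m ^ 5 ≤ n ^ 2) : m ^ 2 ≤ n := by
  by_contra hcon
  push Not at hcon
  have h1 : n ^ 2 < (m ^ 2) ^ 2 := Nat.pow_lt_pow_left hcon (by norm_num)
  have h2 : (m ^ 2) ^ 2 = m ^ 4 := by rw [← pow_mul]
  have hm : 1 ≤ m := by
    rcases Nat.eq_zero_or_pos m with h0 | h0
    · rw [h0] at hcon
      simp at hcon
    · exact h0
  have h3 : m ^ 4 ≤ m ^ 5 := Nat.pow_le_pow_right hm (by norm_num)
  omega

theorem SSext.of_sub {n : ℕ} {par : ℕ → ℕ} {B P : Finset ℕ} {f g : ℕ → ℕ} (h : SSext n par B f)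
    (hPB : P ⊆ B) (hfg : ∀ v ∈ P, f v = g v) : SSext n par P g := by
  obtain ⟨F, h1, h2, h3⟩ := h
  exact ⟨F, fun v hv => by rw [h1 v (hPB hv), hfg v hv], h2, h3⟩

end SSB
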