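import Pool.Agent.Lib.MP_8a819d_co.AT.SelA
import Pool.Agent.Lib.MP_8a819d_co.AT.GreedyN
import Pool.Agent.Lib.MP_8a819d_co.AT.AbsSt
import Pool.Agent.Lib.MP_8a819d_co.AT.LawsA
import Pool.Agent.Lib.MP_8a819d_co.AT.PackLate
import Pool.Agent.Lib.MP_8a819d_co.DP.AbsFinP
import Pool.Agent.Lib.MP_8a819d_co.DP.PBase

/-!
# MP_8a819d_co, trees with many non-leaves, few hosts, with a prescribed closed set

This is `CoreA.lean` with a prescribed closed set `P`: `G ⊆ P ⊆ M ⊆ H ⊆ B`, `M` = closure of `P ∪ {v : N < (pdeg v)²}`, `H` = closure of `P ∪ {v : 3 ≤ pdeg v} ∪ {0}`.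
In the counting estimates `h = |hosts| + |P|`. The final numbering agrees with the given numbering on `P`.
-/

set_option autoImplicit false

namespace SSB

open Finset

/-- the numbers `4 b i + 1`, `1 ≤ i ≤ m` -/
private theorem coreap_P1 (b L : ℕ) (hb : 1 ≤ b) (hL : 1 ≤ L) : ∃ P : Finset ℕ,
    P ⊆ Icc 1 L ∧ (∀ x ∈ P, x % (4 * b) = 1 ∧ b ≤ x) ∧ L ≤ 4 * b * (P.card + 1) := by
  refine ⟨(Icc 1 ((L - 1) / (4 * b))).image (fun i => 4 * b * i + 1), ?_, ?_, ?_⟩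
  · intro x hx
    rw [mem_image] at hx
    obtain ⟨i, hi, rfl⟩ := hx
    rw [mem_Icc] at hi ⊢
    have h1 : 4 * b * i ≤ L - 1 := by
      calc 4 * b * i ≤ 4 * b * ((L - 1) / (4 * b)) := Nat.mul_le_mul_left _ hi.2
        _ ≤ L - 1 := Nat.mul_div_le _ _
    omega
  · intro x hx
    rw [mem_image] at hx
    obtain ⟨i, hi, rfl⟩ := hx
    rw [mem_Icc] at hi
    constructor
    · rw [Nat.mul_add_mod, Nat.mod_eq_of_lt (by omega)]
    · have h1 : b * 1 ≤ 4 * b * i := Nat.mul_le_mul (by omega) hi.1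
      omega
  · rw [card_image_of_injective, Nat.card_Icc, Nat.add_sub_cancel]
    · have h1 := Nat.lt_mul_div_succ (L - 1) (by omega : 0 < 4 * b)
      omega
    · intro i j hij
      simp only at hij
      have h2 : 4 * b * i = 4 * b * j := by omega
      exact Nat.eq_of_mul_eq_mul_left (by omega : 0 < 4 * b) h2

private theorem coreap_chs_clo {n : ℕ} {par : ℕ → ℕ} {W : Finset ℕ} (hc : Clo n par W) {x : ℕ}
    (hx : x < n) (hW : x ∉ W) : ((chs n par x).filter (· ∈ W)).card ≤ 1 := by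
  refine le_trans (card_le_card ?_) (hc x hx hW)
  intro c hc
  rw [mem_filter, mem_chs] at hc
  rw [mem_bnb]
  exact ⟨hc.2, Or.inr ⟨hc.1.2.1, hc.1.1, hc.1.2.2⟩⟩

/-- numbering of `H` in two steps -/
private theorem coreap_numH {n : ℕ} {par : ℕ → ℕ} (hpar : IsPar n par) {G P M H : Finset ℕ}
    (hPM : P ⊆ M) (hMH : M ⊆ H) (hH : H ⊆ range n) (cP : Clo n par P) (cM : Clo n par M)
    {L b : ℕ} (hb : 1 ≤ b) {fP : ℕ → ℕ} (i1 : Set.InjOn (val par fP) (items par P))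
    (v0 : ∀ x ∈ items par P, 1 ≤ val par fP x) (vL : ∀ v ∈ P, fP v ≤ L)
    (hG : ∀ v ∈ P \ G, fP v % (4 * b) = 1 ∧ b ≤ fP v)
    (h2 : 4 * b * (25 * M.card + 11) ≤ L)
    (h3 : 10 * M.card + 15 * H.card + 10 + b ≤ L + 1) :
    ∃ f : ℕ → ℕ, Set.InjOn (val par f) (items par H) ∧
      (∀ x ∈ items par H, 1 ≤ val par f x ∧ val par f x ≤ L) ∧
      (∀ v ∈ P, f v = fP v) ∧ (∀ x ∈ M \ G, f x % (4 * b) = 1) ∧
      (∀ x ∈ H \ G, b ≤ f x) := by
  have hL : 1 ≤ L := by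
    have h5 : 4 * b * 11 ≤ 4 * b * (25 * M.card + 11) := Nat.mul_le_mul_left _ (by omega)
    omega
  have v1 : ∀ x ∈ items par P, 1 ≤ val par fP x ∧ val par fP x ≤ L := by
    intro x hx
    refine ⟨v0 x hx, ?_⟩
    rcases x with i | i
    · rw [val_inl]
      exact vL i (mem_items_inl.1 hx)
    · obtain ⟨k1, _, k3⟩ := mem_items_inr.1 hx
      have k4 := vL i k1
      have k5 := vL _ k3
      rw [val_inr]
      unfold dd
      omega
  -- step 2
  obtain ⟨P₁, hP1, hP2, hP3⟩ := coreap_P1 b L hb hL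
  have hMP : (M \ P).card ≤ M.card := card_le_card sdiff_subset
  have hPM' : P.card ≤ M.card := card_le_card hPM
  have hiP := items_le par P
  have hPc : 25 * M.card + 10 ≤ P₁.card := by
    by_contra hcon
    push Not at hcon
    have h5 : 4 * b * (P₁.card + 1) < 4 * b * (25 * M.card + 11) :=
      Nat.mul_lt_mul_of_pos_left (by omega) (by omega)
    omega
  obtain ⟨f₂, e2, i2, p2, v2, _⟩ := greedy_num (N := L) hpar (W := P) (X := M \ P) (F := ∅)
    (P := P₁) (f := fP) ((hPM.trans hMH).trans hH) ((sdiff_subset.trans hMH).trans hH)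
    disjoint_sdiff (by
      intro x hx
      rw [mem_sdiff] at hx
      exact coreap_chs_clo cP (mem_range.1 (hH (hMH hx.1))) hx.2) i1 v1 hP1 (by
      rw [card_empty]
      omega)
  rw [union_sdiff_of_subset hPM] at i2 v2
  -- step 3
  have hHM : (H \ M).card ≤ H.card := card_le_card sdiff_subset
  have hiM := items_le par M
  obtain ⟨f₃, e3, i3, p3, v3, _⟩ := greedy_num (N := L) hpar (W := M) (X := H \ M) (F := ∅)
    (P := Icc b L) (f := f₂) (hMH.trans hH) (sdiff_subset.trans hH)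
    disjoint_sdiff (by
      intro x hx
      rw [mem_sdiff] at hx
      exact coreap_chs_clo cM (mem_range.1 (hH hx.1)) hx.2) i2 v2 (Icc_subset_Icc_left hb) (by
      rw [card_empty, Nat.card_Icc]
      omega)
  rw [union_sdiff_of_subset hMH] at i3 v3
  have hfP : ∀ v ∈ P, f₃ v = fP v := by
    intro v hv
    rw [e3 v (hPM hv), e2 v hv]
  have hfM : ∀ x ∈ M \ G, f₃ x % (4 * b) = 1 ∧ b ≤ f₃ x := by
    intro x hx
    rw [mem_sdiff] at hx
    by_cases hxP : x ∈ P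
    · rw [hfP x hxP]
      exact hG x (mem_sdiff.2 ⟨hxP, hx.2⟩)
    · rw [e3 x hx.1]
      exact hP2 _ (p2 x (mem_sdiff.2 ⟨hx.1, hxP⟩))
  refine ⟨f₃, i3, v3, hfP, fun x hx => (hfM x hx).1, ?_⟩
  intro x hx
  rw [mem_sdiff] at hx
  by_cases hxM : x ∈ M
  · exact (hfM x (mem_sdiff.2 ⟨hxM, hx.2⟩)).2
  · exact (mem_Icc.1 (p3 x (mem_sdiff.2 ⟨hx.1, hxM⟩))).1

private theorem coreap_bij {U : Finset ℕ} {D : Finset (ℕ × ℕ)} (h : U.card = D.card) :
    ∃ g : ℕ → ℕ × ℕ, Set.BijOn g U D := by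
  classical
  obtain ⟨e⟩ : Nonempty (U ≃ D) := ⟨Finset.equivOfCardEq h⟩
  refine ⟨fun u => if hu : u ∈ U then (e ⟨u, hu⟩ : ℕ × ℕ) else (0, 0), ?_, ?_, ?_⟩
  · intro u hu
    have hu' : u ∈ U := hu
    simp only [dif_pos hu']
    exact (e ⟨u, hu'⟩).2
  · intro u hu v hv huv
    have hu' : u ∈ U := hu
    have hv' : v ∈ U := hv
    simp only [dif_pos hu', dif_pos hv'] at huv
    have := e.injective (Subtype.ext huv)
    exact congrArg Subtype.val this
  · intro d hd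
    have hd' : d ∈ D := hd
    refine ⟨(e.symm ⟨d, hd'⟩ : ℕ), (e.symm ⟨d, hd'⟩).2, ?_⟩
    have h1 : ((e.symm ⟨d, hd'⟩ : ℕ)) ∈ U := (e.symm ⟨d, hd'⟩).2
    simp only [dif_pos h1]
    simp

/-- the labels of the units are different -/
private theorem coreap_unit {D : Finset (ℕ × ℕ)} (h : UnitOK 2 D) :
    (∀ d ∈ D, ∀ d' ∈ D, d.1 = d'.1 → d = d') ∧ (∀ d ∈ D, ∀ d' ∈ D, d.2 = d'.2 → d = d') ∧
      (∀ d ∈ D, ∀ d' ∈ D, d.1 ≠ d'.2) := by
  have hc := h.2
  unfold labs at hc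
  have h1 : (D.image Prod.fst).card ≤ D.card := card_image_le
  have h2 : (D.image Prod.snd).card ≤ D.card := card_image_le
  have h3 := card_union_add_card_inter (D.image Prod.fst) (D.image Prod.snd)
  have h4 : (D.image Prod.fst).card = D.card := by omega
  have h5 : (D.image Prod.snd).card = D.card := by omega
  have h6 : (D.image Prod.fst ∩ D.image Prod.snd).card = 0 := by omega
  refine ⟨?_, ?_, ?_⟩
  · intro d hd d' hd' he
    exact Finset.card_image_iff.1 h4 hd hd' he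
  · intro d hd d' hd' he
    exact Finset.card_image_iff.1 h5 hd hd' he
  · intro d hd d' hd' he
    rw [card_eq_zero] at h6
    have : d.1 ∈ D.image Prod.fst ∩ D.image Prod.snd := by
      rw [mem_inter]
      exact ⟨mem_image_of_mem _ hd, he ▸ mem_image_of_mem _ hd'⟩
    rw [h6] at this
    exact notMem_empty _ this

/-- numbering of `B = H ∪ P` -/
private theorem coreap_fB {n : ℕ} {par : ℕ → ℕ} {H U : Finset ℕ} {D : Finset (ℕ × ℕ)}
    {fH : ℕ → ℕ} (hU : ∀ u ∈ U, 1 ≤ u ∧ pdeg n par u = 2) (hpi : Set.InjOn par U)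
    (hPc : (U.image par ∪ U.biUnion (chs n par)).card = 2 * U.card)
    (hPH : Disjoint (U.image par ∪ U.biUnion (chs n par)) H)
    (hPi : items par (H ∪ (U.image par ∪ U.biUnion (chs n par))) =
      items par H ∪ (U.image par ∪ U.biUnion (chs n par)).image Sum.inl)
    (hUD : U.card = D.card) (hOK : UnitOK 2 D)
    (hinj : Set.InjOn (val par fH) (items par H))
    (hdis : Disjoint (labs D) ((items par H).image (val par fH))) :
    ∃ (g : ℕ → ℕ × ℕ) (f₀ : ℕ → ℕ), Set.BijOn g U D ∧ (∀ x ∈ H, f₀ x = fH x) ∧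
      (∀ u ∈ U, f₀ (par u) = (g u).1 ∧ ∃ c, chs n par u = {c} ∧ f₀ c = (g u).2) ∧
      Set.InjOn (val par f₀) (items par (H ∪ (U.image par ∪ U.biUnion (chs n par)))) ∧
      (∀ x ∈ items par (H ∪ (U.image par ∪ U.biUnion (chs n par))),
        x ∈ items par H ∨ val par f₀ x ∈ labs D) ∧
      (∀ x ∈ U.image par ∪ U.biUnion (chs n par), f₀ x ∈ labs D) ∧
      (∀ y ∈ labs D, ∃ x ∈ U.image par ∪ U.biUnion (chs n par), f₀ x = y) := by
  classical
  obtain ⟨g, hg⟩ := coreap_bij hUD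
  obtain ⟨m1, m2, m3⟩ := coreap_unit hOK
  -- the only child
  have hch : ∀ u ∈ U, ∃ c, chs n par u = {c} := by
    intro u hu
    obtain ⟨a1, a2⟩ := hU u hu
    unfold pdeg at a2
    rw [if_neg (by omega)] at a2
    exact card_eq_one.1 (by omega)
  -- the two sets are disjoint
  have c1 : (U.image par).card = U.card := card_image_of_injOn hpi
  have c2 : (U.biUnion (chs n par)).card ≤ U.card := by
    refine le_trans card_biUnion_le ?_
    rw [Finset.card_eq_sum_ones]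
    apply Finset.sum_le_sum
    intro u hu
    obtain ⟨c, hc⟩ := hch u hu
    rw [hc, card_singleton]
  have c3 := card_union_add_card_inter (U.image par) (U.biUnion (chs n par))
  have c4 : (U.image par ∩ U.biUnion (chs n par)).card = 0 := by omega
  have hdj : ∀ x ∈ U.image par, x ∉ U.biUnion (chs n par) := by
    intro x hx hx'
    rw [card_eq_zero] at c4
    have : x ∈ U.image par ∩ U.biUnion (chs n par) := mem_inter.2 ⟨hx, hx'⟩
    rw [c4] at this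
    exact notMem_empty _ this
  have hparc : ∀ u ∈ U, ∀ c ∈ chs n par u, par c = u := fun u _ c hc => (mem_chs.1 hc).2.2
  obtain ⟨pinv, hpinv⟩ : ∃ pinv : ℕ → ℕ, ∀ u ∈ U, pinv (par u) = u := by
    refine ⟨Function.invFunOn par U, fun u hu => ?_⟩
    have h1 : par u ∈ par '' U := ⟨u, hu, rfl⟩
    have h2 := Function.invFunOn_mem h1
    have h3 := Function.invFunOn_eq h1
    exact hpi h2 hu h3
  obtain ⟨f₀, hf₀⟩ : ∃ f₀ : ℕ → ℕ, ∀ x, f₀ x = if x ∈ H then fH x else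
      if x ∈ U.image par then (g (pinv x)).1 else (g (par x)).2 := ⟨_, fun _ => rfl⟩
  have fH' : ∀ x ∈ H, f₀ x = fH x := by
    intro x hx
    rw [hf₀, if_pos hx]
  have fp : ∀ u ∈ U, f₀ (par u) = (g u).1 := by
    intro u hu
    have h1 : par u ∈ U.image par := mem_image_of_mem _ hu
    have h2 : par u ∉ H := Finset.disjoint_left.1 hPH (mem_union_left _ h1)
    rw [hf₀, if_neg h2, if_pos h1, hpinv u hu]
  have fc : ∀ u ∈ U, ∀ c ∈ chs n par u, f₀ c = (g u).2 := by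
    intro u hu c hc
    have h1 : c ∈ U.biUnion (chs n par) := mem_biUnion.2 ⟨u, hu, hc⟩
    have h2 : c ∉ H := Finset.disjoint_left.1 hPH (mem_union_right _ h1)
    have h3 : c ∉ U.image par := fun h => hdj c h h1
    rw [hf₀, if_neg h2, if_neg h3, hparc u hu c hc]
  have gD : ∀ u ∈ U, g u ∈ D := fun u hu => hg.1 hu
  have hPl : ∀ x ∈ U.image par ∪ U.biUnion (chs n par), f₀ x ∈ labs D := by
    intro x hx
    rw [mem_labs]
    rcases mem_union.1 hx with h | h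
    · obtain ⟨u, hu, rfl⟩ := mem_image.1 h
      exact ⟨g u, gD u hu, Or.inl (fp u hu)⟩
    · obtain ⟨u, hu, hc⟩ := mem_biUnion.1 h
      exact ⟨g u, gD u hu, Or.inr (fc u hu x hc)⟩
  have hPinj : ∀ x ∈ U.image par ∪ U.biUnion (chs n par), ∀ y ∈ U.image par ∪ U.biUnion (chs n par),
      f₀ x = f₀ y → x = y := by
    intro x hx y hy hxy
    rcases mem_union.1 hx with h | h
    · obtain ⟨u, hu, rfl⟩ := mem_image.1 h
      rcases mem_union.1 hy with h' | h'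
      · obtain ⟨w, hw, rfl⟩ := mem_image.1 h'
        rw [fp u hu, fp w hw] at hxy
        rw [hg.2.1 hu hw (m1 _ (gD u hu) _ (gD w hw) hxy)]
      · obtain ⟨w, hw, hc⟩ := mem_biUnion.1 h'
        rw [fp u hu, fc w hw y hc] at hxy
        exact absurd hxy (m3 _ (gD u hu) _ (gD w hw))
    · obtain ⟨u, hu, hc⟩ := mem_biUnion.1 h
      rcases mem_union.1 hy with h' | h'
      · obtain ⟨w, hw, rfl⟩ := mem_image.1 h'
        rw [fp w hw, fc u hu x hc] at hxy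
        exact absurd hxy.symm (m3 _ (gD w hw) _ (gD u hu))
      · obtain ⟨w, hw, hc'⟩ := mem_biUnion.1 h'
        rw [fc u hu x hc, fc w hw y hc'] at hxy
        have huw := hg.2.1 hu hw (m2 _ (gD u hu) _ (gD w hw) hxy)
        subst huw
        obtain ⟨c, hcc⟩ := hch u hu
        rw [hcc, mem_singleton] at hc hc'
        rw [hc, hc']
  have hvH : ∀ x ∈ items par H, val par f₀ x = val par fH x := fun x hx => val_items fH' hx
  refine ⟨g, f₀, hg, fH', ?_, ?_, ?_, hPl, ?_⟩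
  · intro u hu
    refine ⟨fp u hu, ?_⟩
    obtain ⟨c, hc⟩ := hch u hu
    exact ⟨c, hc, fc u hu c (by rw [hc]; exact mem_singleton_self c)⟩
  · rw [hPi]
    intro x hx y hy hxy
    rcases mem_union.1 hx with h | h
    · rcases mem_union.1 hy with h' | h'
      · rw [hvH x h, hvH y h'] at hxy
        exact hinj h h' hxy
      · obtain ⟨z, hz, rfl⟩ := mem_image.1 h'
        exfalso
        rw [hvH x h, val_inl] at hxy
        exact Finset.disjoint_left.1 hdis (hPl z hz) (hxy ▸ mem_image_of_mem _ h)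
    · obtain ⟨w, hw, rfl⟩ := mem_image.1 h
      rcases mem_union.1 hy with h' | h'
      · exfalso
        rw [hvH y h', val_inl] at hxy
        exact Finset.disjoint_left.1 hdis (hPl w hw) (hxy ▸ mem_image_of_mem _ h')
      · obtain ⟨z, hz, rfl⟩ := mem_image.1 h'
        rw [val_inl, val_inl] at hxy
        rw [hPinj w hw z hz hxy]
  · intro x hx
    rw [hPi] at hx
    rcases mem_union.1 hx with h | h
    · exact Or.inl h
    · obtain ⟨w, hw, rfl⟩ := mem_image.1 h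
      exact Or.inr (hPl w hw)
  · intro y hy
    obtain ⟨d, hd, hyd⟩ := mem_labs.1 hy
    obtain ⟨u, hu, hgu⟩ := hg.2.2 hd
    rcases hyd with rfl | rfl
    · exact ⟨par u, mem_union_left _ (mem_image_of_mem _ hu), by rw [fp u hu, hgu]⟩
    · obtain ⟨c, hc⟩ := hch u hu
      have hc' : c ∈ chs n par u := by
        rw [hc]
        exact mem_singleton_self c
      exact ⟨c, mem_union_right _ (mem_biUnion.2 ⟨u, hu, hc'⟩), by rw [fc u hu c hc', hgu]⟩

/-- the domains -/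
private def coreapDom (b : ℕ) (G Q : Finset ℕ) (f₀ : ℕ → ℕ) (h : ℕ) : Finset ℕ :=
  Q.filter (fun y => f₀ h < y ∧ y - f₀ h ∈ Q ∧ (h ∈ G → f₀ h ≤ y % b))

private theorem coreap_dom {N b c₁ : ℕ} {G Q : Finset ℕ} {f₀ : ℕ → ℕ} {h : ℕ} (hQ : Q ⊆ Icc 1 N)
    (hb : 1 ≤ b) (hG : h ∈ G → f₀ h ≤ c₁) :
    N ≤ (coreapDom b G Q f₀ h).card + 2 * (N - Q.card) + f₀ h + c₁ * (N / b + 1) := by
  classical
  have hsub : Icc 1 N ⊆ coreapDom b G Q f₀ h ∪ ((Icc 1 N \ Q) ∪ (Icc 1 (f₀ h) ∪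
      (((Icc 1 N \ Q).image (fun z => z + f₀ h)) ∪ ((Icc 1 N).filter (fun y => y % b < c₁))))) := by
    intro y hy
    have hy' := mem_Icc.1 hy
    simp only [mem_union, mem_sdiff, mem_image, mem_filter]
    by_cases h1 : y ∈ Q
    · by_cases h2 : f₀ h < y
      · by_cases h3 : y - f₀ h ∈ Q
        · by_cases h4 : h ∈ G → f₀ h ≤ y % b
          · left
            unfold coreapDom
            rw [mem_filter]
            exact ⟨h1, h2, h3, h4⟩
          · right; right; right; right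
            push Not at h4
            exact ⟨hy, lt_of_lt_of_le h4.2 (hG h4.1)⟩
        · right; right; right; left
          refine ⟨y - f₀ h, ⟨mem_Icc.2 ⟨by omega, by omega⟩, h3⟩, by omega⟩
      · right; right; left
        exact mem_Icc.2 ⟨hy'.1, by omega⟩
    · right; left
      exact ⟨hy, h1⟩
  have h1 := card_le_card hsub
  rw [Nat.card_Icc, Nat.add_sub_cancel] at h1
  have h2 := card_union_le (coreapDom b G Q f₀ h) ((Icc 1 N \ Q) ∪ (Icc 1 (f₀ h) ∪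
      (((Icc 1 N \ Q).image (fun z => z + f₀ h)) ∪ ((Icc 1 N).filter (fun y => y % b < c₁)))))
  have h3 := card_union_le (Icc 1 N \ Q) (Icc 1 (f₀ h) ∪
      (((Icc 1 N \ Q).image (fun z => z + f₀ h)) ∪ ((Icc 1 N).filter (fun y => y % b < c₁))))
  have h4 := card_union_le (Icc 1 (f₀ h))
      (((Icc 1 N \ Q).image (fun z => z + f₀ h)) ∪ ((Icc 1 N).filter (fun y => y % b < c₁)))
  have h5 := card_union_le ((Icc 1 N \ Q).image (fun z => z + f₀ h))
    ((Icc 1 N).filter (fun y => y % b < c₁))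
  have h6 : ((Icc 1 N \ Q).image (fun z => z + f₀ h)).card ≤ (Icc 1 N \ Q).card := card_image_le
  have h7 : (Icc 1 N \ Q).card = N - Q.card := by
    rw [card_sdiff_of_subset hQ, Nat.card_Icc, Nat.add_sub_cancel]
  have h8 : (Icc 1 (f₀ h)).card = f₀ h := by rw [Nat.card_Icc, Nat.add_sub_cancel]
  have h9 : ((Icc 1 N).filter (fun y => y % b < c₁)).card ≤ c₁ * (N / b + 1) := by
    have h10 : ((Icc 1 N).filter (fun y => y % b < c₁)).card ≤
        (range c₁ ×ˢ range (N / b + 1)).card := by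
      apply card_le_card_of_injOn (fun y => (y % b, y / b))
      · intro y hy
        have hy' := mem_filter.1 hy
        have hy2 := mem_Icc.1 hy'.1
        have h11 : y / b ≤ N / b := Nat.div_le_div_right hy2.2
        simp only [coe_product, coe_range, Set.mem_prod, Set.mem_Iio]
        exact ⟨hy'.2, by omega⟩
      · intro y _ z _ hyz
        simp only [Prod.mk.injEq] at hyz
        rw [← Nat.mod_add_div y b, ← Nat.mod_add_div z b, hyz.1, hyz.2]
    rwa [card_product, card_range, card_range] at h10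
  omega

private theorem coreap_zdg {n : ℕ} {par : ℕ → ℕ} {B Z : Finset ℕ} {x : ℕ} (hx : x < n) :
    zdg n par B Z x ≤ pdeg n par x := by
  classical
  unfold zdg pdeg
  by_cases h0 : x = 0
  · rw [if_pos h0, add_zero]
    apply card_le_card
    intro v hv
    rw [mem_filter, mem_bnb] at hv
    rw [mem_chs]
    rcases hv.2.2 with h | h
    · exact ⟨h.2.1, h.1, h.2.2⟩
    · omega
  · rw [if_neg h0]
    have h1 : Z.filter (fun v => x ∈ bnb n par B v) ⊆ insert (par x) (chs n par x) := by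
      intro v hv
      rw [mem_filter, mem_bnb] at hv
      rw [mem_insert, mem_chs]
      rcases hv.2.2 with h | h
      · exact Or.inr ⟨h.2.1, h.1, h.2.2⟩
      · exact Or.inl h.2.2.symm
    exact (card_le_card h1).trans (card_insert_le _ _)

private theorem coreap_sets {n N : ℕ} {par : ℕ → ℕ} (hpar : IsPar n par) (hn : 1 ≤ n)
    (hN : N + 1 = 2 * n) (hN4 : 4 ≤ N) (h0 : 2 ≤ pdeg n par 0) {P : Finset ℕ}
    (hPn : P ⊆ range n) :
    ∃ M H : Finset ℕ, P ⊆ M ∧ M ⊆ H ∧ H ⊆ range n ∧ Clo n par M ∧ Clo n par H ∧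
      0 ∈ H ∧
      M.card ≤ 2 * (P.card + (Nat.sqrt N + 1)) ∧ (∀ v < n, N < pdeg n par v ^ 2 → v ∈ M) ∧
      H.card ≤ 4 * ((hosts n par).card + P.card) + 2 ∧ (∀ v < n, v ∉ H → pdeg n par v ≤ 2) := by
  classical
  obtain ⟨A₂, hA₂⟩ : ∃ A₂, A₂ = (range n).filter (fun v => N < pdeg n par v ^ 2) := ⟨_, rfl⟩
  have hA₂c : A₂.card ≤ Nat.sqrt N + 1 := by
    have h1 := high_card (D := Nat.sqrt N + 1) hpar hn
    have h2 : A₂.card ≤ ((range n).filter (fun v => Nat.sqrt N + 1 ≤ pdeg n par v)).card := by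
      apply card_le_card
      intro v hv
      rw [hA₂, mem_filter] at hv
      rw [mem_filter]
      exact ⟨hv.1, Nat.succ_le_of_lt (Nat.sqrt_lt'.2 hv.2)⟩
    have h3 : (Nat.sqrt N + 1) * A₂.card ≤ 2 * n := le_trans (Nat.mul_le_mul_left _ h2) h1
    have h4 : N < (Nat.sqrt N + 1) ^ 2 := Nat.lt_succ_sqrt' N
    have h5 : (Nat.sqrt N + 1) * A₂.card ≤ (Nat.sqrt N + 1) * (Nat.sqrt N + 1) := by
      rw [pow_two] at h4
      omega
    exact Nat.le_of_mul_le_mul_left h5 (Nat.succ_pos _)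
  obtain ⟨M, hAM, hMn, hMc, hMcard, hMmin⟩ := clo_exists hpar (P ∪ A₂)
    (union_subset hPn (hA₂ ▸ filter_subset _ _))
  obtain ⟨X, hX⟩ : ∃ X, X = (range n).filter (fun v => 3 ≤ pdeg n par v) ∪ {0} := ⟨_, rfl⟩
  have hXc : X.card ≤ 2 * (hosts n par).card + 1 := by
    rw [hX]
    refine le_trans (card_union_le _ _) ?_
    rw [card_singleton]
    have := branch_card hpar hn h0
    omega
  have hXn : X ⊆ range n := by
    rw [hX]
    apply union_subset (filter_subset _ _)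
    intro v hv
    rw [mem_singleton] at hv
    rw [mem_range]
    omega
  obtain ⟨H, hXH, hHn, hHc, hHcard, _⟩ := clo_exists hpar (P ∪ X) (union_subset hPn hXn)
  have h3H : ∀ v < n, 3 ≤ pdeg n par v → v ∈ H := by
    intro v hv h3
    apply hXH
    rw [mem_union]
    right
    rw [hX, mem_union, mem_filter]
    exact Or.inl ⟨mem_range.2 hv, h3⟩
  have hPH : P ⊆ H := subset_union_left.trans hXH
  have hMH : M ⊆ H := by
    apply hMmin H _ hHc
    apply union_subset hPH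
    intro v hv
    rw [hA₂, mem_filter] at hv
    apply h3H v (mem_range.1 hv.1)
    by_contra hcon
    push Not at hcon
    have : pdeg n par v ^ 2 ≤ 2 ^ 2 := Nat.pow_le_pow_left (by omega) 2
    omega
  refine ⟨M, H, (subset_union_left).trans hAM, hMH, hHn, hMc, hHc, ?_, ?_, ?_, ?_, ?_⟩
  · apply hXH
    rw [mem_union]
    right
    rw [hX]
    exact mem_union_right _ (mem_singleton_self 0)
  · refine le_trans hMcard ?_
    have := card_union_le P A₂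
    omega
  · intro v hv hN2
    apply hAM
    apply mem_union_right
    rw [hA₂, mem_filter]
    exact ⟨mem_range.2 hv, hN2⟩
  · have := card_union_le P X
    omega
  · intro v hv hvH
    by_contra hcon
    push Not at hcon
    exact hvH (h3H v hv (by omega))

private theorem coreap_one {δ s₀ s ζ β ε l γ γ₀ p₀ C : ℝ}
    {k K g₀ c₁ b n N L h Qn : ℕ} {par : ℕ → ℕ} {R : Finset ℕ}
    (hpar : IsPar n par) (h02 : 2 ≤ pdeg n par 0) (hn : 1 ≤ n) (hN : N = 2 * n - 1)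
    (hN4 : 4 ≤ N) {G P : Finset ℕ} (hGP : G ⊆ P) (hPn : P ⊆ range n) (cP : Clo n par P)
    (hGg : G.card ≤ g₀) (hPσ : P.card ≤ Nat.sqrt N + 1)
    (hGdeg : ∀ v < n, v ∉ G → (pdeg n par v : ℝ) ≤ γ * n) {fP : ℕ → ℕ}
    (iP : Set.InjOn (val par fP) (items par P)) (vP : ∀ x ∈ items par P, 1 ≤ val par fP x)
    (vPL : ∀ v ∈ P, fP v ≤ L) (lG : ∀ v ∈ G, fP v ≤ c₁)
    (lPG : ∀ v ∈ P \ G, fP v % (4 * b) = 1 ∧ b ≤ fP v)
    (hh : h = (hosts n par).card + P.card)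
    (hQn : Qn = ((range n).filter (fun v => 2 ≤ pdeg n par v)).card)
    (hR : ∀ x ∈ R, ζ * N < x ∧ x ≤ N) (hRc : (R.card : ℝ) ≤ β * N)
    (laws : ∀ (H B Z Q Zc : Finset ℕ) (f₀ : ℕ → ℕ) (Dom : ℕ → Finset ℕ),
      BCfg n N par H B Z Q f₀ Dom s₀ →
      Zc ⊆ Z → (∀ v ∈ Zc, bnb n par B v = ∅ ∧ (par v ∈ Zc ∨ par v ∉ Z)) →
      (∀ v ∈ Z, par v ∈ Zc → v ∈ Zc) → δ / 8 * N ≤ (Zc.card : ℝ) →
      ((Zc.filter (fun v => par v ∉ Z)).card : ℝ) ≤ s₀ * N →
      (((Z \ Zc).filter (fun v => par v ∉ H)).card : ℝ) ≤ s₀ * N →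
      ∑ v ∈ Z, (1 + (bnb n par B v).card + (if par v ∈ Z then 1 else 0)) ≤ Q.card →
      ∃ (mu : ℕ → ℕ → ℝ) (kr : ℕ → ℕ → ℕ → ℝ), LawV n N par B Z Q f₀ C mu kr ∧
        (∀ z ∈ Q, ∑ v ∈ Z, loadv n N par B Z f₀ mu kr v z ≤ 1) ∧
        (∀ v ∈ Z, par v ∈ H → ∀ y,
          mu v y = if y ∈ Dom (par v) then 1 / ((Dom (par v)).card : ℝ) else 0))
    (abs : ∀ F₀ : Finset ℕ, (∀ x ∈ F₀, 1 ≤ x ∧ (x : ℝ) ≤ ζ * N) →
      ∃ (A : Finset ℕ) (D : Finset (ℕ × ℕ)), AbsData 2 N R A D ε β ∧ Disjoint A F₀ ∧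
        Disjoint (labs D) F₀ ∧ (∀ x ∈ labs D, ζ * N < (x : ℝ)) ∧
        ∀ J : Finset ℕ, J ⊆ Icc 1 N → Disjoint J A → Disjoint J (labs D) → Disjoint J F₀ →
          J.card + A.card = 3 * D.card → Matchable 2 D (A ∪ J))
    (pack : ∀ (G B Z Q T : Finset ℕ) (f₀ : ℕ → ℕ) (Dom : ℕ → Finset ℕ)
        (mu : ℕ → ℕ → ℝ) (kr : ℕ → ℕ → ℕ → ℝ),
        PkCfg true g₀ c₁ b γ₀ p₀ C K n N par G B Z Q f₀ Dom mu kr →
        B ⊆ T → Z ⊆ T → T ⊆ range n → Disjoint Q R →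
        (∀ x ∈ items par B, val par f₀ x ≤ N ∧ val par f₀ x ∉ R) →
        (∀ v ∈ T \ B, pdeg n par v ≤ 2) →
        (((T \ (B ∪ Z)).card : ℕ) : ℝ) ≤ l / 2 * N →
        ∃ f : ℕ → ℕ, (∀ x ∈ B, f x = f₀ x) ∧ Set.InjOn (val par f) (items par T) ∧
          ∀ x ∈ items par T, x ∉ items par B → val par f x ∈ Q ∨ val par f x ∈ R)
    (hK : K = 5 * k) (hk : 1 ≤ k) (hγ : 0 < γ) (hγ₀ : γ ≤ γ₀) (hb : 1 ≤ b)
    (hLN : (L : ℝ) ≤ ζ * N) (hLb : (b : ℝ) ≤ ζ * N) (hζ1 : ζ ≤ 1) (hβ : 0 ≤ β)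
    (m1 : 4 * b * (100 * (Nat.sqrt N + 1) + 11) ≤ L)
    (m2 : 40 * (Nat.sqrt N + 1) + 15 * (4 * h + 2) + 10 + b ≤ L + 1)
    (m3 : ∀ d : ℕ, (d : ℝ) ≤ ε * N →
      (K + 1) * (d + k) + 2 * k * (K + 1) * (5 * h + 2) ≤ k * (Qn - (4 * h + 2)))
    (m4 : ∀ d z : ℕ, (d : ℝ) ≤ ε * N → K * (Qn - (4 * h + 2)) ≤
      (K + 1) * z + 2 * K * (K + 1) * (5 * h + 2) + (K + 1) * (5 * d + K) → δ / 8 * N ≤ (z : ℝ))
    (m5 : ∀ z : ℕ, (K + 1) * z ≤ n → (z : ℝ) ≤ s * N ∧ (z : ℝ) ≤ l / 2 * N)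
    (m6 : ∀ d : ℕ, (d : ℝ) ≤ ε * N → ((5 * d + K + 2 * K * (5 * h + 2) : ℕ) : ℝ) ≤ s * N)
    (m7 : ε * N + β * N + (8 * h + 4) + 2 * (ε * N) ≤ s * N)
    (m8 : 2 * (ε * N + β * N + (8 * h + 4) + 2 * (ε * N)) + L + c₁ * (N / b + 1) ≤ s * N)
    (m9 : ∀ z : ℝ, δ / 8 * N ≤ z → 2 * (n - z) ≤ (1 - 3 * p₀) * N)
    (hss : s ≤ s₀) (hsp : s ≤ p₀) : SSext n par P fP := by
  classical
  have hNn : N + 1 = 2 * n := by omega
  have hNp : (0 : ℝ) < N := by exact_mod_cast (by omega : 0 < N)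
  obtain ⟨M, H, hPM, hMH, hHn, cM, cH, hH0, hMc, hMdeg, hHc, hHdeg⟩ :=
    coreap_sets hpar hn hNn hN4 h02 hPn
  rw [← hh] at hHc
  have hGM : G ⊆ M := hGP.trans hPM
  have hMc' : M.card ≤ 4 * (Nat.sqrt N + 1) := by omega
  obtain ⟨fH, iH, vH, hfP, lM, lH⟩ := coreap_numH (L := L) (b := b) hpar hPM hMH hHn cP cM
    hb iP vP vPL lPG (by
      refine le_trans (Nat.mul_le_mul_left _ ?_) m1
      omega) (by omega)
  obtain ⟨F₀, hF₀⟩ : ∃ F₀, F₀ = (items par H).image (val par fH) := ⟨_, rfl⟩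
  have hF₀1 : ∀ x ∈ F₀, 1 ≤ x ∧ (x : ℝ) ≤ ζ * N := by
    intro x hx
    rw [hF₀, mem_image] at hx
    obtain ⟨i, hi, rfl⟩ := hx
    have h1 := vH i hi
    refine ⟨h1.1, le_trans ?_ hLN⟩
    exact_mod_cast h1.2
  obtain ⟨A, D, hAD, hAF, hDF, hDt, hmatch⟩ := abs F₀ hF₀1
  have hdN : (D.card : ℝ) ≤ ε * N := hAD.D_le
  have hρ : ((range n).filter (fun v => v ∉ H ∧ par v ∈ H ∧ (chs n par v).Nonempty)).card ≤
      5 * h + 2 := by
    have := run_card hpar hH0 hHn hHdeg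
    omega
  have hq : Qn - (4 * h + 2) ≤ ((range n).filter (fun v => v ∉ H ∧ pdeg n par v = 2)).card := by
    have h1 : (range n).filter (fun v => 2 ≤ pdeg n par v) ⊆
        H ∪ (range n).filter (fun v => v ∉ H ∧ pdeg n par v = 2) := by
      intro v hv
      rw [mem_filter] at hv
      rw [mem_union, mem_filter]
      by_cases hvH : v ∈ H
      · exact Or.inl hvH
      · refine Or.inr ⟨hv.1, hvH, ?_⟩
        have := hHdeg v (mem_range.1 hv.1) hvH
        omega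
    have h2 := card_le_card h1
    have h3 := card_union_le H ((range n).filter (fun v => v ∉ H ∧ pdeg n par v = 2))
    omega
  obtain ⟨S, U, Zc, hsel⟩ := selA (d := D.card) hpar hK hk hH0 hHn cH hHdeg hρ hq (m3 _ hdN)
  have hUc : U.card = D.card := hsel.U_card
  obtain ⟨g, f₀, hg, hfH, hfU, hinj, hcase, hPl, hPs⟩ := coreap_fB (n := n) (H := H) (U := U)
    (D := D) (fH := fH) (fun u hu => ⟨(hsel.U_deg u hu).1, (hsel.U_deg u hu).2.1⟩) hsel.par_inj
    (by rw [hsel.P_card, hUc]) hsel.P_H hsel.P_items hUc hAD.unit iH (hF₀ ▸ hDF)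
  obtain ⟨PU, hPU⟩ : ∃ PU, PU = U.image par ∪ U.biUnion (chs n par) := ⟨_, rfl⟩
  have hS1 := hsel.P_sub
  have hS2 := hsel.P_H
  have hS3 := hsel.P_U
  have hS4 := hsel.P_S
  have hS5 := hsel.P_items
  have hS6 := hsel.one
  have hS7 := hsel.comps
  have hS8 := hsel.Zc_sub
  have hS9 := hsel.Zc_b
  have hS10 := hsel.rest
  have hS11 := hsel.P_card
  rw [← hPU] at hS1 hS2 hS3 hS4 hS5 hS6 hS7 hS8 hS9 hS10 hS11 hinj hcase hPl hPs
  obtain ⟨B, hB⟩ : ∃ B, B = H ∪ PU := ⟨_, rfl⟩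
  rw [← hB] at hS5 hS6 hS7 hS8 hS9 hS10 hinj hcase
  obtain ⟨Z, hZ⟩ : ∃ Z, Z = range n \ (B ∪ U ∪ S) := ⟨_, rfl⟩
  rw [← hZ] at hS8 hS10
  have memZ : ∀ v, v ∈ Z ↔ v < n ∧ v ∉ B ∧ v ∉ U ∧ v ∉ S := by
    intro v
    rw [hZ, mem_sdiff, mem_range, mem_union, mem_union]
    tauto
  have hHB : H ⊆ B := hB ▸ subset_union_left
  have hPB : PU ⊆ B := hB ▸ subset_union_right
  have hBn : B ⊆ range n := by
    rw [hB]
    exact union_subset hHn hS1
  have hBU : ∀ x ∈ B, x ∉ U := by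
    intro x hx hxU
    rw [hB, mem_union] at hx
    rcases hx with hx | hx
    · exact (hsel.U_deg x hxU).2.2.1 hx
    · exact Finset.disjoint_left.1 hS3 hx hxU
  have hBS : ∀ x ∈ B, x ∉ S := by
    intro x hx hxS
    rw [hB, mem_union] at hx
    rcases hx with hx | hx
    · exact Finset.disjoint_left.1 hsel.S_H hxS hx
    · exact Finset.disjoint_left.1 hS4 hx hxS
  have hZn : Z ⊆ range n := hZ ▸ sdiff_subset
  have hBZ : Disjoint B Z := by
    rw [Finset.disjoint_left]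
    intro x hx hxZ
    exact ((memZ x).1 hxZ).2.1 hx
  have hZ0 : 0 ∉ Z := fun h0 => ((memZ 0).1 h0).2.1 (hHB hH0)
  have hone : ∀ v ∈ Z, (bnb n par B v).card ≤ 1 := by
    intro v hv
    obtain ⟨a1, a2, a3, a4⟩ := (memZ v).1 hv
    exact hS6 v a1 a2 a3 a4
  have hv1 : ∀ v ∈ Z, 1 ≤ v := by
    intro v hv
    rcases Nat.eq_zero_or_pos v with h0 | h0
    · exact absurd (h0 ▸ hv) hZ0
    · exact h0
  have hlabN : labs D ⊆ Icc 1 N := hAD.D_sub
  -- values on `B`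
  have hval : ∀ x ∈ items par B, 1 ≤ val par f₀ x ∧ val par f₀ x ≤ N ∧ val par f₀ x ∉ A ∧
      val par f₀ x ∉ R := by
    intro x hx
    rcases hcase x hx with hx' | hx'
    · have e1 : val par f₀ x = val par fH x := val_items hfH hx'
      have h1 := vH x hx'
      have h2 : val par fH x ∈ F₀ := by
        rw [hF₀]
        exact mem_image_of_mem _ hx'
      have h3 : ((val par fH x : ℕ) : ℝ) ≤ ζ * N := (hF₀1 _ h2).2
      rw [e1]
      refine ⟨h1.1, ?_, fun hA => Finset.disjoint_left.1 hAF hA h2, fun hRR => ?_⟩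
      · have : ((val par fH x : ℕ) : ℝ) ≤ N := h3.trans (by nlinarith)
        exact_mod_cast this
      · exact absurd (hR _ hRR).1 (not_lt.2 h3)
    · have h1 := mem_Icc.1 (hlabN hx')
      exact ⟨h1.1, h1.2, fun hA => Finset.disjoint_left.1 hAD.AD hA hx',
        fun hRR => Finset.disjoint_left.1 hAD.DR hx' hRR⟩
  obtain ⟨Vb, hVb⟩ : ∃ Vb, Vb = (items par B).image (val par f₀) := ⟨_, rfl⟩
  obtain ⟨Q, hQ⟩ : ∃ Q, Q = Icc 1 N \ (A ∪ R ∪ Vb) := ⟨_, rfl⟩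
  have memQ : ∀ y, y ∈ Q ↔ (1 ≤ y ∧ y ≤ N) ∧ y ∉ A ∧ y ∉ R ∧ y ∉ Vb := by
    intro y
    rw [hQ, mem_sdiff, mem_Icc, mem_union, mem_union]
    tauto
  have hQN : Q ⊆ Icc 1 N := hQ ▸ sdiff_subset
  have hQc : N ≤ Q.card + (A.card + R.card + (items par B).card) := by
    have h1 : Icc 1 N ⊆ Q ∪ (A ∪ R ∪ Vb) := by
      intro y hy
      rw [mem_union]
      by_cases hy2 : y ∈ A ∪ R ∪ Vb
      · exact Or.inr hy2
      · left
        rw [hQ]
        exact mem_sdiff.2 ⟨hy, hy2⟩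
    have h2 := card_le_card h1
    rw [Nat.card_Icc, Nat.add_sub_cancel] at h2
    have h3 := card_union_le Q (A ∪ R ∪ Vb)
    have h4 := card_union_le (A ∪ R) Vb
    have h5 := card_union_le A R
    have h6 : Vb.card ≤ (items par B).card := by
      rw [hVb]
      exact card_image_le
    omega
  have hQle : Q.card ≤ N := by
    have := card_le_card hQN
    rwa [Nat.card_Icc, Nat.add_sub_cancel] at this
  have hiB : (items par B).card ≤ 2 * (4 * h + 2) + 2 * D.card := by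
    rw [hS5]
    refine le_trans (card_union_le _ _) ?_
    have h1 := items_le par H
    have h2 : (PU.image (Sum.inl : ℕ → ℕ ⊕ ℕ)).card ≤ PU.card := card_image_le
    omega
  have hW : (N : ℝ) - Q.card ≤ ε * N + β * N + (8 * h + 4) + 2 * (ε * N) := by
    have h1 : (N : ℝ) ≤ Q.card + (A.card + R.card + (items par B).card) := by exact_mod_cast hQc
    have h2 : ((items par B).card : ℝ) ≤ 2 * (4 * h + 2) + 2 * D.card := by exact_mod_cast hiB
    have h3 := hAD.A_le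
    linarith
  have hfL : ∀ x ∈ H, f₀ x ≤ L := by
    intro x hx
    rw [hfH x hx]
    exact (vH (Sum.inl x) (mem_items_inl.2 hx)).2
  have hLN' : L ≤ N := by
    have : (L : ℝ) ≤ N := hLN.trans (by nlinarith)
    exact_mod_cast this
  obtain ⟨Dom, hDom⟩ : ∃ Dom, Dom = coreapDom b G Q f₀ := ⟨_, rfl⟩
  have memDom : ∀ x y, y ∈ Dom x ↔ y ∈ Q ∧ f₀ x < y ∧ y - f₀ x ∈ Q ∧ (x ∈ G → f₀ x ≤ y % b) := by
    intro x y
    rw [hDom]
    unfold coreapDom
    rw [mem_filter]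
  have hGH : G ⊆ H := hGM.trans hMH
  have hDomc : ∀ x ∈ H, (1 - s) * N ≤ ((Dom x).card : ℝ) := by
    intro x hx
    have h1 := coreap_dom (N := N) (b := b) (c₁ := c₁) (G := G) (Q := Q) (f₀ := f₀) (h := x) hQN hb
      (by
        intro hxG
        rw [hfH x hx, hfP x (hGP hxG)]
        exact lG x hxG)
    rw [← hDom] at h1
    have h2 : (N : ℝ) ≤ (Dom x).card + 2 * (N - Q.card) + f₀ x + c₁ * ((N / b : ℕ) + 1) := by
      have h3 : ((N - Q.card : ℕ) : ℝ) = N - Q.card := Nat.cast_sub hQle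
      rw [← h3]
      exact_mod_cast h1
    have h3 : ((N / b : ℕ) : ℝ) ≤ N / b := Nat.cast_div_le
    have h4 : (f₀ x : ℝ) ≤ L := by exact_mod_cast hfL x hx
    have h5 : (c₁ : ℝ) * ((N / b : ℕ) + 1) ≤ c₁ * (N / b + 1) :=
      mul_le_mul_of_nonneg_left (by linarith) (Nat.cast_nonneg _)
    linarith
  have hcfg : BCfg n N par H B Z Q f₀ Dom s₀ := by
    refine ⟨hpar, hN, hHB, hBn, hZn, hBZ, hZ0, hQN, ?_, hone, ?_, ?_, ?_⟩
    · exact (hW.trans m7).trans (mul_le_mul_of_nonneg_right hss hNp.le)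
    · intro x hx
      exact (hval (Sum.inl x) (mem_items_inl.2 hx)).2.1
    · intro x hx y hy
      have h1 := (memDom x y).1 hy
      exact ⟨h1.1, h1.2.1, h1.2.2.1⟩
    · intro x hx
      refine le_trans ?_ (hDomc x hx)
      exact mul_le_mul_of_nonneg_right (by linarith) hNp.le
  have hZcS : ∀ v ∈ Zc, par v ∉ Z → par v ∈ S := by
    intro v hv hp
    rcases (hS9 v hv).2 with h1 | h1
    · exact absurd (hS8 h1) hp
    · exact h1
  have hZcc : δ / 8 * N ≤ (Zc.card : ℝ) := m4 D.card Zc.card hdN hsel.Zc_card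
  -- counting
  obtain ⟨T, hT⟩ : ∃ T, T = range n \ U := ⟨_, rfl⟩
  have memT : ∀ v, v ∈ T ↔ v < n ∧ v ∉ U := by
    intro v
    rw [hT, mem_sdiff, mem_range]
  have hBT : B ⊆ T := by
    intro v hv
    rw [memT]
    exact ⟨mem_range.1 (hBn hv), hBU v hv⟩
  have hZT : Z ⊆ T := by
    intro v hv
    rw [memT]
    have := (memZ v).1 hv
    exact ⟨this.1, this.2.2.1⟩
  have hTn : T ⊆ range n := hT ▸ sdiff_subset
  have hUT : ∀ v ∈ U, 1 ≤ v ∧ pdeg n par v = 2 ∧ par v ∉ U ∧ ∀ c ∈ chs n par v, c ∉ U := by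
    intro v hv
    refine ⟨(hsel.U_deg v hv).1, (hsel.U_deg v hv).2.1, ?_, ?_⟩
    · have h1 : par v ∈ PU := by
        rw [hPU]
        exact mem_union_left _ (mem_image_of_mem _ hv)
      exact Finset.disjoint_left.1 hS3 h1
    · intro c hc
      have h1 : c ∈ PU := by
        rw [hPU]
        exact mem_union_right _ (mem_biUnion.2 ⟨v, hv, hc⟩)
      exact Finset.disjoint_left.1 hS3 h1
  have hrm := items_rm (t := 2) hpar hn hsel.U_sub hUT
  rw [← hT, ← hN] at hrm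
  have hsumQ : ∑ v ∈ Z, (1 + (bnb n par B v).card + (if par v ∈ Z then 1 else 0)) ≤ Q.card := by
    have h1 := items_card hpar hBn hZn hBZ hZ0
    have h2 : (items par (B ∪ Z)).card ≤ (items par T).card :=
      card_le_card (items_mono (union_subset hBT hZT))
    have h3 : (A.card : ℝ) + 2 * β * N ≤ (2 + 1) * D.card := by
      have := hAD.gap
      exact_mod_cast this
    have h4 : (A.card : ℝ) + R.card ≤ 3 * D.card := by nlinarith
    have h5 : A.card + R.card ≤ 3 * D.card := by exact_mod_cast h4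
    omega
  obtain ⟨mu, kr, hlaw, hload, hunif⟩ := laws H B Z Q Zc f₀ Dom hcfg hS8
    (fun v hv => ⟨(hS9 v hv).1, by
      rcases (hS9 v hv).2 with h1 | h1
      · exact Or.inl h1
      · right
        intro h2
        exact ((memZ _).1 h2).2.2.2 h1⟩)
    (by
      intro v hv hp
      have h1 := (memZ v).1 hv
      rcases hsel.Zc_c v h1.1 (hv1 v hv) hp with h2 | h2
      · exact h2
      · exact absurd h2 h1.2.2.2)
    hZcc
    (by
      refine le_trans ?_ (mul_le_mul_of_nonneg_right hss hNp.le)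
      refine le_trans ?_ (m5 _ hsel.Zc_r).1
      have h1 : (Zc.filter (fun v => par v ∉ Z)).card ≤ (Zc.filter (fun v => par v ∈ S)).card := by
        apply card_le_card
        intro v hv
        rw [mem_filter] at hv ⊢
        exact ⟨hv.1, hZcS v hv.1 hv.2⟩
      exact_mod_cast h1)
    (by
      refine le_trans ?_ (mul_le_mul_of_nonneg_right hss hNp.le)
      refine le_trans ?_ (m6 D.card hdN)
      exact_mod_cast hS10)
    hsumQ
  have hBdeg : ∀ x ∈ B \ G, (pdeg n par x : ℝ) ≤ γ * n := by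
    intro x hx
    rw [mem_sdiff] at hx
    exact hGdeg x (mem_range.1 (hBn hx.1)) hx.2
  have hBM : ∀ x ∈ B \ G, N < zdg n par B Z x ^ 2 → x ∈ M \ G := by
    intro x hx hz
    rw [mem_sdiff] at hx ⊢
    refine ⟨hMdeg x (mem_range.1 (hBn hx.1)) (lt_of_lt_of_le hz ?_), hx.2⟩
    exact Nat.pow_le_pow_left (coreap_zdg (mem_range.1 (hBn hx.1))) 2
  have hPK : PkCfg true g₀ c₁ b γ₀ p₀ C K n N par G B Z Q f₀ Dom mu kr := by
    refine ⟨hpar, by omega, fun h0 => absurd h0 (by decide), hGH.trans hHB, hGg,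
      ?_, ?_, ?_, ?_, ?_, ?_, ?_,
      hBn, hZn, hBZ, hZ0, hQN, hone, hinj, ?_, ?_, hlaw, ?_, hload⟩
    · intro x hx
      rw [hfH x (hGH hx), hfP x (hGP hx)]
      exact ⟨vP (Sum.inl x) (mem_items_inl.2 (hGP hx)), lG x hx⟩
    · intro x hx
      rw [mem_sdiff, hB, mem_union] at hx
      rcases hx.1 with h1 | h1
      · rw [hfH x h1]
        exact lH x (mem_sdiff.2 ⟨h1, hx.2⟩)
      · have h2 := hDt _ (hPl x h1)
        have h3 : (b : ℝ) < f₀ x := lt_of_le_of_lt hLb h2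
        exact_mod_cast h3.le
    · intro x hx y hy hxy hzx hzy
      have h1 := hBM x hx hzx
      have h2 := hBM y hy hzy
      have h3 := lM x h1
      have h4 := lM y h2
      have hxH : x ∈ H := hMH (mem_sdiff.1 h1).1
      have hyH : y ∈ H := hMH (mem_sdiff.1 h2).1
      have hne : fH x ≠ fH y := by
        intro h5
        have h6 : (Sum.inl x : ℕ ⊕ ℕ) = Sum.inl y :=
          iH (mem_items_inl.2 hxH) (mem_items_inl.2 hyH) h5
        exact hxy (Sum.inl.inj h6)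
      rw [hfH x hxH, hfH y hyH]
      have e1 := Nat.mod_add_div (fH x) (4 * b)
      have e2 := Nat.mod_add_div (fH y) (4 * b)
      rw [h3] at e1
      rw [h4] at e2
      obtain ⟨i, hi⟩ : ∃ i, i = fH x / (4 * b) := ⟨_, rfl⟩
      obtain ⟨j, hj⟩ : ∃ j, j = fH y / (4 * b) := ⟨_, rfl⟩
      rw [← hi] at e1
      rw [← hj] at e2
      rcases lt_trichotomy i j with hij | hij | hij
      · have h5 : 4 * b * (i + 1) ≤ 4 * b * j := Nat.mul_le_mul_left _ hij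
        have h6 : 4 * b * (i + 1) = 4 * b * i + 4 * b := by ring
        unfold dd
        omega
      · exfalso
        apply hne
        rw [← e1, ← e2, hij]
      · have h5 : 4 * b * (j + 1) ≤ 4 * b * i := Nat.mul_le_mul_left _ hij
        have h6 : 4 * b * (j + 1) = 4 * b * j + 4 * b := by ring
        unfold dd
        omega
    · intro x hx
      have h1 : (zdg n par B Z x : ℝ) ≤ pdeg n par x := by
        exact_mod_cast coreap_zdg (mem_range.1 (hBn (mem_sdiff.1 hx).1))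
      have h2 := hBdeg x hx
      have h3 : γ * n ≤ γ₀ * N := by
        have h4 : (n : ℝ) ≤ N := by exact_mod_cast (by omega : n ≤ N)
        exact mul_le_mul hγ₀ h4 (Nat.cast_nonneg _) (hγ.le.trans hγ₀)
      linarith
    · intro x hx y
      rw [memDom]
      exact ⟨fun h1 => ⟨h1.1, h1.2.1, h1.2.2.1, h1.2.2.2 hx⟩,
        fun h1 => ⟨h1.1, h1.2.1, h1.2.2.1, fun _ => h1.2.2.2⟩⟩
    · intro x hx
      refine le_trans ?_ (hDomc x (hGH hx))
      exact mul_le_mul_of_nonneg_right (by linarith) hNp.le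
    · have h1 : Z.filter (fun v => par v ∈ G) ⊆ range n \ Zc := by
        intro v hv
        rw [mem_filter] at hv
        rw [mem_sdiff]
        refine ⟨hZn hv.1, fun hc => ?_⟩
        have h2 : par v ∈ bnb n par B v := by
          rw [mem_bnb]
          exact ⟨hHB (hGH hv.2), Or.inl ⟨hv1 v hv.1, mem_range.1 (hZn hv.1), rfl⟩⟩
        rw [(hS9 v hc).1] at h2
        exact notMem_empty _ h2
      have h2 := card_le_card h1
      rw [card_sdiff_of_subset (hS8.trans hZn), card_range] at h2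
      have h3 : Zc.card ≤ n := by
        have := card_le_card (hS8.trans hZn)
        rwa [card_range] at this
      have h4 : ((Z.filter (fun v => par v ∈ G)).card : ℝ) ≤ n - Zc.card := by
        rw [← Nat.cast_sub h3]
        exact_mod_cast h2
      have h5 := m9 _ hZcc
      linarith
    · intro x hx
      refine ⟨(hval x hx).1, fun hq => ((memQ _).1 hq).2.2.2 ?_⟩
      rw [hVb]
      exact mem_image_of_mem _ hx
    · intro r
      have h1 : range n \ Z = B ∪ U ∪ S := by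
        rw [hZ]
        apply Finset.sdiff_sdiff_eq_self
        exact union_subset (union_subset hBn hsel.U_sub) hsel.S_sub
      rw [h1]
      exact hS7 r
    · intro v hv hp y
      exact hunif v hv (hGH hp) y
  have hTBZ : T \ (B ∪ Z) ⊆ S := by
    intro v hv
    rw [mem_sdiff, memT, mem_union, memZ] at hv
    by_contra hcon
    apply hv.2
    by_cases h1 : v ∈ B
    · exact Or.inl h1
    · exact Or.inr ⟨hv.1.1, h1, hv.1.2, hcon⟩
  obtain ⟨f, hfB, hfi, hfn⟩ := pack G B Z Q T f₀ Dom mu kr hPK hBT hZT hTn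
    (by
      rw [Finset.disjoint_left]
      intro y hy
      exact ((memQ y).1 hy).2.2.1)
    (fun x hx => ⟨(hval x hx).2.1, (hval x hx).2.2.2⟩)
    (by
      intro v hv
      rw [mem_sdiff, memT] at hv
      exact hHdeg v hv.1.1 (fun h1 => hv.2 (hHB h1)))
    (by
      refine le_trans ?_ (m5 _ hsel.S_card).2
      exact_mod_cast card_le_card hTBZ)
  have hvalT : ∀ x ∈ items par T, 1 ≤ val par f x ∧ val par f x ≤ N ∧ val par f x ∉ A := by
    intro x hx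
    by_cases hxB : x ∈ items par B
    · rw [val_items hfB hxB]
      have h1 := hval x hxB
      exact ⟨h1.1, h1.2.1, h1.2.2.1⟩
    · rcases hfn x hx hxB with h1 | h1
      · have h2 := (memQ _).1 h1
        exact ⟨h2.1.1, h2.1.2, h2.2.1⟩
      · have h2 := hR _ h1
        refine ⟨?_, h2.2, fun hA => Finset.disjoint_left.1 hAD.AR hA h1⟩
        have h3 : (0 : ℝ) < (val par f x : ℕ) := by
          have h4 : (0 : ℝ) ≤ ζ * N := le_trans (Nat.cast_nonneg _) hLN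
          linarith [h2.1]
        exact_mod_cast h3
  subst hN
  have hend : ∃ f' : ℕ → ℕ, (∀ i, i ∉ U → f' i = f i) ∧
      Set.InjOn (val par f') (items par (range n)) ∧
      ∀ x ∈ items par (range n), 1 ≤ val par f' x ∧ val par f' x ≤ 2 * n - 1 := ?_
  · obtain ⟨f', g1, g2, g3⟩ := hend
    refine ⟨f', fun v hv => ?_, g2, g3⟩
    have hvH : v ∈ H := hMH (hPM hv)
    rw [g1 v (hBU v (hHB hvH)), hfB v (hHB hvH), hfH v hvH, hfP v hv]
  refine absorb_finP (t := 2) (u := g) (f := f) hn hpar hAD.A_sub hsel.U_sub hUT hg ?_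
    (hT ▸ hfi) (hT ▸ hvalT) (fun h0 => absurd h0 (by decide)) ?_
  · intro v hv
    obtain ⟨h1, c, hc, h2⟩ := hfU v hv
    have h3 : par v ∈ B := by
      apply hPB
      rw [hPU]
      exact mem_union_left _ (mem_image_of_mem _ hv)
    have h4 : c ∈ B := by
      apply hPB
      rw [hPU]
      apply mem_union_right _ (mem_biUnion.2 ⟨v, hv, _⟩)
      rw [hc]
      exact mem_singleton_self c
    rw [hc, image_singleton, hfB _ h3, hfB _ h4, h1, h2]
  · intro J hJ hJA hJT hJc _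
    have hsubB : ∀ x ∈ items par B, val par f₀ x ∉ J := by
      intro x hx hxJ
      apply Finset.disjoint_left.1 hJT hxJ
      rw [← hT, mem_image]
      exact ⟨x, items_mono hBT hx, val_items hfB hx⟩
    apply hmatch J hJ hJA
    · rw [Finset.disjoint_left]
      intro y hy hyD
      obtain ⟨x, hx, rfl⟩ := hPs y hyD
      exact hsubB (Sum.inl x) (mem_items_inl.2 (hPB hx)) hy
    · rw [Finset.disjoint_left]
      intro y hy hyF
      rw [hF₀, mem_image] at hyF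
      obtain ⟨x, hx, rfl⟩ := hyF
      apply hsubB x (items_mono hHB hx)
      rw [val_items hfH hx]
      exact hy
    · exact hJc

private theorem coreap_large (W θ : ℝ) (hW : 0 ≤ W) (hθ : 0 < θ) : ∃ n₁ : ℕ, ∀ n : ℕ, n₁ ≤ n →
    W * ((Nat.sqrt (2 * n - 1) : ℝ) + 1) ≤ θ * n := by
  refine ⟨⌈(3 * W / θ) ^ 2⌉₊ + 1, fun n hn => ?_⟩
  have hn1 : (1 : ℝ) ≤ n := by exact_mod_cast (by omega : 1 ≤ n)
  have h1 : (3 * W / θ) ^ 2 ≤ n := (Nat.le_ceil _).trans (by exact_mod_cast (by omega :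
    ⌈(3 * W / θ) ^ 2⌉₊ ≤ n))
  obtain ⟨r, hr0, hr⟩ : ∃ r : ℝ, 0 ≤ r ∧ r ^ 2 = n := ⟨Real.sqrt n, Real.sqrt_nonneg _,
    Real.sq_sqrt (by linarith)⟩
  have h2 : 3 * W / θ ≤ r := by
    have h3 : (3 * W / θ) ^ 2 ≤ r ^ 2 := by rw [hr]; exact h1
    exact le_of_sq_le_sq h3 hr0
  have hr1 : 1 ≤ r := by
    by_contra hcon
    push Not at hcon
    nlinarith
  have h4 : (Nat.sqrt (2 * n - 1) : ℝ) ≤ 2 * r := by
    have h5 : Nat.sqrt (2 * n - 1) ^ 2 ≤ 2 * n - 1 := Nat.sqrt_le' _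
    have h6 : Nat.sqrt (2 * n - 1) ^ 2 ≤ 4 * n := by omega
    have h7 : (Nat.sqrt (2 * n - 1) : ℝ) ^ 2 ≤ 4 * n := by exact_mod_cast h6
    have h8 : (Nat.sqrt (2 * n - 1) : ℝ) ^ 2 ≤ (2 * r) ^ 2 := by
      rw [mul_pow, hr]
      linarith
    exact le_of_sq_le_sq h8 (by linarith)
  have h5 : 3 * W ≤ r * θ := by rwa [div_le_iff₀ hθ] at h2
  calc W * ((Nat.sqrt (2 * n - 1) : ℝ) + 1) ≤ W * (3 * r) :=
        mul_le_mul_of_nonneg_left (by linarith) hW
    _ = (3 * W) * r := by ring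
    _ ≤ (r * θ) * r := mul_le_mul_of_nonneg_right h5 hr0
    _ = θ * r ^ 2 := by ring
    _ = θ * n := by rw [hr]

private theorem coreap_prod {a b c d e t : ℝ} (ha : 1 ≤ a) (hb : 1 ≤ b) (hc : 1 ≤ c) (hd : 1 ≤ d)
    (he : 1 ≤ e) (h : a * b * c * d * e ≤ t) : a ≤ t ∧ b ≤ t ∧ d ≤ t ∧ b * c * e ≤ t ∧ c * e ≤ t := by
  have h1 : 1 ≤ a * d := one_le_mul_of_one_le_of_one_le ha hd
  have h2 : 1 ≤ b * c := one_le_mul_of_one_le_of_one_le hb hc
  have h3 : 1 ≤ c * e := one_le_mul_of_one_le_of_one_le hc he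
  have h4 : 1 ≤ b * c * e := one_le_mul_of_one_le_of_one_le h2 he
  have h5 : b * c * e ≤ t := by
    calc b * c * e ≤ (a * d) * (b * c * e) := le_mul_of_one_le_left (by linarith) h1
      _ = a * b * c * d * e := by ring
      _ ≤ t := h
  have h6 : c * e ≤ b * c * e := by
    calc c * e ≤ b * (c * e) := le_mul_of_one_le_left (by linarith) hb
      _ = b * c * e := by ring
  have h7 : b ≤ b * c * e := by
    calc b ≤ b * (c * e) := le_mul_of_one_le_right (by linarith) h3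
      _ = b * c * e := by ring
  have h8 : a * d ≤ t := by
    calc a * d ≤ (a * d) * (b * c * e) := le_mul_of_one_le_right (by linarith) h4
      _ = a * b * c * d * e := by ring
      _ ≤ t := h
  have h9 : a ≤ a * d := le_mul_of_one_le_right (by linarith) hd
  have h10 : d ≤ a * d := le_mul_of_one_le_left (by linarith) ha
  exact ⟨by linarith, by linarith, by linarith, h5, by linarith⟩

private theorem coreap_m1 {b σ t : ℝ} (hb : 0 ≤ b) (hσ : 1 ≤ σ) (f4 : b * σ ≤ t) :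
    4 * b * (100 * σ + 11) ≤ 444 * t := by
  calc 4 * b * (100 * σ + 11) ≤ 4 * b * (111 * σ) :=
        mul_le_mul_of_nonneg_left (by linarith) (by positivity)
    _ = 444 * (b * σ) := by ring
    _ ≤ 444 * t := by linarith

private theorem coreap_m2 {b σ h t u z : ℝ}
    (f3 : b + 1 ≤ t) (f5 : σ ≤ t) (f1 : 1 ≤ t) (hu0 : 0 ≤ u) (hh : h ≤ u)
    (hu : 200 * u + 1000 * t ≤ z) :
    40 * σ + 15 * (4 * h + 2) + 10 + b ≤ z := by
  linarith

private theorem coreap_m3 {k κ d h q y : ℝ} (hk : 1 ≤ k) (hκ : κ = 5 * k + 1) (hy : 0 ≤ y)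
    (hd : d ≤ 2 * y / 100000) (hκy : κ ≤ y / 1000000)
    (hh : h * κ ≤ y / 100000) (hq : y * (99 / 100) ≤ q) :
    κ * (d + k) + 2 * k * κ * (5 * h + 2) ≤ k * q := by
  have k0 : 0 ≤ k := by linarith
  have κ0 : 0 ≤ κ := by linarith
  have hκ6 : κ ≤ 6 * k := by linarith
  have a1 : κ * d ≤ 6 * k * (2 * y / 100000) := by
    calc κ * d ≤ κ * (2 * y / 100000) := mul_le_mul_of_nonneg_left hd κ0
      _ ≤ 6 * k * (2 * y / 100000) := mul_le_mul_of_nonneg_right hκ6 (by positivity)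
  have a2 : k * κ ≤ k * (y / 1000000) := mul_le_mul_of_nonneg_left hκy k0
  have a3 : k * (h * κ) ≤ k * (y / 100000) := mul_le_mul_of_nonneg_left hh k0
  have a4 : k * (y * (99 / 100)) ≤ k * q := mul_le_mul_of_nonneg_left hq k0
  have a5 : 0 ≤ k * y := by positivity
  have e : κ * (d + k) + 2 * k * κ * (5 * h + 2) = κ * d + k * κ + 10 * (k * (h * κ)) + 4 * (k * κ) := by
    ring
  rw [e]
  linarith

private theorem coreap_m4 {K κ d h q y z : ℝ} (hκ : 0 < κ) (hK0 : 0 ≤ K) (hK : 5 / 6 * κ ≤ K)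
    (hKκ : K ≤ κ) (hy : 0 ≤ y) (hh0 : 0 ≤ h) (hd : d ≤ 2 * y / 100000) (hκy : κ ≤ y / 1000000)
    (hh : h * κ ≤ y / 100000) (hq : y * (99 / 100) ≤ q)
    (hz : K * q ≤ κ * z + 2 * K * κ * (5 * h + 2) + κ * (5 * d + K)) : y * (8 / 10) ≤ z := by
  have b1 : 5 / 6 * κ * (y * (99 / 100)) ≤ K * q :=
    mul_le_mul hK hq (by positivity) hK0
  have b2 : K * h ≤ y / 100000 := by
    have := mul_le_mul_of_nonneg_right hKκ hh0
    linarith
  have b3 : κ * (y * (8 / 10)) ≤ κ * z := by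
    have c1 : κ * (K * h) ≤ κ * (y / 100000) := mul_le_mul_of_nonneg_left b2 hκ.le
    have c2 : κ * K ≤ κ * (y / 1000000) := mul_le_mul_of_nonneg_left (by linarith) hκ.le
    have c3 : κ * d ≤ κ * (2 * y / 100000) := mul_le_mul_of_nonneg_left hd hκ.le
    have c4 : 0 ≤ κ * y := by positivity
    have e : κ * z + 2 * K * κ * (5 * h + 2) + κ * (5 * d + K) =
        κ * z + 10 * (κ * (K * h)) + 5 * (κ * K) + 5 * (κ * d) := by ring
    rw [e] at hz
    linarith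
  exact le_of_mul_le_mul_left b3 hκ

private theorem coreap_m5 {κ s l x N z : ℝ} (hκ : 0 < κ) (hx : 0 ≤ x) (hxN : x ≤ N) (hs : 0 < s)
    (hl : 0 < l) (hκs : 500 ≤ κ * s) (hκl : 10 ≤ κ * l) (hz : κ * z ≤ x) :
    z ≤ s * N ∧ z ≤ l / 2 * N := by
  constructor
  · have e1 : κ * z ≤ κ * (s * x) := by
      have : 1 * x ≤ κ * s * x := mul_le_mul_of_nonneg_right (by linarith) hx
      linarith
    have e2 := le_of_mul_le_mul_left e1 hκ
    have e3 := mul_le_mul_of_nonneg_left hxN hs.le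
    linarith
  · have e1 : κ * z ≤ κ * (l / 2 * x) := by
      have : 2 * x ≤ κ * l * x := mul_le_mul_of_nonneg_right (by linarith) hx
      linarith
    have e2 := le_of_mul_le_mul_left e1 hκ
    have e3 : l / 2 * x ≤ l / 2 * N := mul_le_mul_of_nonneg_left hxN (by positivity)
    linarith

private theorem coreap_m6 {K κ d h s x N w : ℝ} (hK : K ≤ κ) (hh0 : 0 ≤ h) (hκ : κ ≤ s * x / 1000000)
    (hh : h * κ ≤ s * x / 100000) (hd : d ≤ w) (hw : w ≤ s * N / 1000) (hx : s * x ≤ s * N)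
    (hp : 0 ≤ s * x) : 5 * d + K + 2 * K * (5 * h + 2) ≤ s * N := by
  have b2 : K * h ≤ κ * h := mul_le_mul_of_nonneg_right hK hh0
  have e : 5 * d + K + 2 * K * (5 * h + 2) = 5 * d + 5 * K + 10 * (K * h) := by ring
  rw [e]
  linarith

private theorem coreap_m8 {s N w L c b : ℝ} (hbs : c / b ≤ s / 8) (hN : 0 ≤ N)
    (hw : w ≤ s * N / 100) (hL : L ≤ s * N / 1000) (hc : c ≤ s * N / 1000) (hp : 0 ≤ s * N) :
    2 * w + L + c * (N / b + 1) ≤ s * N := by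
  have e1 : c * (N / b + 1) = c / b * N + c := by ring
  have e2 : c / b * N ≤ s / 8 * N := mul_le_mul_of_nonneg_right hbs hN
  rw [e1]
  linarith

private theorem coreap_m9 {δ n N z : ℝ} (hN : N + 1 = 2 * n) (hδN : 100 ≤ δ * N)
    (hz : δ / 8 * N ≤ z) : 2 * (n - z) ≤ (1 - 3 * (δ / 100)) * N := by
  have e : (1 - 3 * (δ / 100)) * N = N - 3 / 100 * (δ * N) := by ring
  have e2 : δ / 8 * N = 1 / 8 * (δ * N) := by ring
  rw [e2] at hz
  rw [e]
  linarith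

private theorem coreap_kap {k κ l s δ : ℝ} (hκ : κ = 5 * k + 1) (hl : 0 < l) (hs : 0 < s) (hδ : 0 < δ)
    (hδ1 : δ ≤ 1) (hk : 1 ≤ k) (h1 : 2 / l ≤ k) (h2 : 100 / (s * δ) ≤ k) :
    10 ≤ κ * l ∧ 500 ≤ κ * s := by
  constructor
  · have e1 : 2 ≤ k * l := by rwa [div_le_iff₀ hl] at h1
    rw [hκ]
    nlinarith
  · have e1 : 100 ≤ k * (s * δ) := by rwa [div_le_iff₀ (by positivity)] at h2
    have e2 : k * (s * δ) ≤ k * s := by
      have : s * δ ≤ s * 1 := mul_le_mul_of_nonneg_left hδ1 hs.le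
      calc k * (s * δ) ≤ k * (s * 1) := mul_le_mul_of_nonneg_left this (by linarith)
        _ = k * s := by ring
    rw [hκ]
    nlinarith

private theorem coreap_four {ζ s δ γ θ : ℝ} (hθ : θ = ζ * s * δ * γ) (h1 : 0 < ζ) (h2 : 0 < s)
    (h3 : 0 < δ) (h4 : 0 < γ) (g1 : ζ ≤ 1) (g2 : s ≤ 1) (g3 : δ ≤ 1) (g4 : γ ≤ 1) :
    θ ≤ ζ ∧ θ ≤ s ∧ θ ≤ δ ∧ θ ≤ γ ∧ ζ * s * δ ≤ ζ ∧ ζ * s * δ ≤ s ∧ ζ * s * δ ≤ δ := by
  have a0 : 0 < ζ * s := by positivity
  have a1 : ζ * s ≤ ζ := mul_le_of_le_one_right h1.le g2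
  have a2 : ζ * s ≤ s := mul_le_of_le_one_left h2.le g1
  have b0 : 0 < ζ * s * δ := by positivity
  have b1 : ζ * s * δ ≤ ζ * s := mul_le_of_le_one_right a0.le g3
  have b2 : ζ * s * δ ≤ δ := mul_le_of_le_one_left h3.le (by linarith)
  have c1 : ζ * s * δ * γ ≤ ζ * s * δ := mul_le_of_le_one_right b0.le g4
  have c2 : ζ * s * δ * γ ≤ γ := mul_le_of_le_one_left h4.le (by linarith)
  rw [hθ]
  exact ⟨by linarith, by linarith, by linarith, c2, by linarith, by linarith, b2⟩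

theorem coreAP (hP : PackSt true) (hF : AbsF2) (δ : ℝ) (hδ : 0 < δ) : ∃ δ₂ : ℝ, 0 < δ₂ ∧
    ∃ γ : ℝ, 0 < γ ∧ ∀ g₀ c₁ : ℕ, ∃ b₀ : ℕ, ∀ b : ℕ, b₀ ≤ b → ∃ n₀ : ℕ,
    ∀ n : ℕ, n₀ ≤ n → ∀ par : ℕ → ℕ, IsPar n par → par 0 = 0 → 2 ≤ pdeg n par 0 →
      δ * n ≤ (((range n).filter (fun v => 2 ≤ pdeg n par v)).card : ℝ) →
      ((hosts n par).card : ℝ) ≤ δ₂ * n →
    ∀ G P : Finset ℕ, G ⊆ P → P ⊆ range n → Clo n par P → G.card ≤ g₀ →
    P.card ^ 10 ≤ n ^ 3 → (∀ v < n, v ∉ G → (pdeg n par v : ℝ) ≤ γ * n) →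
    ∀ fP : ℕ → ℕ, Nmb par P fP → (∀ v ∈ P, fP v % 2 = 1 ∧ fP v ^ 5 ≤ n ^ 2) →
      (∀ v ∈ G, fP v ≤ c₁) → (∀ v ∈ P \ G, fP v % (4 * b) = 1 ∧ b ≤ fP v) →
      SSext n par P fP := by
  classical
  obtain ⟨δ', hδ0, hδ1, hδδ⟩ : ∃ δ' : ℝ, 0 < δ' ∧ δ' ≤ 1 ∧ δ' ≤ δ :=
    ⟨min δ 1, lt_min hδ one_pos, min_le_right _ _, min_le_left _ _⟩
  obtain ⟨s₀, C, hs₀, hC, NA, hlaws⟩ := lawsA (δ' / 8) (by positivity)
  obtain ⟨s, hs, hss, hsd⟩ : ∃ s : ℝ, 0 < s ∧ s ≤ s₀ ∧ s ≤ δ' / 100 :=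
    ⟨min s₀ (δ' / 100), lt_min hs₀ (by positivity), min_le_left _ _, min_le_right _ _⟩
  have hs1 : s ≤ 1 / 100 := by linarith
  obtain ⟨ε, hε⟩ : ∃ ε : ℝ, ε = s * δ' / 1000 := ⟨_, rfl⟩
  have hε0 : 0 < ε := by rw [hε]; positivity
  have hεs : ε ≤ s / 1000 := by
    rw [hε]
    have : s * δ' ≤ s * 1 := mul_le_mul_of_nonneg_left hδ1 hs.le
    linarith
  have hεδ : ε ≤ δ' / 100000 := by
    rw [hε]
    have : s * δ' ≤ 1 / 100 * δ' := mul_le_mul_of_nonneg_right hs1 hδ0.le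
    linarith
  obtain ⟨ζ, β, hζ, hζε, hβ, hβζ, NF, habs⟩ := hF ε hε0
  have hζ1 : ζ ≤ 1 / 100000 := by linarith
  obtain ⟨l, R, N1, hl, hR, hpl⟩ := pack_late true hP 2 ζ β hζ (by push_cast; linarith) hβ
  obtain ⟨k, hk, hkl, hks⟩ : ∃ k : ℕ, 1 ≤ k ∧ 2 / l ≤ (k : ℝ) ∧ 100 / (s * δ') ≤ (k : ℝ) := by
    refine ⟨⌈2 / l⌉₊ + ⌈100 / (s * δ')⌉₊ + 1, by omega, ?_, ?_⟩
    · have := Nat.le_ceil (2 / l)
      have h2 : (0 : ℝ) ≤ ⌈100 / (s * δ')⌉₊ := Nat.cast_nonneg _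
      push_cast
      linarith
    · have := Nat.le_ceil (100 / (s * δ'))
      have h2 : (0 : ℝ) ≤ ⌈2 / l⌉₊ := Nat.cast_nonneg _
      push_cast
      linarith
  obtain ⟨K, hK⟩ : ∃ K, K = 5 * k := ⟨_, rfl⟩
  obtain ⟨γ₀, hγ₀, hpl2⟩ := hpl K C (δ' / 100) hC (by positivity)
  obtain ⟨γ, hγ, hγγ, hγ1⟩ : ∃ γ : ℝ, 0 < γ ∧ γ ≤ γ₀ ∧ γ ≤ 1 :=
    ⟨min γ₀ 1, lt_min hγ₀ one_pos, min_le_left _ _, min_le_right _ _⟩
  have hκ : (0 : ℝ) < (K : ℝ) + 1 := by positivity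
  obtain ⟨δ₂, hδ₂⟩ : ∃ δ₂ : ℝ, δ₂ = ζ * s * δ' / (200000 * ((K : ℝ) + 1) ^ 2) := ⟨_, rfl⟩
  have hδ₂0 : 0 < δ₂ := by rw [hδ₂]; positivity
  refine ⟨δ₂, hδ₂0, γ, hγ, fun g₀ c₁ => ⟨⌈8 * (c₁ : ℝ) / s⌉₊ + 1, fun b hbb => ?_⟩⟩
  have hb : 1 ≤ b := (Nat.le_add_left _ _).trans hbb
  have hbc : 8 * c₁ / s ≤ (b : ℝ) := by
    refine (Nat.le_ceil _).trans ?_
    exact_mod_cast (Nat.le_succ _).trans hbb
  obtain ⟨N2, hpack⟩ := hpl2 g₀ c₁ b hb
  obtain ⟨W, hW⟩ : ∃ W : ℝ, W = 1000000 * ((c₁ + 1) * (b + 1) * (g₀ + 1) * ((K : ℝ) + 1) ^ 2) :=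
    ⟨_, rfl⟩
  obtain ⟨θ, hθ⟩ : ∃ θ : ℝ, θ = ζ * s * δ' * γ := ⟨_, rfl⟩
  have hθ0 : 0 < θ := by rw [hθ]; positivity
  obtain ⟨n₁, hn₁⟩ := coreap_large W θ (by rw [hW]; positivity) hθ0
  refine ⟨max (max (max n₁ NA) (max NF N1)) (max N2 5), ?_⟩
  intro n hn par hpar h00 h02 hQ hhst G P hGP hPn cP hGg hPcard hGdeg fP hfP hfodd hfG hfPG
  have hn5 : 5 ≤ n := le_trans (le_trans (le_max_right _ _) (le_max_right _ _)) hn
  have hstar := hn₁ n (le_trans (le_trans (le_trans (le_max_left _ _) (le_max_left _ _))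
    (le_max_left _ _)) hn)
  obtain ⟨N, hN⟩ : ∃ N, N = 2 * n - 1 := ⟨_, rfl⟩
  rw [← hN] at hstar
  have hnN : n ≤ N := by omega
  have hNA : NA ≤ N := le_trans (le_trans (le_trans (le_trans (le_max_right _ _) (le_max_left _ _))
    (le_max_left _ _)) hn) hnN
  have hNF : NF ≤ N := le_trans (le_trans (le_trans (le_trans (le_max_left _ _) (le_max_right _ _))
    (le_max_left _ _)) hn) hnN
  have hN1 : N1 ≤ N := le_trans (le_trans (le_trans (le_trans (le_max_right _ _) (le_max_right _ _))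
    (le_max_left _ _)) hn) hnN
  have hN2 : N2 ≤ N := le_trans (le_trans (le_trans (le_max_left _ _) (le_max_right _ _)) hn) hnN
  obtain ⟨σ, hσ⟩ : ∃ σ : ℕ, σ = Nat.sqrt N + 1 := ⟨_, rfl⟩
  have hσr : (σ : ℝ) = (Nat.sqrt N : ℝ) + 1 := by rw [hσ]; push_cast; ring
  rw [← hσr] at hstar
  have hσ1 : (1 : ℝ) ≤ σ := by exact_mod_cast (by omega : 1 ≤ σ)
  obtain ⟨x, hx⟩ : ∃ x : ℝ, x = n := ⟨_, rfl⟩
  have hx5 : 5 ≤ x := by rw [hx]; exact_mod_cast hn5
  have hNx : (N : ℝ) + 1 = 2 * x := by rw [hx]; exact_mod_cast (by omega : N + 1 = 2 * n)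
  rw [← hx] at hstar
  obtain ⟨κ, hκe⟩ : ∃ κ : ℝ, κ = (K : ℝ) + 1 := ⟨_, rfl⟩
  have hKk : (K : ℝ) = 5 * k := by rw [hK]; push_cast; ring
  have hk1 : (1 : ℝ) ≤ k := by exact_mod_cast hk
  have hκk : κ = 5 * k + 1 := by rw [hκe, hKk]
  have hκ1 : 1 ≤ κ := by rw [hκk]; linarith only [hk1]
  have hκ2 : κ ≤ κ ^ 2 := by nlinarith only [hκ1]
  rw [← hκe] at hκ hδ₂ hW
  have c1nn : (0 : ℝ) ≤ c₁ := Nat.cast_nonneg _
  have bnn : (0 : ℝ) ≤ b := Nat.cast_nonneg _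
  have g0nn : (0 : ℝ) ≤ g₀ := Nat.cast_nonneg _
  obtain ⟨t, ht⟩ : ∃ t : ℝ, t = θ * x / 1000000 := ⟨_, rfl⟩
  have hP : ((c₁ : ℝ) + 1) * (b + 1) * (g₀ + 1) * κ ^ 2 * σ ≤ t := by
    rw [ht, le_div_iff₀ (by norm_num)]
    calc ((c₁ : ℝ) + 1) * (b + 1) * (g₀ + 1) * κ ^ 2 * σ * 1000000 = W * σ := by rw [hW]; ring
      _ ≤ θ * x := hstar
  obtain ⟨f1, f2, f3, f4, f5⟩ := coreap_prod (by linarith only [c1nn]) (by linarith only [bnn])
    (by linarith only [g0nn]) (by linarith only [hκ2, hκ1]) hσ1 hP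
  have ft : 1 ≤ t := by linarith only [f1, c1nn]
  have f5' : (σ : ℝ) ≤ t := by
    refine le_trans ?_ f5
    exact le_mul_of_one_le_left (by linarith only [hσ1]) (by linarith only [g0nn])
  have f4' : (b : ℝ) * σ ≤ t := by
    refine le_trans ?_ f4
    refine mul_le_mul_of_nonneg_right ?_ (by linarith only [hσ1])
    calc (b : ℝ) ≤ b + 1 := by linarith only
      _ ≤ (b + 1) * (g₀ + 1) :=
        le_mul_of_one_le_right (by linarith only [bnn]) (by linarith only [g0nn])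
  have f6 : κ ^ 2 * (σ : ℝ) ≤ t := by
    refine le_trans ?_ hP
    have e1 : (1 : ℝ) ≤ ((c₁ : ℝ) + 1) * (b + 1) * (g₀ + 1) :=
      one_le_mul_of_one_le_of_one_le (one_le_mul_of_one_le_of_one_le (by linarith only [c1nn])
        (by linarith only [bnn])) (by linarith only [g0nn])
    have e2 : 0 ≤ κ ^ 2 * (σ : ℝ) := mul_nonneg (sq_nonneg κ) (by linarith only [hσ1])
    calc κ ^ 2 * (σ : ℝ) ≤ ((c₁ : ℝ) + 1) * (b + 1) * (g₀ + 1) * (κ ^ 2 * σ) :=
          le_mul_of_one_le_left e2 e1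
      _ = ((c₁ : ℝ) + 1) * (b + 1) * (g₀ + 1) * κ ^ 2 * σ := by ring
  have hx0 : 0 < x := by linarith only [hx5]
  have hxN : x ≤ N := by linarith only [hNx, hx5]
  have hN2x : (N : ℝ) ≤ 2 * x := by linarith only [hNx]
  have hNp : (0 : ℝ) < N := by linarith only [hxN, hx0]
  have hs1' : s ≤ 1 := by linarith only [hs1]
  have hζ1' : ζ ≤ 1 := by linarith only [hζ1]
  obtain ⟨tζ, ts, tδ, tγ, r1, r2, r3⟩ := coreap_four hθ hζ hs hδ0 hγ hζ1' hs1' hδ1 hγ1
  have uζ : 1000000 * t ≤ ζ * x := by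
    have := mul_le_mul_of_nonneg_right tζ hx0.le
    linarith only [this, ht]
  have us : 1000000 * t ≤ s * x := by
    have := mul_le_mul_of_nonneg_right ts hx0.le
    linarith only [this, ht]
  have uδ : 1000000 * t ≤ δ' * x := by
    have := mul_le_mul_of_nonneg_right tδ hx0.le
    linarith only [this, ht]
  have uγ : 1000000 * t ≤ γ * x := by
    have := mul_le_mul_of_nonneg_right tγ hx0.le
    linarith only [this, ht]
  have vζ : ζ * x ≤ ζ * N := mul_le_mul_of_nonneg_left hxN hζ.le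
  have vs : s * x ≤ s * N := mul_le_mul_of_nonneg_left hxN hs.le
  have vδ : δ' * x ≤ δ' * N := mul_le_mul_of_nonneg_left hxN hδ0.le
  have vε : ε * N ≤ 2 * (ε * x) := by
    have := mul_le_mul_of_nonneg_left hN2x hε0.le
    linarith only [this]
  -- the hosts
  obtain ⟨h, hhe⟩ : ∃ h, h = (hosts n par).card + P.card := ⟨_, rfl⟩
  rw [← hx] at hhst
  have sqσ : ∀ m : ℕ, m ^ 2 ≤ n → m ≤ σ := by
    intro m hm
    have e1 : m ≤ Nat.sqrt N := Nat.le_sqrt'.2 (hm.trans hnN)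
    omega
  have hPσ : P.card ≤ σ := sqσ _ (dp_sq10 (by omega) hPcard)
  have hnn : (0 : ℝ) ≤ h := Nat.cast_nonneg _
  have hhκ : (h : ℝ) * κ ^ 2 ≤ ζ * s * δ' * x / 100000 := by
    have e1 : δ₂ * x * κ ^ 2 = ζ * s * δ' * x / 200000 := by
      rw [hδ₂]
      field_simp
    have e2 : ((hosts n par).card : ℝ) * κ ^ 2 ≤ ζ * s * δ' * x / 200000 := by
      rw [← e1]
      exact mul_le_mul_of_nonneg_right hhst (by positivity)
    have e3 : (P.card : ℝ) * κ ^ 2 ≤ t := by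
      refine le_trans ?_ f6
      rw [mul_comm]
      exact mul_le_mul_of_nonneg_left (by exact_mod_cast hPσ) (sq_nonneg κ)
    have e4 : t ≤ ζ * s * δ' * x / 1000000 := by
      have e5 : θ ≤ ζ * s * δ' := by
        rw [hθ]
        exact mul_le_of_le_one_right (by positivity) hγ1
      have e6 := mul_le_mul_of_nonneg_right e5 hx0.le
      rw [ht]
      linarith only [e6]
    have e7 : (h : ℝ) = (hosts n par).card + P.card := by
      rw [hhe]
      push_cast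
      ring
    have e8 : 0 ≤ ζ * s * δ' * x := by positivity
    rw [e7, add_mul]
    linarith only [e2, e3, e4, e8]
  have hhκ1 : (h : ℝ) * κ ≤ ζ * s * δ' * x / 100000 :=
    le_trans (mul_le_mul_of_nonneg_left hκ2 hnn) hhκ
  have hh1 : (h : ℝ) ≤ h * κ := le_mul_of_one_le_right hnn hκ1
  have w1 : ζ * s * δ' * x ≤ ζ * x := mul_le_mul_of_nonneg_right r1 hx0.le
  have w2 : ζ * s * δ' * x ≤ s * x := mul_le_mul_of_nonneg_right r2 hx0.le
  have w3 : ζ * s * δ' * x ≤ δ' * x := mul_le_mul_of_nonneg_right r3 hx0.le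
  obtain ⟨L, hL⟩ : ∃ L, L = ⌊ζ * N⌋₊ := ⟨_, rfl⟩
  have hLN : (L : ℝ) ≤ ζ * N := by
    rw [hL]
    exact Nat.floor_le (by positivity)
  have toL : ∀ y : ℕ, (y : ℝ) ≤ ζ * N → y ≤ L := by
    intro y hy
    rw [hL]
    exact Nat.le_floor hy
  obtain ⟨Qn, hQn⟩ : ∃ Qn, Qn = ((range n).filter (fun v => 2 ≤ pdeg n par v)).card := ⟨_, rfl⟩
  rw [← hQn, ← hx] at hQ
  have hQ' : δ' * x ≤ Qn := le_trans (mul_le_mul_of_nonneg_right hδδ hx0.le) hQ
  have hq99 : δ' * x * (99 / 100) ≤ (Qn : ℝ) - (4 * h + 2) := by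
    linarith only [hQ', hh1, hhκ1, w3, uδ, ft]
  have hQ4 : 4 * h + 2 ≤ Qn := by
    have : (4 : ℝ) * h + 2 ≤ Qn := by linarith only [hq99, uδ, ft]
    exact_mod_cast this
  have hqr : ((Qn - (4 * h + 2) : ℕ) : ℝ) = Qn - (4 * h + 2) := by
    rw [Nat.cast_sub hQ4]
    push_cast
    ring
  obtain ⟨hκl, hκs⟩ := coreap_kap hκk hl hs hδ0 hδ1 hk1 hkl hks
  have hbs : (c₁ : ℝ) / b ≤ s / 8 := by
    have hb0 : (0 : ℝ) < b := by exact_mod_cast hb
    rw [div_le_iff₀ hb0]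
    have e1 : 8 * (c₁ : ℝ) ≤ b * s := by rwa [div_le_iff₀ hs] at hbc
    linarith only [e1]
  have m1 : 4 * b * (100 * (Nat.sqrt N + 1) + 11) ≤ L := by
    rw [← hσ]
    apply toL
    push_cast
    have := coreap_m1 bnn hσ1 f4'
    linarith only [this, uζ, vζ, ft]
  have m2 : 40 * (Nat.sqrt N + 1) + 15 * (4 * h + 2) + 10 + b ≤ L + 1 := by
    rw [← hσ]
    have e0 : 40 * σ + 15 * (4 * h + 2) + 10 + b ≤ L := by
      apply toL
      push_cast
      refine coreap_m2 (t := t) (u := ζ * x / 100000) f2 f5' ft (by positivity) ?_ ?_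
      · linarith only [hh1, hhκ1, w1]
      · linarith only [uζ, vζ, ft]
    omega
  have hκδ : κ ≤ δ' * x / 1000000 := by linarith only [hκ2, f3, uδ]
  have hκss : κ ≤ s * x / 1000000 := by linarith only [hκ2, f3, us]
  have hd2 : ∀ d : ℕ, (d : ℝ) ≤ ε * N → (d : ℝ) ≤ 2 * (δ' * x) / 100000 := by
    intro d hd
    have e1 : ε * x ≤ δ' / 100000 * x := mul_le_mul_of_nonneg_right hεδ hx0.le
    linarith only [e1, hd, vε]
  have δx0 : 0 ≤ δ' * x := by positivity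
  have hhδ : (h : ℝ) * κ ≤ δ' * x / 100000 := by linarith only [hhκ1, w3]
  have m3 : ∀ d : ℕ, (d : ℝ) ≤ ε * N →
      (K + 1) * (d + k) + 2 * k * (K + 1) * (5 * h + 2) ≤ k * (Qn - (4 * h + 2)) := by
    intro d hd
    have goal : (((K + 1) * (d + k) + 2 * k * (K + 1) * (5 * h + 2) : ℕ) : ℝ) ≤
        ((k * (Qn - (4 * h + 2)) : ℕ) : ℝ) := by
      rw [Nat.cast_mul k, hqr]
      push_cast
      rw [← hκe]
      exact coreap_m3 hk1 hκk δx0 (hd2 d hd) hκδ hhδ hq99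
    exact_mod_cast goal
  have hK56 : 5 / 6 * κ ≤ (K : ℝ) := by rw [hκk, hKk]; linarith only [hk1]
  have hKκ : (K : ℝ) ≤ κ := by rw [hκe]; linarith only
  have m4 : ∀ d z : ℕ, (d : ℝ) ≤ ε * N → K * (Qn - (4 * h + 2)) ≤
      (K + 1) * z + 2 * K * (K + 1) * (5 * h + 2) + (K + 1) * (5 * d + K) →
      δ' / 8 * N ≤ (z : ℝ) := by
    intro d z hd hz
    have hz' : ((K * (Qn - (4 * h + 2)) : ℕ) : ℝ) ≤
        (((K + 1) * z + 2 * K * (K + 1) * (5 * h + 2) + (K + 1) * (5 * d + K) : ℕ) : ℝ) := by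
      exact_mod_cast hz
    rw [Nat.cast_mul K, hqr] at hz'
    push_cast at hz'
    rw [← hκe] at hz'
    have e1 := coreap_m4 hκ (Nat.cast_nonneg K) hK56 hKκ δx0 hnn (hd2 d hd) hκδ hhδ hq99 hz'
    have b9 : δ' * N ≤ 2 * (δ' * x) := by
      have := mul_le_mul_of_nonneg_left hN2x hδ0.le
      linarith only [this]
    linarith only [e1, b9, δx0]
  have m5 : ∀ z : ℕ, (K + 1) * z ≤ n → (z : ℝ) ≤ s * N ∧ (z : ℝ) ≤ l / 2 * N := by
    intro z hz
    have hz' : κ * z ≤ x := by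
      rw [hκe, hx]
      exact_mod_cast hz
    exact coreap_m5 hκ hx0.le hxN hs hl hκs hκl hz'
  have vεs : ε * N ≤ s * N / 1000 := by
    have := mul_le_mul_of_nonneg_right hεs hNp.le
    linarith only [this]
  have sx0 : 0 ≤ s * x := by positivity
  have m6 : ∀ d : ℕ, (d : ℝ) ≤ ε * N → ((5 * d + K + 2 * K * (5 * h + 2) : ℕ) : ℝ) ≤ s * N := by
    intro d hd
    push_cast
    exact coreap_m6 hKκ hnn hκss (by linarith only [hhκ1, w2]) hd vεs vs sx0
  have vβ : β * N ≤ ε * N := mul_le_mul_of_nonneg_right (by linarith only [hβζ, hζε]) hNp.le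
  have m7 : ε * N + β * N + (8 * h + 4) + 2 * (ε * N) ≤ s * N / 100 := by
    linarith only [vβ, vεs, hh1, hhκ1, w2, us, vs, ft]
  have vζε : ζ * N ≤ ε * N := mul_le_mul_of_nonneg_right hζε hNp.le
  have sN0 : 0 ≤ s * (N : ℝ) := by positivity
  have m8 : 2 * (ε * N + β * N + (8 * h + 4) + 2 * (ε * N)) + L + c₁ * (N / b + 1) ≤ s * N :=
    coreap_m8 hbs hNp.le m7 (by linarith only [hLN, vζε, vεs])
      (by linarith only [f1, us, vs, ft]) sN0
  have m9 : ∀ z : ℝ, δ' / 8 * N ≤ z → 2 * (n - z) ≤ (1 - 3 * (δ' / 100)) * N := by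
    intro z hz
    rw [← hx]
    exact coreap_m9 hNx (by linarith only [uδ, vδ, ft]) hz
  have m11 : ∀ v ∈ P, fP v ≤ L := by
    intro v hv
    have e1 : (fP v : ℝ) ≤ σ := by exact_mod_cast sqσ _ (dp_sq5 (hfodd v hv).2)
    exact toL _ (by linarith only [e1, f5', uζ, vζ, ft])
  have m12 : (b : ℝ) ≤ ζ * N := by linarith only [f2, uζ, vζ, ft]
  have m13 : ε * N + β * N + (8 * h + 4) + 2 * (ε * N) ≤ s * N := by linarith only [m7, sN0]
  exact coreap_one (s₀ := s₀) (s := s) (ζ := ζ) (β := β) (ε := ε) (l := l) (γ := γ) (γ₀ := γ₀)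
    (p₀ := δ' / 100) (C := C) (δ := δ') (k := k) (K := K) (g₀ := g₀) (c₁ := c₁) (b := b) (L := L)
    (R := R N) hpar h02 (by omega) hN (by omega) hGP hPn cP hGg (by rw [← hσ]; exact hPσ) hGdeg
    hfP.1 hfP.2 m11 hfG hfPG hhe hQn (hR N hN1).1 (hR N hN1).2
    (fun H B Z Q Zc f₀ Dom => hlaws n N par H B Z Q Zc f₀ Dom hNA)
    (fun F₀ hF₀ => habs N hNF (R N) F₀ (hR N hN1).1 (hR N hN1).2 hF₀)
    (fun G B Z Q T f₀ Dom mu kr h1 h2 h3 h4 h5 h6 h7 h8 =>
      (hpack N hN2 n par G B Z Q T f₀ Dom mu kr h1 h2 h3 h4 h5 h6 h7 h8).1)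
    hK hk hγ hγγ hb hLN m12 hζ1' hβ.le m1 m2 m3 m4 m5 m6 m13 m8 m9 hss hsd

end SSB
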