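import Pool.Agent.Lib.MP_8a819d_co.DP.NumP
import Pool.Agent.Lib.MP_8a819d_co.DP.AbsFinP
import Pool.Agent.Lib.MP_8a819d_co.DP.PBase
import Pool.Agent.Lib.MP_8a819d_co.AT.LawsB
import Pool.Agent.Lib.MP_8a819d_co.AT.PackLate
import Pool.Agent.Lib.MP_8a819d_co.AT.ParH

/-!
# MP_8a819d_co, trees with many non-leaves, many hosts, with a prescribed closed set

This is `CoreB.lean` with a prescribed closed set `P`: `G ⊆ P ⊆ M₁ ⊆ M ⊆ H ⊆ B`, `M₁` = closure of `P ∪ {v : N < (pdeg v)²}`, `numP` instead of `numB`.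
The final numbering agrees with `f₀` on `B`, so with the given numbering on `P`.
-/

set_option autoImplicit false

namespace SSB

open Finset

section Sets

variable {n D L : ℕ} {par : ℕ → ℕ} {H M U : Finset ℕ} {hs lf : ℕ → ℕ}

private lemma cbp_U (h : SelBP n D L par H M hs) (hU : U ⊆ (range L).image hs) {u : ℕ}
    (hu : u ∈ U) : 1 ≤ u ∧ u < n ∧ u ∉ H := by
  have h1 := disjoint_left.1 (U_H h hU) hu
  refine ⟨?_, mem_range.1 (U_sub h hU hu), h1⟩
  rcases Nat.eq_zero_or_pos u with h0 | h0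
  · rw [h0] at h1; exact absurd h.H0 h1
  · exact h0

private lemma cbp_lf (h : SelBP n D L par H M hs) (hU : U ⊆ (range L).image hs) :
    ∃ lf : ℕ → ℕ, ∀ u ∈ U, lf u ∈ chs n par u ∧ chs n par (lf u) = ∅ := by
  have h1 : ∀ u ∈ U, ∃ c, c ∈ chs n par u ∧ chs n par c = ∅ := by
    intro u hu
    obtain ⟨i, hi, rfl⟩ := mem_image.1 (hU hu)
    obtain ⟨c, hc, hc'⟩ := h.leaf i (mem_range.1 hi)
    exact ⟨c, hc, hc'⟩
  choose! lf hlf using h1
  exact ⟨lf, hlf⟩

private lemma cbp_O_card : (OO par H U).card ≤ U.card :=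
  (card_filter_le _ _).trans card_image_le

private lemma cbp_O_H {o : ℕ} (ho : o ∈ OO par H U) : o ∉ H := (mem_filter.1 ho).2.1

private lemma cbp_B_card : (H ∪ U ∪ OO par H U).card ≤ H.card + 2 * U.card := by
  have h1 := card_union_le (H ∪ U) (OO par H U)
  have h2 := card_union_le H U
  have h3 : (OO par H U).card ≤ U.card := cbp_O_card
  omega

private lemma cbp_B_sub (hpar : IsPar n par) (h : SelBP n D L par H M hs)
    (hU : U ⊆ (range L).image hs) : H ∪ U ∪ OO par H U ⊆ range n :=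
  union_subset (union_subset h.Hsub (U_sub h hU)) (O_sub hpar h hU)

private lemma cbp_Lam (hpar : IsPar n par) (h : SelBP n D L par H M hs)
    (hU : U ⊆ (range L).image hs) (hlf : ∀ u ∈ U, lf u ∈ chs n par u ∧ chs n par (lf u) = ∅)
    {v : ℕ} (hv : v ∈ U.image lf) : 1 ≤ v ∧ v < n ∧ par v ∈ U ∧ chs n par v = ∅ ∧
      pdeg n par v = 1 ∧ v ∉ H ∪ U ∪ OO par H U := by
  obtain ⟨u, hu, rfl⟩ := mem_image.1 hv
  obtain ⟨h1, h2⟩ := hlf u hu
  have h3 := leaf_B hpar h hU hu h1 h2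
  unfold chs at h1
  obtain ⟨h4, h5, h6⟩ := mem_filter.1 h1
  refine ⟨h5, mem_range.1 h4, h6.symm ▸ hu, h2, ?_, h3⟩
  unfold pdeg
  rw [h2, card_empty, if_neg (by omega)]

private lemma cbp_lf_inj (hlf : ∀ u ∈ U, lf u ∈ chs n par u ∧ chs n par (lf u) = ∅) :
    Set.InjOn lf U := by
  intro u hu w hw huw
  have h1 := (mem_filter.1 (hlf u hu).1).2.2
  have h2 := (mem_filter.1 (hlf w hw).1).2.2
  rw [← h1, ← h2, huw]

/-- the neighbours of `x` -/
private def cbpn (n : ℕ) (par : ℕ → ℕ) (x : ℕ) : Finset ℕ :=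
  chs n par x ∪ (if x = 0 then ∅ else {par x})

private lemma cbpn_card (x : ℕ) : (cbpn n par x).card ≤ pdeg n par x := by
  unfold cbpn pdeg
  refine (card_union_le _ _).trans (Nat.add_le_add le_rfl ?_)
  split_ifs <;> simp

private lemma cbpn_mem {B : Finset ℕ} {v x : ℕ} (h : x ∈ bnb n par B v) : v ∈ cbpn n par x := by
  unfold bnb at h
  unfold cbpn
  obtain ⟨_, h1⟩ := mem_filter.1 h
  rcases h1 with ⟨h2, h3, h4⟩ | ⟨h2, h3, h4⟩
  · refine mem_union_left _ ?_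
    unfold chs
    exact mem_filter.2 ⟨mem_range.2 h3, h2, h4⟩
  · refine mem_union_right _ ?_
    rw [if_neg (by omega), mem_singleton, h4]

private lemma cbp_zdg {B Z : Finset ℕ} (x : ℕ) : zdg n par B Z x ≤ pdeg n par x := by
  refine le_trans (card_le_card ?_) (cbpn_card x)
  intro v hv
  exact cbpn_mem (mem_filter.1 hv).2

private lemma cbp_irr (hpar : IsPar n par) (h : SelBP n D L par H M hs)
    (hU : U ⊆ (range L).image hs) (Z : Finset ℕ) :
    (Z.filter (fun v => (bnb n par (H ∪ U ∪ OO par H U) v).Nonempty ∧ par v ∉ H)).card ≤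
      H.card + 2 * U.card * D := by
  have h1 : Z.filter (fun v => (bnb n par (H ∪ U ∪ OO par H U) v).Nonempty ∧ par v ∉ H) ⊆
      H.image par ∪ (U ∪ OO par H U).biUnion (fun x => cbpn n par x) := by
    intro v hv
    obtain ⟨_, ⟨x, hx⟩, hp⟩ := mem_filter.1 hv
    have h2 := hx
    unfold bnb at h2
    obtain ⟨h3, h4⟩ := mem_filter.1 h2
    by_cases hxH : x ∈ H
    · refine mem_union_left _ (mem_image.2 ⟨x, hxH, ?_⟩)
      rcases h4 with ⟨_, _, h5⟩ | ⟨_, _, h5⟩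
      · exact absurd (h5 ▸ hxH) hp
      · exact h5
    · refine mem_union_right _ (mem_biUnion.2 ⟨x, ?_, cbpn_mem hx⟩)
      rcases mem_union.1 h3 with h5 | h5
      · rcases mem_union.1 h5 with h6 | h6
        · exact absurd h6 hxH
        · exact mem_union_left _ h6
      · exact mem_union_right _ h5
  refine (card_le_card h1).trans ((card_union_le _ _).trans (Nat.add_le_add card_image_le ?_))
  refine card_biUnion_le.trans ?_
  calc ∑ x ∈ U ∪ OO par H U, (cbpn n par x).card ≤ ∑ x ∈ U ∪ OO par H U, D := by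
        refine sum_le_sum fun x hx => (cbpn_card x).trans ?_
        rcases mem_union.1 hx with h5 | h5
        · obtain ⟨h6, h7, h8⟩ := cbp_U h hU h5
          exact h.Hdeg x h7 h8
        · exact h.Hdeg x (mem_range.1 (O_sub hpar h hU h5)) (cbp_O_H h5)
    _ = (U ∪ OO par H U).card * D := by rw [sum_const, smul_eq_mul]
    _ ≤ 2 * U.card * D := by
        refine Nat.mul_le_mul_right D ?_
        have h5 := card_union_le U (OO par H U)
        have h6 : (OO par H U).card ≤ U.card := cbp_O_card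
        omega

private lemma cbp_flex {W Z : Finset ℕ} (hZ : Z = range n \ W) :
    (hosts n par).card ≤
      (Z.filter (fun u => ∃ c ∈ Z, par c = u ∧ chs n par c = ∅)).card + 2 * W.card := by
  have h1 : ∀ u ∈ hosts n par, ∃ c, c ∈ chs n par u ∧ chs n par c = ∅ := by
    intro u hu
    unfold hosts at hu
    obtain ⟨_, c, hc, hc'⟩ := mem_filter.1 hu
    exact ⟨c, hc, hc'⟩
  choose! c hc hc' using h1
  have hpc : ∀ u ∈ hosts n par, par (c u) = u ∧ c u < n := fun u hu => by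
    have h2 := hc u hu
    unfold chs at h2
    exact ⟨(mem_filter.1 h2).2.2, mem_range.1 (mem_filter.1 h2).1⟩
  have h2 : hosts n par ⊆ Z.filter (fun u => ∃ c ∈ Z, par c = u ∧ chs n par c = ∅) ∪
      (W ∪ (hosts n par).filter (fun u => c u ∈ W)) := by
    intro u hu
    have hun : u < n := by
      have h3 := hu
      unfold hosts at h3
      exact mem_range.1 (mem_filter.1 h3).1
    by_cases h3 : u ∈ W
    · exact mem_union_right _ (mem_union_left _ h3)
    · by_cases h4 : c u ∈ W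
      · exact mem_union_right _ (mem_union_right _ (mem_filter.2 ⟨hu, h4⟩))
      · refine mem_union_left _ (mem_filter.2 ⟨?_, c u, ?_, (hpc u hu).1, hc' u hu⟩)
        · rw [hZ]; exact mem_sdiff.2 ⟨mem_range.2 hun, h3⟩
        · rw [hZ]; exact mem_sdiff.2 ⟨mem_range.2 (hpc u hu).2, h4⟩
  have h3 : ((hosts n par).filter (fun u => c u ∈ W)).card ≤ W.card := by
    refine card_le_card_of_injOn c (fun u hu => (mem_filter.1 hu).2) ?_
    intro u hu w hw huw
    have h4 := (hpc u (mem_filter.1 hu).1).1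
    have h5 := (hpc w (mem_filter.1 hw).1).1
    rw [← h4, ← h5, huw]
  have h4 := card_le_card h2
  have h5 := card_union_le (Z.filter (fun u => ∃ c ∈ Z, par c = u ∧ chs n par c = ∅))
    (W ∪ (hosts n par).filter (fun u => c u ∈ W))
  have h6 := card_union_le W ((hosts n par).filter (fun u => c u ∈ W))
  omega

private lemma cbp_few {Z G : Finset ℕ} (hZ : Z ⊆ range n) (hG : Disjoint G Z) :
    (Z.filter (fun v => par v ∈ G)).card +
      (Z.filter (fun u => ∃ c ∈ Z, par c = u ∧ chs n par c = ∅)).card ≤ n := by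
  set F := Z.filter (fun u => ∃ c ∈ Z, par c = u ∧ chs n par c = ∅) with hF
  have h1 : ∀ u ∈ F, ∃ c, c ∈ Z ∧ par c = u := by
    intro u hu
    obtain ⟨_, c, hc, hc', _⟩ := mem_filter.1 hu
    exact ⟨c, hc, hc'⟩
  choose! c hc hc' using h1
  have h2 : F.card = (F.image c).card := by
    refine (card_image_of_injOn ?_).symm
    intro u hu w hw huw
    rw [← hc' u hu, ← hc' w hw, huw]
  have h3 : Disjoint (Z.filter (fun v => par v ∈ G)) (F.image c) := by
    rw [disjoint_left]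
    intro v hv hv'
    obtain ⟨u, hu, rfl⟩ := mem_image.1 hv'
    have h4 := (mem_filter.1 hv).2
    rw [hc' u hu] at h4
    exact disjoint_left.1 hG h4 (mem_filter.1 hu).1
  rw [h2, ← card_union_of_disjoint h3]
  have h4 : Z.filter (fun v => par v ∈ G) ∪ F.image c ⊆ range n := by
    refine union_subset ((filter_subset _ _).trans hZ) ?_
    intro v hv
    obtain ⟨u, hu, rfl⟩ := mem_image.1 hv
    exact hZ (hc u hu)
  have h5 := card_le_card h4
  rwa [card_range] at h5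

end Sets

/-- the admissible labels at a vertex of `B` with the label `a` -/
private lemma cbp_dom {N a : ℕ} {Q : Finset ℕ} (hQ : Q ⊆ Icc 1 N) :
    N ≤ (Q.filter (fun y => a < y ∧ y - a ∈ Q)).card + a + 2 * (N - Q.card) := by
  have h1 : Icc 1 N ⊆ (Q.filter (fun y => a < y ∧ y - a ∈ Q)) ∪ (Icc 1 a ∪
      ((Icc 1 N \ Q) ∪ (Icc 1 N \ Q).image (fun x => x + a))) := by
    intro y hy
    obtain ⟨hy1, hy2⟩ := mem_Icc.1 hy
    by_cases h2 : y ≤ a
    · exact mem_union_right _ (mem_union_left _ (mem_Icc.2 ⟨hy1, h2⟩))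
    · by_cases h3 : y ∈ Q
      · by_cases h4 : y - a ∈ Q
        · exact mem_union_left _ (mem_filter.2 ⟨h3, by omega, h4⟩)
        · refine mem_union_right _ (mem_union_right _ (mem_union_right _ (mem_image.2
            ⟨y - a, mem_sdiff.2 ⟨mem_Icc.2 ⟨by omega, by omega⟩, h4⟩, by omega⟩)))
      · exact mem_union_right _ (mem_union_right _ (mem_union_left _ (mem_sdiff.2 ⟨hy, h3⟩)))
  have h2 := card_le_card h1
  have h3 := card_union_le (Q.filter (fun y => a < y ∧ y - a ∈ Q)) (Icc 1 a ∪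
      ((Icc 1 N \ Q) ∪ (Icc 1 N \ Q).image (fun x => x + a)))
  have h4 := card_union_le (Icc 1 a) ((Icc 1 N \ Q) ∪ (Icc 1 N \ Q).image (fun x => x + a))
  have h5 := card_union_le (Icc 1 N \ Q) ((Icc 1 N \ Q).image (fun x => x + a))
  have h6 : ((Icc 1 N \ Q).image (fun x => x + a)).card ≤ (Icc 1 N \ Q).card := card_image_le
  have h7 : (Icc 1 N \ Q).card = N - Q.card := by
    rw [card_sdiff_of_subset hQ, Nat.card_Icc]
    rfl
  rw [Nat.card_Icc] at h2 h4
  omega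

private lemma cbp_dom_mod {N a b : ℕ} (hb : 1 ≤ b) {Q : Finset ℕ} (hQ : Q ⊆ Icc 1 N) :
    N ≤ (Q.filter (fun y => a < y ∧ y - a ∈ Q ∧ a ≤ y % b)).card + a + 2 * (N - Q.card) +
      a * (N / b + 1) := by
  have h1 := cbp_dom (a := a) hQ
  have h2 : Q.filter (fun y => a < y ∧ y - a ∈ Q) ⊆
      Q.filter (fun y => a < y ∧ y - a ∈ Q ∧ a ≤ y % b) ∪
        ((range a ×ˢ range (N / b + 1)).image (fun p => p.2 * b + p.1)) := by
    intro y hy
    obtain ⟨h3, h4, h5⟩ := mem_filter.1 hy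
    by_cases h6 : a ≤ y % b
    · exact mem_union_left _ (mem_filter.2 ⟨h3, h4, h5, h6⟩)
    · refine mem_union_right _ (mem_image.2 ⟨(y % b, y / b), ?_, ?_⟩)
      · refine mem_product.2 ⟨mem_range.2 (not_le.1 h6), mem_range.2 (Nat.lt_succ_iff.2 ?_)⟩
        exact Nat.div_le_div_right (mem_Icc.1 (hQ h3)).2
      · simp only
        have := Nat.div_add_mod y b
        rw [mul_comm] at this
        exact this
  have h3 := card_le_card h2
  have h4 := card_union_le (Q.filter (fun y => a < y ∧ y - a ∈ Q ∧ a ≤ y % b))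
    ((range a ×ˢ range (N / b + 1)).image (fun p => p.2 * b + p.1))
  have h5 : ((range a ×ˢ range (N / b + 1)).image (fun p => p.2 * b + p.1)).card ≤
      a * (N / b + 1) := by
    refine card_image_le.trans ?_
    rw [card_product, card_range, card_range]
  omega

/-- counting -/
private lemma cbp_count {n N : ℕ} {par : ℕ → ℕ} (hpar : IsPar n par) (hn : 1 ≤ n)
    (hN : N = 2 * n - 1) {B Z Λ A Rn Q : Finset ℕ} {f₀ : ℕ → ℕ} (hB : B ⊆ range n)
    (hZ : Z ⊆ range n) (hd : Disjoint B Z) (h0 : 0 ∉ Z) (hΛ : Λ ⊆ range n) (hBΛ : Disjoint B Λ)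
    (hZΛ : Disjoint Z Λ)
    (hv : ∀ v ∈ Λ, 1 ≤ v ∧ pdeg n par v = 1 ∧ par v ∉ Λ ∧ ∀ c ∈ chs n par v, c ∉ Λ)
    {β : ℝ} (hA : (A.card : ℝ) + 2 * β * N ≤ 2 * Λ.card) (hR : (Rn.card : ℝ) ≤ β * N)
    (hβ : 0 ≤ β)
    (hQ : Q = Icc 1 N \ (A ∪ Rn ∪ (items par B).image (val par f₀))) :
    ∑ v ∈ Z, (1 + (bnb n par B v).card + (if par v ∈ Z then 1 else 0)) ≤ Q.card := by
  have h1 := items_card hpar hB hZ hd h0
  have h2 : items par (B ∪ Z) ⊆ items par (range n \ Λ) := by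
    refine items_mono (union_subset ?_ ?_)
    · intro x hx
      exact mem_sdiff.2 ⟨hB hx, disjoint_left.1 hBΛ hx⟩
    · intro x hx
      exact mem_sdiff.2 ⟨hZ hx, disjoint_left.1 hZΛ hx⟩
  have h3 := card_le_card h2
  have h4 := items_rm hpar hn hΛ hv
  have h5 : N ≤ Q.card + (A.card + Rn.card + (items par B).card) := by
    have h6 : Icc 1 N ⊆ Q ∪ (A ∪ Rn ∪ (items par B).image (val par f₀)) := by
      intro x hx
      by_cases h7 : x ∈ A ∪ Rn ∪ (items par B).image (val par f₀)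
      · exact mem_union_right _ h7
      · refine mem_union_left _ ?_
        rw [hQ]
        exact mem_sdiff.2 ⟨hx, h7⟩
    have h7 := card_le_card h6
    rw [Nat.card_Icc] at h7
    have h8 := card_union_le Q (A ∪ Rn ∪ (items par B).image (val par f₀))
    have h9 := card_union_le (A ∪ Rn) ((items par B).image (val par f₀))
    have h10 := card_union_le A Rn
    have h11 : ((items par B).image (val par f₀)).card ≤ (items par B).card := card_image_le
    omega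
  have h6 : (A.card : ℝ) + Rn.card ≤ 2 * Λ.card := by
    have : 0 ≤ β * N := by positivity
    linarith
  have h7 : A.card + Rn.card ≤ 2 * Λ.card := by exact_mod_cast h6
  omega

/-! ### The giants -/

private lemma cbp_M1 {n N : ℕ} {par : ℕ → ℕ} (hpar : IsPar n par) (hn : 1 ≤ n) (hnN : n ≤ N)
    {G : Finset ℕ} (hG : G ⊆ range n) :
    ∃ M₁ : Finset ℕ, G ⊆ M₁ ∧ M₁ ⊆ range n ∧ Clo n par M₁ ∧
      (∀ v < n, N < pdeg n par v ^ 2 → v ∈ M₁) ∧
      (M₁.card : ℝ) ≤ 2 * G.card + 4 * Real.sqrt N := by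
  set V := (range n).filter (fun v => N < pdeg n par v ^ 2) with hV
  obtain ⟨M₁, h1, h2, h3, h4, -⟩ := clo_exists hpar (G ∪ V) (union_subset hG (filter_subset _ _))
  refine ⟨M₁, subset_union_left.trans h1, h2, h3, ?_, ?_⟩
  · intro v hv hv'
    exact h1 (mem_union_right _ (mem_filter.2 ⟨mem_range.2 hv, hv'⟩))
  · have h5 := high_card (D := Nat.sqrt N + 1) hpar hn
    have h6 : V ⊆ (range n).filter (fun v => Nat.sqrt N + 1 ≤ pdeg n par v) := by
      intro v hv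
      obtain ⟨h7, h8⟩ := mem_filter.1 hv
      exact mem_filter.2 ⟨h7, Nat.sqrt_lt'.2 h8⟩
    have h7 : (Nat.sqrt N + 1) * V.card ≤ 2 * n :=
      (Nat.mul_le_mul_left _ (card_le_card h6)).trans h5
    have h8 : Real.sqrt N ≤ (Nat.sqrt N : ℝ) + 1 := Real.real_sqrt_le_nat_sqrt_succ
    have hN0 : (0 : ℝ) < N := by exact_mod_cast (lt_of_lt_of_le hn hnN)
    have h9 : 0 < Real.sqrt N := Real.sqrt_pos.2 hN0
    have h10 : Real.sqrt N * V.card ≤ 2 * N := by
      have h11 : ((Nat.sqrt N : ℝ) + 1) * V.card ≤ 2 * n := by exact_mod_cast h7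
      have h12 : (n : ℝ) ≤ N := by exact_mod_cast hnN
      calc Real.sqrt N * V.card ≤ ((Nat.sqrt N : ℝ) + 1) * V.card := by gcongr
        _ ≤ 2 * n := h11
        _ ≤ 2 * N := by linarith
    have h11 : (V.card : ℝ) ≤ 2 * Real.sqrt N := by
      have h12 : Real.sqrt N * V.card ≤ Real.sqrt N * (2 * Real.sqrt N) := by
        calc Real.sqrt N * V.card ≤ 2 * N := h10
          _ = 2 * (Real.sqrt N * Real.sqrt N) := by rw [Real.mul_self_sqrt hN0.le]
          _ = _ := by ring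
      exact le_of_mul_le_mul_left h12 h9
    have h12 : M₁.card ≤ 2 * G.card + 2 * V.card := by
      have := card_union_le G V
      omega
    have h13 : (M₁.card : ℝ) ≤ 2 * G.card + 2 * V.card := by exact_mod_cast h12
    linarith

private lemma cbp_ev (a κ : ℝ) (hκ : 0 < κ) :
    ∃ N₀ : ℕ, ∀ N : ℕ, N₀ ≤ N → 2 * a + 4 * Real.sqrt N ≤ κ * N := by
  refine ⟨⌈(8 / κ) ^ 2⌉₊ + ⌈4 * a / κ⌉₊, fun N hN => ?_⟩
  have h1 : ((8 / κ) ^ 2 : ℝ) ≤ N :=
    (Nat.le_ceil _).trans (by exact_mod_cast (le_trans (Nat.le_add_right _ _) hN))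
  have h2 : 4 * a / κ ≤ N :=
    (Nat.le_ceil _).trans (by exact_mod_cast (le_trans (Nat.le_add_left _ _) hN))
  have h3 : 8 / κ ≤ Real.sqrt N := Real.le_sqrt_of_sq_le h1
  rw [div_le_iff₀ hκ] at h2 h3
  have h4 : Real.sqrt N * Real.sqrt N = N := Real.mul_self_sqrt (Nat.cast_nonneg N)
  have h5 : 0 ≤ Real.sqrt N := Real.sqrt_nonneg _
  nlinarith

/-! ### The configuration -/

private structure CBdP (e : Bool) (n N D L K g₀ c₁ b : ℕ) (par hs f₀ lf : ℕ → ℕ)
    (G M₁ H M A U Rn B Λ Q : Finset ℕ) (s sL η ε δ₂ β l γ₀ ζ : ℝ) : Prop where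
  isP : IsPar n par
  n1 : 1 ≤ n
  hN : N = 2 * n - 1
  s0 : 0 < s
  hsL : s ≤ sL
  sδ : s ≤ δ₂ / 100
  δ0 : 0 < δ₂
  δ1 : δ₂ ≤ 1
  hη : η = s / 16
  ε0 : 0 < ε
  εη : ε ≤ η / 1000
  εD : ε * (1000 * (D + 1)) ≤ η * δ₂
  β0 : 0 < β
  βε : β ≤ ε
  ζ0 : 0 ≤ ζ
  hD : 10 ^ 5 ≤ η * δ₂ * D
  hK : 8 ≤ l * K
  hK' : 100 ≤ δ₂ * K
  l0 : 0 < l
  hb : 8 * (c₁ : ℝ) ≤ s * b
  b1 : 1 ≤ b
  Nc : (c₁ : ℝ) ≤ η * N
  Nδ : 200 ≤ δ₂ * N
  Nl : 8 ≤ l * N
  hB : B = H ∪ U ∪ OO par H U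
  hΛ : Λ = U.image lf
  hlf : ∀ u ∈ U, lf u ∈ chs n par u ∧ chs n par (lf u) = ∅
  hQ : Q = Icc 1 N \ (A ∪ Rn ∪ (items par B).image (val par f₀))
  sel : SelBP n D L par H M hs
  Hc : (H.card : ℝ) ≤ 50 * n / D
  hho : δ₂ * n ≤ ((hosts n par).card : ℝ)
  GM : G ⊆ M₁
  MM : M₁ ⊆ M
  Gc : G.card ≤ g₀
  eG : e = false → G = ∅
  Gdeg : ∀ v < n, v ∉ G → (pdeg n par v : ℝ) ≤ γ₀ * N
  M₁big : ∀ v < n, N < pdeg n par v ^ 2 → v ∈ M₁
  hR : ∀ x ∈ Rn, ζ * N < x ∧ x ≤ N
  Rc : (Rn.card : ℝ) ≤ β * N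
  hU : U ⊆ (range L).image hs
  hA : A ⊆ Icc 1 N
  AR : Disjoint A Rn
  Ac : (A.card : ℝ) ≤ 2 * ε * N
  Uc : (U.card : ℝ) ≤ ε * N
  AU : (A.card : ℝ) + 2 * β * N ≤ 2 * U.card
  inj : Set.InjOn (val par f₀) (items par B)
  hval : ∀ x ∈ items par B,
    1 ≤ val par f₀ x ∧ val par f₀ x ≤ N ∧ val par f₀ x ∉ A ∧ val par f₀ x ∉ Rn
  fH : ∀ h ∈ H, f₀ h % 2 = 1 ∧ (f₀ h : ℝ) ≤ η * N
  fG : ∀ g ∈ G, f₀ g ≤ c₁
  fM : ∀ x ∈ M₁ \ G, f₀ x % (4 * b) = 1
  fb : ∀ x ∈ B \ G, b ≤ f₀ x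

section Core

variable {e : Bool} {n N D L K g₀ c₁ b : ℕ} {par hs f₀ lf : ℕ → ℕ}
  {G M₁ H M A U Rn B Λ Q : Finset ℕ} {s sL η ε δ₂ β l γ₀ ζ : ℝ}

private lemma CBdP.nN (h : CBdP e n N D L K g₀ c₁ b par hs f₀ lf G M₁ H M A U Rn B Λ Q s sL η ε δ₂ β l
    γ₀ ζ) : n ≤ N ∧ (n : ℝ) ≤ N ∧ (N : ℝ) ≤ 2 * n ∧ 2 * (n : ℝ) = N + 1 ∧ (0 : ℝ) < N := by
  have h1 := h.n1
  have h2 := h.hN
  have h3 : 2 * n = N + 1 := by omega
  have h4 : n ≤ N := by omega
  have h5 : 2 * (n : ℝ) = N + 1 := by exact_mod_cast h3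
  have h6 : (n : ℝ) ≤ N := by exact_mod_cast h4
  have h7 : (1 : ℝ) ≤ n := by exact_mod_cast h1
  exact ⟨h4, h6, by linarith, h5, by linarith⟩

private lemma CBdP.Hle (h : CBdP e n N D L K g₀ c₁ b par hs f₀ lf G M₁ H M A U Rn B Λ Q s sL η ε δ₂ β l
    γ₀ ζ) : (H.card : ℝ) ≤ η * δ₂ / 2000 * n := by
  have hη0 : 0 < η := by rw [h.hη]; have := h.s0; positivity
  have hD := h.hD
  have hD0 : (0 : ℝ) < D := by
    by_contra h1
    have h2 : (D : ℝ) ≤ 0 := not_lt.1 h1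
    have h3 : η * δ₂ * D ≤ 0 := mul_nonpos_of_nonneg_of_nonpos (mul_nonneg hη0.le h.δ0.le) h2
    linarith
  refine h.Hc.trans ?_
  rw [div_le_iff₀ hD0]
  have hn : (0 : ℝ) ≤ n := Nat.cast_nonneg n
  nlinarith

private lemma CBdP.Qle (h : CBdP e n N D L K g₀ c₁ b par hs f₀ lf G M₁ H M A U Rn B Λ Q s sL η ε δ₂ β l
    γ₀ ζ) : Q ⊆ Icc 1 N ∧ Q.card ≤ N ∧ (N : ℝ) - Q.card ≤ 8 * η / 1000 * N := by
  have hQs : Q ⊆ Icc 1 N := by rw [h.hQ]; exact sdiff_subset
  have hQc : Q.card ≤ N := by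
    have h1 := card_le_card hQs
    rw [Nat.card_Icc] at h1
    omega
  refine ⟨hQs, hQc, ?_⟩
  have h1 : N ≤ Q.card + (A.card + Rn.card + (items par B).card) := by
    have h6 : Icc 1 N ⊆ Q ∪ (A ∪ Rn ∪ (items par B).image (val par f₀)) := by
      intro x hx
      by_cases h7 : x ∈ A ∪ Rn ∪ (items par B).image (val par f₀)
      · exact mem_union_right _ h7
      · refine mem_union_left _ ?_
        rw [h.hQ]
        exact mem_sdiff.2 ⟨hx, h7⟩
    have h7 := card_le_card h6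
    rw [Nat.card_Icc] at h7
    have h8 := card_union_le Q (A ∪ Rn ∪ (items par B).image (val par f₀))
    have h9 := card_union_le (A ∪ Rn) ((items par B).image (val par f₀))
    have h10 := card_union_le A Rn
    have h11 : ((items par B).image (val par f₀)).card ≤ (items par B).card := card_image_le
    omega
  have h2 := items_le par B
  have h3 : B.card ≤ H.card + 2 * U.card := by rw [h.hB]; exact cbp_B_card
  have h4 : N ≤ Q.card + (A.card + Rn.card + 2 * (H.card + 2 * U.card)) := by omega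
  have h5 : (N : ℝ) ≤ Q.card + (A.card + Rn.card + 2 * (H.card + 2 * U.card)) := by
    exact_mod_cast h4
  have h6 := h.Hle
  have h7 := h.Ac
  have h8 := h.Rc
  have h9 := h.Uc
  obtain ⟨-, hnN, -, -, hN0⟩ := h.nN
  have hη0 : 0 < η := by rw [h.hη]; have := h.s0; positivity
  have h10 : β * N ≤ ε * N := mul_le_mul_of_nonneg_right h.βε hN0.le
  have h11 : ε * N ≤ η / 1000 * N := mul_le_mul_of_nonneg_right h.εη hN0.le
  have h12 : η * δ₂ / 2000 * n ≤ η / 2000 * N := by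
    have h13 : η * δ₂ / 2000 ≤ η / 2000 := by
      have := h.δ1
      have : η * δ₂ ≤ η * 1 := mul_le_mul_of_nonneg_left h.δ1 hη0.le
      linarith
    exact mul_le_mul h13 hnN (Nat.cast_nonneg n) (by positivity)
  linarith

private lemma CBdP.set (h : CBdP e n N D L K g₀ c₁ b par hs f₀ lf G M₁ H M A U Rn B Λ Q s sL η ε δ₂ β l
    γ₀ ζ) : B ⊆ range n ∧ Λ ⊆ range n ∧ Disjoint B Λ ∧ H ⊆ B ∧ U ⊆ B ∧ Λ.card = U.card ∧
      (∀ v ∈ Λ, 1 ≤ v ∧ par v ∈ U ∧ chs n par v = ∅ ∧ pdeg n par v = 1) := by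
  have h1 : ∀ v ∈ Λ, 1 ≤ v ∧ v < n ∧ par v ∈ U ∧ chs n par v = ∅ ∧ pdeg n par v = 1 ∧ v ∉ B := by
    intro v hv
    rw [h.hΛ] at hv
    rw [h.hB]
    exact cbp_Lam h.isP h.sel h.hU h.hlf hv
  refine ⟨?_, ?_, ?_, ?_, ?_, ?_, ?_⟩
  · rw [h.hB]; exact cbp_B_sub h.isP h.sel h.hU
  · intro v hv
    exact mem_range.2 (h1 v hv).2.1
  · rw [disjoint_left]
    intro v hv hv'
    exact (h1 v hv').2.2.2.2.2 hv
  · rw [h.hB]; exact subset_union_left.trans subset_union_left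
  · rw [h.hB]; exact subset_union_right.trans subset_union_left
  · rw [h.hΛ]; exact card_image_of_injOn (cbp_lf_inj h.hlf)
  · intro v hv
    obtain ⟨g1, g2, g3, g4, g5, g6⟩ := h1 v hv
    exact ⟨g1, g3, g4, g5⟩

private noncomputable def cbpDom (b : ℕ) (G Q : Finset ℕ) (f₀ : ℕ → ℕ) (x : ℕ) : Finset ℕ :=
  if x ∈ G then Q.filter (fun y => f₀ x < y ∧ y - f₀ x ∈ Q ∧ f₀ x ≤ y % b)
  else Q.filter (fun y => f₀ x < y ∧ y - f₀ x ∈ Q)

private lemma CBdP.domc (h : CBdP e n N D L K g₀ c₁ b par hs f₀ lf G M₁ H M A U Rn B Λ Q s sL η ε δ₂ β l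
    γ₀ ζ) {x : ℕ} (hx : x ∈ H) : (1 - s) * N ≤ ((cbpDom b G Q f₀ x).card : ℝ) := by
  obtain ⟨hQs, hQc, hQ⟩ := h.Qle
  obtain ⟨-, -, -, -, hN0⟩ := h.nN
  have hs0 := h.s0
  have hη := h.hη
  have hf := (h.fH x hx).2
  have hsN : 0 < s * N := by positivity
  have hηN : η * N = s * N / 16 := by rw [hη]; ring
  have hQ' : 2 * ((N : ℝ) - Q.card) ≤ s * N / 1000 := by
    have : 8 * η / 1000 * N = s * N / 2000 := by rw [hη]; ring
    linarith
  have hcast : ((N - Q.card : ℕ) : ℝ) = (N : ℝ) - Q.card := Nat.cast_sub hQc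
  unfold cbpDom
  split_ifs with hxG
  · have h1 := cbp_dom_mod (a := f₀ x) h.b1 hQs
    have h2 : (N : ℝ) ≤ ((Q.filter (fun y => f₀ x < y ∧ y - f₀ x ∈ Q ∧ f₀ x ≤ y % b)).card : ℝ) +
        f₀ x + 2 * ((N - Q.card : ℕ) : ℝ) + f₀ x * (((N / b : ℕ) : ℝ) + 1) := by exact_mod_cast h1
    rw [hcast] at h2
    have h3 : (f₀ x : ℝ) ≤ c₁ := by exact_mod_cast h.fG x hxG
    have hb0 : (0 : ℝ) < b := by exact_mod_cast h.b1
    have h4 : ((N / b : ℕ) : ℝ) ≤ (N : ℝ) / b := Nat.cast_div_le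
    have h5 : (f₀ x : ℝ) * (((N / b : ℕ) : ℝ) + 1) ≤ s * N / 8 + η * N := by
      calc (f₀ x : ℝ) * (((N / b : ℕ) : ℝ) + 1) ≤ c₁ * ((N : ℝ) / b + 1) := by gcongr
        _ = c₁ / b * N + c₁ := by ring
        _ ≤ s / 8 * N + η * N := by
            refine add_le_add (mul_le_mul_of_nonneg_right ?_ hN0.le) h.Nc
            rw [div_le_iff₀ hb0]
            have := h.hb
            linarith
        _ = _ := by ring
    linarith
  · have h1 := cbp_dom (a := f₀ x) hQs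
    have h2 : (N : ℝ) ≤ ((Q.filter (fun y => f₀ x < y ∧ y - f₀ x ∈ Q)).card : ℝ) +
        f₀ x + 2 * ((N - Q.card : ℕ) : ℝ) := by exact_mod_cast h1
    rw [hcast] at h2
    linarith

end Core

/-- the result of `lawsB` -/
private def LwRes (n N : ℕ) (par : ℕ → ℕ) (H B Q : Finset ℕ) (f₀ : ℕ → ℕ) (sL δ₂ C : ℝ) : Prop :=
  ∀ (Z : Finset ℕ) (Dom : ℕ → Finset ℕ), BCfg n N par H B Z Q f₀ Dom sL →
    ((Z.filter (fun v => (bnb n par B v).Nonempty ∧ par v ∉ H)).card : ℝ) ≤ sL * N →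
    δ₂ / 16 * N ≤ ((Z.filter (fun u => ∃ c ∈ Z, par c = u ∧ chs n par c = ∅)).card : ℝ) →
    ∑ v ∈ Z, (1 + (bnb n par B v).card + (if par v ∈ Z then 1 else 0)) ≤ Q.card →
    ∃ (mu : ℕ → ℕ → ℝ) (kr : ℕ → ℕ → ℕ → ℝ), LawV n N par B Z Q f₀ C mu kr ∧
      (∀ z ∈ Q, ∑ v ∈ Z, loadv n N par B Z f₀ mu kr v z ≤ 1) ∧
      (∀ v ∈ Z, par v ∈ H → ∀ y,
        mu v y = if y ∈ Dom (par v) then 1 / ((Dom (par v)).card : ℝ) else 0)

/-- the result of `pack_late` -/
private def PkRes (n : ℕ) (par : ℕ → ℕ) (B Q Rn T S : Finset ℕ) (f₀ : ℕ → ℕ) : Prop :=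
  (∃ f : ℕ → ℕ, (∀ x ∈ B, f x = f₀ x) ∧ Set.InjOn (val par f) (items par T) ∧
    ∀ x ∈ items par T, x ∉ items par B → val par f x ∈ Q ∨ val par f x ∈ Rn) ∧
  (∀ v₀ ∈ S, wdeg n par T v₀ % 2 = 0 → ∀ b' : ℕ,
    ∃ f : ℕ → ℕ, (∀ x ∈ B, f x = f₀ x) ∧ Set.InjOn (val par f) (items par T) ∧
      (∀ x ∈ items par T, x ∉ items par B → val par f x ∈ Q ∨ val par f x ∈ Rn) ∧
      (∑ x ∈ items par T, val par f x + b') % 2 = 0)

/-- the hypothesis `pack_late` -/
private def PkHyp (e : Bool) (g₀ c₁ b : ℕ) (γ₀ p₀ C l : ℝ) (K D n N : ℕ) (par : ℕ → ℕ)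
    (G B Q Rn : Finset ℕ) (f₀ : ℕ → ℕ) : Prop :=
  ∀ (Z T : Finset ℕ) (Dom : ℕ → Finset ℕ) (mu : ℕ → ℕ → ℝ) (kr : ℕ → ℕ → ℕ → ℝ),
    PkCfg e g₀ c₁ b γ₀ p₀ C K n N par G B Z Q f₀ Dom mu kr →
    B ⊆ T → Z ⊆ T → T ⊆ range n → Disjoint Q Rn →
    (∀ x ∈ items par B, val par f₀ x ≤ N ∧ val par f₀ x ∉ Rn) →
    (∀ v ∈ T \ B, pdeg n par v ≤ D) →
    (((T \ (B ∪ Z)).card : ℕ) : ℝ) ≤ l / 2 * N →
    PkRes n par B Q Rn T (T \ (B ∪ Z)) f₀

section Core2

variable {e : Bool} {n N D L K g₀ c₁ b : ℕ} {par hs f₀ lf : ℕ → ℕ}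
  {G M₁ H M A U Rn B Λ Q : Finset ℕ} {s sL η ε δ₂ β l γ₀ ζ : ℝ}

private lemma CBdP.pack (h : CBdP e n N D L K g₀ c₁ b par hs f₀ lf G M₁ H M A U Rn B Λ Q s sL η ε δ₂ β l
    γ₀ ζ) {C : ℝ} {S₁ : Finset ℕ} (hS1 : S₁ ⊆ range n) (hS1c : (S₁.card : ℝ) ≤ n / K + 1)
    (hcomp : ∀ S, S₁ ⊆ S → S ⊆ range n → ∀ r, (comp n par S r).card < K)
    (hlaw : LwRes n N par H B Q f₀ sL δ₂ C)
    (hPL : PkHyp e g₀ c₁ b γ₀ (δ₂ / 100) C l K D n N par G B Q Rn f₀) :
    PkRes n par B Q Rn (range n \ Λ) (S₁ \ (B ∪ Λ)) f₀ := by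
  obtain ⟨hQs, hQc, hQ⟩ := h.Qle
  obtain ⟨hnN, hnN', hN2, hN1, hN0⟩ := h.nN
  obtain ⟨hBn, hΛn, hBΛ, hHB, hUB, hΛc, hΛv⟩ := h.set
  have hs0 := h.s0
  have hη := h.hη
  have hε0 := h.ε0
  have hδ0 := h.δ0
  have hl0 := h.l0
  have hη0 : 0 < η := by rw [hη]; positivity
  have hn0 : (0 : ℝ) ≤ n := Nat.cast_nonneg n
  have hK0 : (0 : ℝ) < K := by
    have h1 := h.hK'
    by_contra h2
    have h3 : δ₂ * K ≤ 0 := mul_nonpos_of_nonneg_of_nonpos hδ0.le (not_lt.1 h2)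
    linarith
  have hGB : G ⊆ H := h.GM.trans (h.MM.trans h.sel.Msub)
  set Z := range n \ (B ∪ Λ ∪ S₁) with hZ
  set T := range n \ Λ with hT
  have hZn : Z ⊆ range n := sdiff_subset
  have hZv : ∀ v ∈ Z, v < n ∧ v ∉ B ∧ v ∉ Λ ∧ v ∉ S₁ := by
    intro v hv
    obtain ⟨h1, h2⟩ := mem_sdiff.1 hv
    simp only [mem_union, not_or] at h2
    exact ⟨mem_range.1 h1, h2.1.1, h2.1.2, h2.2⟩
  have hBZ : Disjoint B Z := by
    rw [disjoint_left]
    intro v hv hv'
    exact (hZv v hv').2.1 hv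
  have hZ0 : 0 ∉ Z := fun h0 => (hZv 0 h0).2.1 (hHB h.sel.H0)
  have hTBZ : T \ (B ∪ Z) = S₁ \ (B ∪ Λ) := by
    ext v
    constructor
    · intro hv
      obtain ⟨h1, h2⟩ := mem_sdiff.1 hv
      obtain ⟨h3, h4⟩ := mem_sdiff.1 h1
      rw [mem_union, not_or] at h2
      have h5 : v ∈ S₁ := by
        by_contra h6
        apply h2.2
        rw [hZ]
        refine mem_sdiff.2 ⟨h3, ?_⟩
        simp only [mem_union, not_or]
        exact ⟨⟨h2.1, h4⟩, h6⟩
      refine mem_sdiff.2 ⟨h5, ?_⟩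
      rw [mem_union, not_or]
      exact ⟨h2.1, h4⟩
    · intro hv
      obtain ⟨h1, h2⟩ := mem_sdiff.1 hv
      rw [mem_union, not_or] at h2
      refine mem_sdiff.2 ⟨mem_sdiff.2 ⟨hS1 h1, h2.2⟩, ?_⟩
      rw [mem_union, not_or]
      exact ⟨h2.1, fun h3 => (hZv v h3).2.2.2 h1⟩
  have hS1N : (S₁.card : ℝ) ≤ l / 2 * N := by
    have h1 : (n : ℝ) / K ≤ l * N / 8 := by
      rw [div_le_iff₀ hK0]
      have h2 := h.hK
      have h3 : (n : ℝ) * 8 ≤ N * (l * K) := mul_le_mul hnN' h2 (by norm_num) hN0.le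
      linarith
    have h2 := h.Nl
    linarith
  -- the configuration
  have hbc : BCfg n N par H B Z Q f₀ (cbpDom b G Q f₀) sL := by
    refine ⟨h.isP, h.hN, hHB, hBn, hZn, hBZ, hZ0, hQs, ?_, ?_, ?_, ?_, ?_⟩
    · have h1 : s * N ≤ sL * N := mul_le_mul_of_nonneg_right h.hsL hN0.le
      have h2 : 8 * η / 1000 * N ≤ s * N := by
        have : 8 * η / 1000 * N = s * N / 2000 := by rw [hη]; ring
        have : 0 < s * N := by positivity
        linarith
      linarith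
    · intro v hv
      have h1 := (hZv v hv).2.1
      rw [h.hB] at h1 ⊢
      exact bnb_B h.isP h.sel h.hU (hZv v hv).1 h1
    · intro x hx
      have h1 := (h.hval (Sum.inl x) (by
        unfold items
        exact mem_union_left _ (mem_image_of_mem _ hx))).2.1
      exact h1
    · intro x hx y hy
      unfold cbpDom at hy
      split_ifs at hy with hxG
      · obtain ⟨h1, h2, h3, -⟩ := mem_filter.1 hy
        exact ⟨h1, h2, h3⟩
      · obtain ⟨h1, h2, h3⟩ := mem_filter.1 hy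
        exact ⟨h1, h2, h3⟩
    · intro x hx
      have h1 : (1 - sL) * N ≤ (1 - s) * N := by
        have := h.hsL
        exact mul_le_mul_of_nonneg_right (by linarith) hN0.le
      exact h1.trans (h.domc hx)
  -- irregular vertices
  have hirr : ((Z.filter (fun v => (bnb n par B v).Nonempty ∧ par v ∉ H)).card : ℝ) ≤ sL * N := by
    have h1 := cbp_irr h.isP h.sel h.hU Z
    rw [← h.hB] at h1
    have h2 : ((Z.filter (fun v => (bnb n par B v).Nonempty ∧ par v ∉ H)).card : ℝ) ≤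
        H.card + 2 * U.card * D := by exact_mod_cast h1
    have h3 := h.Hle
    have h4 := h.Uc
    have h5 := h.εD
    have hδ1 := h.δ1
    have hDn : (0 : ℝ) ≤ D := Nat.cast_nonneg D
    have h6 : 2 * (U.card : ℝ) * D ≤ 2 * (ε * N) * D := by gcongr
    have h7 : ε * D ≤ η / 1000 := by
      have : η * δ₂ ≤ η := mul_le_of_le_one_right hη0.le hδ1
      nlinarith
    have h8 : 2 * (ε * N) * D ≤ 2 * (η / 1000) * N := by
      have : 2 * (ε * N) * D = 2 * (ε * D) * N := by ring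
      rw [this]
      gcongr
    have h9 : η * δ₂ / 2000 * n ≤ η / 2000 * N := by
      have h13 : η * δ₂ / 2000 ≤ η / 2000 := by
        have : η * δ₂ ≤ η * 1 := mul_le_mul_of_nonneg_left hδ1 hη0.le
        linarith
      exact mul_le_mul h13 hnN' hn0 (by positivity)
    have h10 : η * N ≤ s * N := by
      rw [hη]
      have : 0 < s * N := by positivity
      linarith
    have h11 : s * N ≤ sL * N := mul_le_mul_of_nonneg_right h.hsL hN0.le
    have h12 : 0 < η * N := by positivity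
    linarith
  -- flexible leaves
  have hflex : δ₂ / 16 * N ≤
      ((Z.filter (fun u => ∃ c ∈ Z, par c = u ∧ chs n par c = ∅)).card : ℝ) := by
    have h1 := cbp_flex (par := par) hZ
    have h2 : (B ∪ Λ ∪ S₁).card ≤ H.card + 3 * U.card + S₁.card := by
      have h3 := card_union_le (B ∪ Λ) S₁
      have h4 := card_union_le B Λ
      have h5 : B.card ≤ H.card + 2 * U.card := by rw [h.hB]; exact cbp_B_card
      omega
    have h3 : ((hosts n par).card : ℝ) ≤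
        ((Z.filter (fun u => ∃ c ∈ Z, par c = u ∧ chs n par c = ∅)).card : ℝ) +
          2 * (H.card + 3 * U.card + S₁.card) := by
      exact_mod_cast h1.trans (Nat.add_le_add_left (Nat.mul_le_mul_left 2 h2) _)
    have h4 := h.hho
    have h5 := h.Hle
    have h6 := h.Uc
    have h7 := h.εD
    have hη1 : η ≤ 1 / 1600 := by
      have := h.sδ
      have := h.δ1
      linarith
    have h8 : η * δ₂ / 2000 * n ≤ δ₂ / 1000 * n := by
      refine mul_le_mul_of_nonneg_right ?_ hn0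
      have : η * δ₂ ≤ 1 * δ₂ := mul_le_mul_of_nonneg_right (by linarith) hδ0.le
      linarith
    have h9 : ε * N ≤ δ₂ / 1000 * (2 * n) := by
      have h10 : ε ≤ δ₂ / 1000 := by
        have h11 : ε * 1000 ≤ ε * (1000 * (D + 1)) := by
          have : (0 : ℝ) ≤ D := Nat.cast_nonneg D
          nlinarith
        have h12 : η * δ₂ ≤ 1 * δ₂ := mul_le_mul_of_nonneg_right (by linarith) hδ0.le
        linarith
      exact mul_le_mul h10 hN2 hN0.le (by positivity)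
    have h10 : (n : ℝ) / K ≤ δ₂ / 100 * n := by
      rw [div_le_iff₀ hK0]
      have h11 := h.hK'
      have h12 : (n : ℝ) * 100 ≤ n * (δ₂ * K) := mul_le_mul_of_nonneg_left h11 hn0
      linarith
    have h11 := h.Nδ
    have h12 : 1 ≤ δ₂ / 100 * n := by
      have : δ₂ * N ≤ δ₂ * (2 * n) := mul_le_mul_of_nonneg_left hN2 hδ0.le
      linarith
    have h13 : δ₂ / 16 * N ≤ δ₂ / 16 * (2 * n) := mul_le_mul_of_nonneg_left hN2 (by positivity)
    linarith
  -- counting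
  have hcount : ∑ v ∈ Z, (1 + (bnb n par B v).card + (if par v ∈ Z then 1 else 0)) ≤ Q.card := by
    refine cbp_count h.isP h.n1 h.hN hBn hZn hBZ hZ0 hΛn hBΛ ?_ ?_ ?_ h.Rc h.β0.le h.hQ
    · rw [disjoint_left]
      intro v hv hv'
      exact (hZv v hv).2.2.1 hv'
    · intro v hv
      obtain ⟨g1, g2, g3, g4⟩ := hΛv v hv
      refine ⟨g1, g4, fun g5 => ?_, fun c hc => ?_⟩
      · exact disjoint_left.1 hBΛ (hUB g2) g5
      · rw [g3] at hc
        exact absurd hc (notMem_empty _)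
    · rw [hΛc]; exact h.AU
  obtain ⟨mu, kr, hL, hload, hunif⟩ := hlaw Z _ hbc hirr hflex hcount
  have hsδ := h.sδ
  have hpk : PkCfg e g₀ c₁ b γ₀ (δ₂ / 100) C K n N par G B Z Q f₀ (cbpDom b G Q f₀) mu kr := by
    refine
      { isP := h.isP
        nN := hnN
        e_G := h.eG
        GB := hGB.trans hHB
        G_card := h.Gc
        G_lab := ?_
        B_lab := h.fb
        B_sep := ?_
        B_deg := ?_
        Dom_iff := ?_
        Dom_card := ?_
        G_few := ?_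
        Bsub := hBn
        Zsub := hZn
        BZ := hBZ
        Z0 := hZ0
        QN := hQs
        one := hbc.one
        inj := h.inj
        valB := ?_
        comps := ?_
        law := hL
        unif := fun v hv hp => hunif v hv (hGB hp)
        load := hload }
    · intro g hg
      refine ⟨?_, h.fG g hg⟩
      exact (h.hval (Sum.inl g) (by
        unfold items
        exact mem_union_left _ (mem_image_of_mem _ (hHB (hGB hg))))).1
    · intro x hx y hy hxy hx2 hy2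
      have key : ∀ w ∈ B \ G, N < zdg n par B Z w ^ 2 → f₀ w % (4 * b) = 1 := by
        intro w hw hw2
        obtain ⟨h1, h2⟩ := mem_sdiff.1 hw
        refine h.fM w (mem_sdiff.2 ⟨h.M₁big w (mem_range.1 (hBn h1)) ?_, h2⟩)
        exact lt_of_lt_of_le hw2 (Nat.pow_le_pow_left (cbp_zdg w) 2)
      have h1 := key x hx hx2
      have h2 := key y hy hy2
      have h3 : f₀ x ≠ f₀ y := by
        intro h4
        apply hxy
        have h5 : Sum.inl x ∈ items par B := by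
          unfold items
          exact mem_union_left _ (mem_image_of_mem _ (mem_sdiff.1 hx).1)
        have h6 : Sum.inl y ∈ items par B := by
          unfold items
          exact mem_union_left _ (mem_image_of_mem _ (mem_sdiff.1 hy).1)
        exact Sum.inl.inj (h.inj h5 h6 h4)
      -- the difference is a nonzero multiple of `4 b`
      have h4 : (4 * b) ∣ dd (f₀ x) (f₀ y) := by
        rcases le_total (f₀ x) (f₀ y) with h5 | h5
        · have h6 : dd (f₀ x) (f₀ y) = f₀ y - f₀ x := by unfold dd; omega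
          rw [h6]
          exact (Nat.modEq_iff_dvd' h5).1 (h1.trans h2.symm)
        · have h6 : dd (f₀ x) (f₀ y) = f₀ x - f₀ y := by unfold dd; omega
          rw [h6]
          exact (Nat.modEq_iff_dvd' h5).1 (h2.trans h1.symm)
      refine Nat.le_of_dvd ?_ h4
      unfold dd
      omega
    · intro x hx
      obtain ⟨h1, h2⟩ := mem_sdiff.1 hx
      have h3 : (zdg n par B Z x : ℝ) ≤ pdeg n par x := by exact_mod_cast cbp_zdg x
      exact h3.trans (h.Gdeg x (mem_range.1 (hBn h1)) h2)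
    · intro g hg y
      unfold cbpDom
      rw [if_pos hg, mem_filter]
    · intro g hg
      have h1 := h.domc (hGB hg)
      have h2 : (1 - δ₂ / 100) * N ≤ (1 - s) * N :=
        mul_le_mul_of_nonneg_right (by linarith) hN0.le
      exact h2.trans h1
    · have h1 : Disjoint G Z := by
        rw [disjoint_left]
        intro v hv hv'
        exact (hZv v hv').2.1 (hHB (hGB hv))
      have h2 := cbp_few (par := par) hZn h1
      have h3 : ((Z.filter (fun v => par v ∈ G)).card : ℝ) +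
          ((Z.filter (fun u => ∃ c ∈ Z, par c = u ∧ chs n par c = ∅)).card : ℝ) ≤ n := by
        exact_mod_cast h2
      have h4 := h.Nδ
      linarith
    · intro x hx
      refine ⟨(h.hval x hx).1, fun h1 => ?_⟩
      rw [h.hQ] at h1
      exact (mem_sdiff.1 h1).2 (mem_union_right _ (mem_image_of_mem _ hx))
    · intro r
      refine (hcomp (range n \ Z) ?_ sdiff_subset r).le
      intro v hv
      refine mem_sdiff.2 ⟨hS1 hv, fun h1 => (hZv v h1).2.2.2 hv⟩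
  have hres := hPL Z T (cbpDom b G Q f₀) mu kr hpk ?_ ?_ sdiff_subset ?_ ?_ ?_ ?_
  · rw [hTBZ] at hres
    exact hres
  · intro v hv
    exact mem_sdiff.2 ⟨hBn hv, disjoint_left.1 hBΛ hv⟩
  · intro v hv
    exact mem_sdiff.2 ⟨hZn hv, (hZv v hv).2.2.1⟩
  · rw [disjoint_left]
    intro x hx hx'
    rw [h.hQ] at hx
    exact (mem_sdiff.1 hx).2 (mem_union_left _ (mem_union_right _ hx'))
  · intro x hx
    exact ⟨(h.hval x hx).2.1, (h.hval x hx).2.2.2⟩
  · intro v hv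
    obtain ⟨h1, h2⟩ := mem_sdiff.1 hv
    exact h.sel.Hdeg v (mem_range.1 (mem_sdiff.1 h1).1) (fun h3 => h2 (hHB h3))
  · rw [hTBZ]
    have h1 : (S₁ \ (B ∪ Λ)).card ≤ S₁.card := card_le_card sdiff_subset
    have h2 : ((S₁ \ (B ∪ Λ)).card : ℝ) ≤ S₁.card := by exact_mod_cast h1
    exact h2.trans hS1N

/-- the end of the proof: absorption -/
private lemma CBdP.fin (h : CBdP e n N D L K g₀ c₁ b par hs f₀ lf G M₁ H M A U Rn B Λ Q s sL η ε δ₂ β l
    γ₀ ζ) {f : ℕ → ℕ} (hf : ∀ x ∈ B, f x = f₀ x)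
    (hinj : Set.InjOn (val par f) (items par (range n \ Λ)))
    (hnew : ∀ x ∈ items par (range n \ Λ), x ∉ items par B → val par f x ∈ Q ∨ val par f x ∈ Rn)
    (hpar2 : (∑ x ∈ items par (range n \ Λ), val par f x + ∑ u ∈ U, f₀ u + n) % 2 = 0)
    (hM : ∀ J : Finset ℕ, J ⊆ Icc 1 N → Disjoint J A →
      Disjoint J ((items par B).image (val par f₀)) →
      J.card + A.card = 2 * U.card →
      (∑ x ∈ A, x + ∑ x ∈ J, x + ∑ u ∈ U, f₀ u) % 2 = 0 →
      Matchable 1 ((U.image f₀).image (fun d => (d, d))) (A ∪ J)) : SSext n par B f₀ := by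
  obtain ⟨hBn, hΛn, hBΛ, hHB, hUB, hΛc, hΛv⟩ := h.set
  obtain ⟨hQs, hQc, hQ⟩ := h.Qle
  have hiB : ∀ x ∈ B, Sum.inl x ∈ items par B := fun x hx => by
    unfold items
    exact mem_union_left _ (mem_image_of_mem _ hx)
  have hf₀inj : Set.InjOn f₀ U := by
    intro x hx y hy hxy
    exact Sum.inl.inj (h.inj (hiB x (hUB hx)) (hiB y (hUB hy)) hxy)
  have hsub : items par B ⊆ items par (range n \ Λ) := by
    refine items_mono fun v hv => ?_
    exact mem_sdiff.2 ⟨hBn hv, disjoint_left.1 hBΛ hv⟩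
  have hlabs : labs ((U.image f₀).image (fun d => (d, d))) = U.image f₀ := by
    unfold labs
    rw [image_image, image_image]
    ext x
    simp
  have hlabsum : ∑ c ∈ labs ((U.image f₀).image (fun d => (d, d))), c = ∑ u ∈ U, f₀ u := by
    rw [hlabs, sum_image hf₀inj]
  have hDc : ((U.image f₀).image (fun d => (d, d))).card = U.card := by
    rw [card_image_of_injective _ (fun a b hab => (Prod.mk.inj hab).1),
      card_image_of_injOn hf₀inj]
  have hend : ∃ f' : ℕ → ℕ, (∀ i, i ∉ Λ → f' i = f i) ∧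
      Set.InjOn (val par f') (items par (range n)) ∧
      ∀ x ∈ items par (range n), 1 ≤ val par f' x ∧ val par f' x ≤ 2 * n - 1 := ?_
  · obtain ⟨f', g1, g2, g3⟩ := hend
    exact ⟨f', fun v hv => by rw [g1 v (disjoint_left.1 hBΛ hv), hf v hv], g2, g3⟩
  refine absorb_finP (t := 1) (A := A) (D := (U.image f₀).image (fun d => (d, d))) (Λ := Λ)
    (u := fun v => (f (par v), f (par v))) (f := f) h.n1 h.isP (by rw [← h.hN]; exact h.hA) hΛn
    ?_ ?_ ?_ hinj ?_ ?_ ?_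
  · intro v hv
    obtain ⟨g1, g2, g3, g4⟩ := hΛv v hv
    refine ⟨g1, g4, fun g5 => ?_, fun c hc => ?_⟩
    · exact disjoint_left.1 hBΛ (hUB g2) g5
    · rw [g3] at hc
      exact absurd hc (notMem_empty _)
  · refine ⟨?_, ?_, ?_⟩
    · intro v hv
      obtain ⟨g1, g2, g3, g4⟩ := hΛv v hv
      simp only [coe_image, Set.mem_image, mem_coe]
      exact ⟨f₀ (par v), ⟨par v, g2, rfl⟩, by rw [hf _ (hUB g2)]⟩
    · intro v hv w hw hvw
      obtain ⟨g1, g2, g3, g4⟩ := hΛv v hv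
      obtain ⟨g1', g2', g3', g4'⟩ := hΛv w hw
      have h1 := (Prod.mk.inj hvw).1
      rw [hf _ (hUB g2), hf _ (hUB g2')] at h1
      have h2 := hf₀inj g2 g2' h1
      have hv' := hv
      have hw' := hw
      rw [mem_coe, h.hΛ] at hv' hw'
      obtain ⟨u, hu, rfl⟩ := mem_image.1 hv'
      obtain ⟨u', hu', rfl⟩ := mem_image.1 hw'
      have h3 := (mem_filter.1 (h.hlf u hu).1).2.2
      have h4 := (mem_filter.1 (h.hlf u' hu').1).2.2
      rw [h3, h4] at h2
      rw [h2]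
    · intro d hd
      simp only [coe_image, Set.mem_image, mem_coe] at hd
      obtain ⟨a, ⟨u, hu, rfl⟩, rfl⟩ := hd
      have h3 := (mem_filter.1 (h.hlf u hu).1).2.2
      refine ⟨lf u, ?_, ?_⟩
      · rw [mem_coe, h.hΛ]; exact mem_image_of_mem _ hu
      · simp only
        rw [h3, hf u (hUB hu)]
  · intro v hv
    obtain ⟨g1, g2, g3, g4⟩ := hΛv v hv
    rw [g3, image_empty]
    simp
  · intro x hx
    rw [← h.hN]
    by_cases hxB : x ∈ items par B
    · rw [val_items hf hxB]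
      obtain ⟨g1, g2, g3, g4⟩ := h.hval x hxB
      exact ⟨g1, g2, g3⟩
    · rcases hnew x hx hxB with h1 | h1
      · have h2 := mem_Icc.1 (hQs h1)
        refine ⟨h2.1, h2.2, fun h3 => ?_⟩
        rw [h.hQ] at h1
        exact (mem_sdiff.1 h1).2 (mem_union_left _ (mem_union_left _ h3))
      · obtain ⟨h2, h3⟩ := h.hR _ h1
        refine ⟨?_, h3, fun h4 => disjoint_left.1 h.AR h4 h1⟩
        have h4 : (0 : ℝ) ≤ ζ * N := mul_nonneg h.ζ0 (Nat.cast_nonneg N)
        have h5 : (0 : ℝ) < (val par f x : ℝ) := lt_of_le_of_lt h4 h2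
        exact_mod_cast h5
  · intro _
    rw [hlabsum]
    exact hpar2
  · intro J hJ hJA hJi hJc hJp
    rw [← h.hN] at hJ
    refine hM J hJ hJA ?_ ?_ ?_
    · rw [disjoint_left]
      intro x hx hx'
      obtain ⟨y, hy, rfl⟩ := mem_image.1 hx'
      refine disjoint_left.1 hJi hx (mem_image.2 ⟨y, hsub hy, ?_⟩)
      exact val_items hf hy
    · rw [hJc, hDc]
    · rw [← hlabsum]
      exact hJp rfl

end Core2

section Core3

variable {e : Bool} {n N D L K g₀ c₁ b : ℕ} {par hs f₀ lf : ℕ → ℕ}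
  {G M₁ H M A U Rn B Λ Q : Finset ℕ} {s sL η ε δ₂ β l γ₀ ζ : ℝ}

private lemma CBdP.core (h : CBdP e n N D L K g₀ c₁ b par hs f₀ lf G M₁ H M A U Rn B Λ Q s sL η ε δ₂ β l
    γ₀ ζ) {C : ℝ} (hlaw : LwRes n N par H B Q f₀ sL δ₂ C)
    (hPL : PkHyp e g₀ c₁ b γ₀ (δ₂ / 100) C l K D n N par G B Q Rn f₀)
    (halt : (∀ v < n, v ∉ H → pdeg n par v % 2 = 1) ∨
      ∃ v₀ < n, v₀ ∉ H ∧ pdeg n par v₀ % 2 = 0 ∧ ∀ i < L, hs i ≠ v₀ ∧ par (hs i) ≠ v₀)
    (hM : ∀ J : Finset ℕ, J ⊆ Icc 1 N → Disjoint J A →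
      Disjoint J ((items par B).image (val par f₀)) →
      J.card + A.card = 2 * U.card →
      (∑ x ∈ A, x + ∑ x ∈ J, x + ∑ u ∈ U, f₀ u) % 2 = 0 →
      Matchable 1 ((U.image f₀).image (fun d => (d, d))) (A ∪ J)) : SSext n par B f₀ := by
  obtain ⟨hBn, hΛn, hBΛ, hHB, hUB, hΛc, hΛv⟩ := h.set
  have hK0 : (0 : ℝ) < K := by
    have h1 := h.hK'
    by_contra h2
    have h3 : δ₂ * K ≤ 0 := mul_nonpos_of_nonneg_of_nonpos h.δ0.le (not_lt.1 h2)
    linarith
  have hK1 : 1 ≤ K := by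
    have : 0 < K := by exact_mod_cast hK0
    omega
  obtain ⟨S₀, hS0, hS0c, hS0k⟩ := small_comps n par h.isP K hK1
  have hS0r : (S₀.card : ℝ) ≤ n / K := by
    rw [le_div_iff₀ hK0]
    exact_mod_cast hS0c
  rcases halt with hodd | ⟨v₀, hv₀n, hv₀H, hv₀e, hv₀⟩
  · obtain ⟨⟨f, hf, hinj, hnew⟩, -⟩ := h.pack hS0 (by linarith) hS0k hlaw hPL
    refine h.fin hf hinj hnew ?_ hM
    have hiB : ∀ x ∈ B, Sum.inl x ∈ items par B := fun x hx => by
      unfold items
      exact mem_union_left _ (mem_image_of_mem _ hx)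
    have hf₀inj : Set.InjOn f₀ U := by
      intro x hx y hy hxy
      exact Sum.inl.inj (h.inj (hiB x (hUB hx)) (hiB y (hUB hy)) hxy)
    have h1 := parity_H (f := f) (Lb := U.image f₀) h.isP h.n1 h.sel.Hsub hodd hΛn
      (fun v hv => ⟨(hΛv v hv).1, (hΛv v hv).2.2.1⟩)
      (fun x hx => by rw [hf x (hHB hx)]; exact (h.fH x hx).1) ?_
    · rw [sum_image hf₀inj] at h1
      exact h1
    · refine ⟨?_, ?_, ?_⟩
      · intro v hv
        obtain ⟨g1, g2, g3, g4⟩ := hΛv v hv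
        simp only [coe_image, Set.mem_image, mem_coe]
        exact ⟨par v, g2, by rw [hf _ (hUB g2)]⟩
      · intro v hv w hw hvw
        obtain ⟨g1, g2, g3, g4⟩ := hΛv v hv
        obtain ⟨g1', g2', g3', g4'⟩ := hΛv w hw
        simp only at hvw
        rw [hf _ (hUB g2), hf _ (hUB g2')] at hvw
        have h2 := hf₀inj g2 g2' hvw
        have hv' := hv
        have hw' := hw
        rw [mem_coe, h.hΛ] at hv' hw'
        obtain ⟨u, hu, rfl⟩ := mem_image.1 hv'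
        obtain ⟨u', hu', rfl⟩ := mem_image.1 hw'
        have h3 := (mem_filter.1 (h.hlf u hu).1).2.2
        have h4 := (mem_filter.1 (h.hlf u' hu').1).2.2
        rw [h3, h4] at h2
        rw [h2]
      · intro d hd
        simp only [coe_image, Set.mem_image, mem_coe] at hd
        obtain ⟨u, hu, rfl⟩ := hd
        have h3 := (mem_filter.1 (h.hlf u hu).1).2.2
        refine ⟨lf u, ?_, ?_⟩
        · rw [mem_coe, h.hΛ]; exact mem_image_of_mem _ hu
        · simp only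
          rw [h3, hf u (hUB hu)]
  · have hS1 : insert v₀ S₀ ⊆ range n := insert_subset (mem_range.2 hv₀n) hS0
    have hS1c : ((insert v₀ S₀).card : ℝ) ≤ n / K + 1 := by
      have h1 : (insert v₀ S₀).card ≤ S₀.card + 1 := card_insert_le _ _
      have h2 : ((insert v₀ S₀).card : ℝ) ≤ S₀.card + 1 := by exact_mod_cast h1
      linarith
    obtain ⟨-, h2⟩ := h.pack hS1 hS1c
      (fun S hS => hS0k S ((subset_insert _ _).trans hS)) hlaw hPL
    have hv₀U : v₀ ∉ U := by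
      intro h3
      obtain ⟨i, hi, h4⟩ := mem_image.1 (h.hU h3)
      exact (hv₀ i (mem_range.1 hi)).1 h4
    have hv₀O : v₀ ∉ OO par H U := by
      intro h3
      obtain ⟨u, hu, h4⟩ := mem_image.1 (mem_filter.1 h3).1
      obtain ⟨i, hi, h5⟩ := mem_image.1 (h.hU hu)
      refine (hv₀ i (mem_range.1 hi)).2 ?_
      rw [h5]; exact h4
    have hv₀B : v₀ ∉ B := by
      rw [h.hB]
      simp only [mem_union, not_or]
      exact ⟨⟨hv₀H, hv₀U⟩, hv₀O⟩
    have hv₀Λ : v₀ ∉ Λ := by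
      intro h3
      have h4 := (hΛv v₀ h3).2.2.2
      omega
    have hv₀1 : v₀ ≠ 0 := fun h3 => hv₀H (h3 ▸ h.sel.H0)
    have hwd : wdeg n par (range n \ Λ) v₀ = pdeg n par v₀ := by
      unfold wdeg pdeg
      have h3 : (chs n par v₀).filter (· ∈ range n \ Λ) = chs n par v₀ := by
        rw [filter_eq_self]
        intro c hc
        unfold chs at hc
        obtain ⟨g1, g2, g3⟩ := mem_filter.1 hc
        refine mem_sdiff.2 ⟨g1, fun h4 => ?_⟩
        have h5 := (hΛv c h4).2.1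
        rw [g3] at h5
        exact hv₀U h5
      have h4 : par v₀ ∈ range n \ Λ := by
        have h5 : par v₀ < v₀ := h.isP v₀ (by omega) hv₀n
        refine mem_sdiff.2 ⟨mem_range.2 (by omega), fun h6 => ?_⟩
        have h7 := (hΛv _ h6).2.2.1
        have h8 : v₀ ∈ chs n par (par v₀) := by
          unfold chs
          exact mem_filter.2 ⟨mem_range.2 hv₀n, by omega, rfl⟩
        rw [h7] at h8
        exact absurd h8 (notMem_empty _)
      rw [h3, if_neg hv₀1, if_pos ⟨by omega, h4⟩]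
    obtain ⟨f, hf, hinj, hnew, hp⟩ := h2 v₀
      (mem_sdiff.2 ⟨mem_insert_self _ _, by rw [mem_union, not_or]; exact ⟨hv₀B, hv₀Λ⟩⟩)
      (by rw [hwd]; exact hv₀e) (∑ u ∈ U, f₀ u + n)
    refine h.fin hf hinj hnew ?_ hM
    rw [add_assoc]
    exact hp

end Core3

theorem coreBP (hP : PackSt true) (hE : AbsE1) (δ₂ : ℝ) (hδ : 0 < δ₂) :
    ∃ γ : ℝ, 0 < γ ∧ ∀ g₀ c₁ : ℕ, ∃ b₀ : ℕ, ∀ b : ℕ, b₀ ≤ b → ∃ n₀ : ℕ, ∀ n : ℕ, n₀ ≤ n →
    ∀ par : ℕ → ℕ, IsPar n par → par 0 = 0 →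
    δ₂ * n ≤ ((hosts n par).card : ℝ) →
    ∀ G P : Finset ℕ, G ⊆ P → P ⊆ range n → Clo n par P → G.card ≤ g₀ →
    P.card ^ 10 ≤ n ^ 3 → (∀ v < n, v ∉ G → (pdeg n par v : ℝ) ≤ γ * n) →
    ∀ fP : ℕ → ℕ, Nmb par P fP → (∀ v ∈ P, fP v % 2 = 1 ∧ fP v ^ 5 ≤ n ^ 2) →
      (∀ v ∈ G, fP v ≤ c₁) → (∀ v ∈ P \ G, fP v % (4 * b) = 1 ∧ b ≤ fP v) →
      SSext n par P fP := by
  by_cases hδ1 : δ₂ ≤ 1
  swap
  · refine ⟨1, one_pos, fun g₀ c₁ => ⟨1, fun b _ => ⟨1, fun n hn par _ _ hh => ?_⟩⟩⟩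
    exfalso
    have h1 : (hosts n par).card ≤ n := by
      have : hosts n par ⊆ range n := by
        unfold hosts
        exact filter_subset _ _
      have := card_le_card this
      rwa [card_range] at this
    have h2 : ((hosts n par).card : ℝ) ≤ n := by exact_mod_cast h1
    have h3 : (1 : ℝ) ≤ n := by exact_mod_cast hn
    have h4 : 1 < δ₂ := not_le.1 hδ1
    nlinarith
  -- the constants
  obtain ⟨sL, C, hsL, hC, NL, hLaw⟩ := lawsB (δ₂ / 16) (by positivity)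
  set s : ℝ := min sL (δ₂ / 100) with hs
  have hs0 : 0 < s := lt_min hsL (by positivity)
  have hssL : s ≤ sL := min_le_left _ _
  have hsδ : s ≤ δ₂ / 100 := min_le_right _ _
  set η : ℝ := s / 16 with hη
  have hη0 : 0 < η := by positivity
  have hη1 : η ≤ 1 := by linarith
  obtain ⟨c₀, ε₁, hc₀, hε₁, hNum⟩ := numP hE
  obtain ⟨D₁, hSel⟩ := selB δ₂ (c₀ / 10000) hδ (by positivity)
  set D : ℕ := max D₁ (⌈10 ^ 5 / (η * δ₂)⌉₊ + 1) with hD
  have hDbig : 10 ^ 5 ≤ η * δ₂ * D := by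
    have h1 : (10 ^ 5 / (η * δ₂) : ℝ) ≤ D := by
      refine (Nat.le_ceil _).trans ?_
      have : ⌈10 ^ 5 / (η * δ₂)⌉₊ ≤ D := (Nat.le_succ _).trans (le_max_right _ _)
      exact_mod_cast this
    rw [div_le_iff₀ (by positivity)] at h1
    linarith
  obtain ⟨ε₂, hε₂, hSel2⟩ := hSel D (le_max_left _ _)
  obtain ⟨ε, hε0, he1, he2, he3, he4, he5⟩ : ∃ ε : ℝ, 0 < ε ∧ ε ≤ ε₁ ∧ ε ≤ ε₂ ∧ ε ≤ η / 1000 ∧
      ε * (1000 * (D + 1)) ≤ η * δ₂ ∧ ε * (16 * (D + 1)) ≤ 1 := by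
    have hD1 : (0 : ℝ) < (D : ℝ) + 1 := by positivity
    refine ⟨min (min ε₁ ε₂) (min (η / 1000) (min (η * δ₂ / (1000 * (D + 1)))
      (1 / (16 * (D + 1))))), ?_, ?_, ?_, ?_, ?_, ?_⟩
    · exact lt_min (lt_min hε₁ hε₂) (lt_min (by positivity) (lt_min (by positivity) (by positivity)))
    · exact (min_le_left _ _).trans (min_le_left _ _)
    · exact (min_le_left _ _).trans (min_le_right _ _)
    · exact (min_le_right _ _).trans (min_le_left _ _)
    · rw [← le_div_iff₀ (by positivity)]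
      exact (min_le_right _ _).trans ((min_le_right _ _).trans (min_le_left _ _))
    · rw [← le_div_iff₀ (by positivity)]
      exact (min_le_right _ _).trans ((min_le_right _ _).trans (min_le_right _ _))
  obtain ⟨κ₁, hκ₁, nS, hSel3⟩ := hSel2 ε hε0 he2
  obtain ⟨ζ, β, hζ1, hζ2, hβ0, hβζ, hNum2⟩ := hNum ε hε0 he1
  have hζ0 : 0 < ζ := lt_of_lt_of_le (by positivity) hζ1
  have hζD : ζ * (16 * (D + 1)) ≤ 1 := by
    refine le_trans ?_ he5
    exact mul_le_mul_of_nonneg_right hζ2 (by positivity)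
  obtain ⟨l, R, N₁, hl, hR, hPL⟩ := pack_late true hP D ζ β hζ0 hζD hβ0
  set K : ℕ := ⌈8 / l⌉₊ + ⌈100 / δ₂⌉₊ with hK
  have hK8 : 8 ≤ l * K := by
    have h1 : (8 / l : ℝ) ≤ K := by
      refine (Nat.le_ceil _).trans ?_
      rw [hK]; push_cast
      have : (0 : ℝ) ≤ (⌈100 / δ₂⌉₊ : ℝ) := Nat.cast_nonneg _
      linarith
    rw [div_le_iff₀ hl] at h1
    linarith
  have hK100 : 100 ≤ δ₂ * K := by
    have h1 : (100 / δ₂ : ℝ) ≤ K := by
      refine (Nat.le_ceil _).trans ?_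
      rw [hK]; push_cast
      have : (0 : ℝ) ≤ (⌈8 / l⌉₊ : ℝ) := Nat.cast_nonneg _
      linarith
    rw [div_le_iff₀ hδ] at h1
    linarith
  obtain ⟨γ₀, hγ₀, hPL2⟩ := hPL K C (δ₂ / 100) hC (by positivity)
  refine ⟨γ₀, hγ₀, fun g₀ c₁ => ⟨⌈8 * (c₁ : ℝ) / s⌉₊ + 1, fun b hbb => ?_⟩⟩
  have hb1 : 1 ≤ b := (Nat.le_add_left _ _).trans hbb
  have hbs : 8 * (c₁ : ℝ) ≤ s * b := by
    have h1 : (8 * (c₁ : ℝ) / s : ℝ) ≤ b := by
      refine (Nat.le_ceil _).trans ?_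
      exact_mod_cast (Nat.le_succ _).trans hbb
    rw [div_le_iff₀ hs0] at h1
    linarith
  obtain ⟨N₂, hPL3⟩ := hPL2 g₀ c₁ b hb1
  have h1000 : 1000 * ε ≤ η := by linarith
  obtain ⟨NB, hNum3⟩ := hNum2 η h1000 hη1 b hb1
  have hκ2 : 0 < min (κ₁ / 2) (c₀ * ε / (10 ^ 5 * b)) := by
    have hb0 : (0 : ℝ) < b := by exact_mod_cast hb1
    exact lt_min (by positivity) (by positivity)
  obtain ⟨NE, hEv⟩ := cbp_ev 0 (min (κ₁ / 2) (c₀ * ε / (10 ^ 5 * b)) / 2) (by positivity)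
  obtain ⟨NF, hEv2⟩ := cbp_ev 0 (ζ / 100) (by positivity)
  refine ⟨max (max (max NL N₁) (max N₂ NB)) (max (max (max NE NF) nS)
    (max (⌈(c₁ : ℝ) / η⌉₊ + c₁ + 1) (⌈200 / δ₂⌉₊ + ⌈8 / l⌉₊))), ?_⟩
  intro n hn par hpar hpar0 hhosts G P hGP hPn hPclo hGcard hPcard hGdeg fP hfP hfodd hfG hfPG
  set N : ℕ := 2 * n - 1 with hN
  have hn1 : 1 ≤ n := by
    have : ⌈(c₁ : ℝ) / η⌉₊ + c₁ + 1 ≤ n :=
      (le_max_left _ _).trans ((le_max_right _ _).trans ((le_max_right _ _).trans hn))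
    omega
  have hnN : n ≤ N := by omega
  have hNLn : NL ≤ N :=
    ((le_max_left _ _).trans ((le_max_left _ _).trans ((le_max_left _ _).trans hn))).trans hnN
  have hN₁n : N₁ ≤ N :=
    ((le_max_right _ _).trans ((le_max_left _ _).trans ((le_max_left _ _).trans hn))).trans hnN
  have hN₂n : N₂ ≤ N :=
    ((le_max_left _ _).trans ((le_max_right _ _).trans ((le_max_left _ _).trans hn))).trans hnN
  have hNBn : NB ≤ N :=
    ((le_max_right _ _).trans ((le_max_right _ _).trans ((le_max_left _ _).trans hn))).trans hnN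
  have hNEn : NE ≤ N :=
    ((le_max_left _ _).trans ((le_max_left _ _).trans ((le_max_left _ _).trans
      ((le_max_right _ _).trans hn)))).trans hnN
  have hNFn : NF ≤ N :=
    ((le_max_right _ _).trans ((le_max_left _ _).trans ((le_max_left _ _).trans
      ((le_max_right _ _).trans hn)))).trans hnN
  have hnSn : nS ≤ n := (le_max_right _ _).trans ((le_max_left _ _).trans ((le_max_right _ _).trans hn))
  have hcn : ⌈(c₁ : ℝ) / η⌉₊ + c₁ + 1 ≤ N :=
    ((le_max_left _ _).trans ((le_max_right _ _).trans ((le_max_right _ _).trans hn))).trans hnN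
  have hlast : ⌈200 / δ₂⌉₊ + ⌈8 / l⌉₊ ≤ N :=
    ((le_max_right _ _).trans ((le_max_right _ _).trans ((le_max_right _ _).trans hn))).trans hnN
  have hnNr : (n : ℝ) ≤ N := by exact_mod_cast hnN
  have hn1r : (1 : ℝ) ≤ n := by exact_mod_cast hn1
  have hN2r : (N : ℝ) ≤ 2 * n := by
    have : N ≤ 2 * n := by omega
    exact_mod_cast this
  have hN0 : (0 : ℝ) < N := by linarith
  have hNc : (c₁ : ℝ) ≤ η * N := by
    have h1 : ((c₁ : ℝ) / η) ≤ N := by
      refine (Nat.le_ceil _).trans ?_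
      have : ⌈(c₁ : ℝ) / η⌉₊ ≤ N := by omega
      exact_mod_cast this
    rw [div_le_iff₀ hη0] at h1
    linarith
  have hNδ : 200 ≤ δ₂ * N := by
    have h1 : (200 / δ₂ : ℝ) ≤ N := by
      refine (Nat.le_ceil _).trans ?_
      have : ⌈200 / δ₂⌉₊ ≤ N := by omega
      exact_mod_cast this
    rw [div_le_iff₀ hδ] at h1
    linarith
  have hNl : 8 ≤ l * N := by
    have h1 : (8 / l : ℝ) ≤ N := by
      refine (Nat.le_ceil _).trans ?_
      have : ⌈8 / l⌉₊ ≤ N := by omega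
      exact_mod_cast this
    rw [div_le_iff₀ hl] at h1
    linarith
  have hsq : ∀ m : ℕ, m ^ 2 ≤ n → (m : ℝ) ≤ Real.sqrt N := by
    intro m hm
    refine Real.le_sqrt_of_sq_le ?_
    have h1 : m ^ 2 ≤ N := hm.trans hnN
    exact_mod_cast h1
  have hsqN : 0 ≤ Real.sqrt N := Real.sqrt_nonneg _
  have hPsq : (P.card : ℝ) ≤ Real.sqrt N := hsq _ (dp_sq10 hn1 hPcard)
  have hfle : ∀ v ∈ P, (fP v : ℝ) ≤ ζ * N / 100 := by
    intro v hv
    have h1 := hsq _ (dp_sq5 (hfodd v hv).2)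
    have h2 := hEv2 N hNFn
    linarith
  -- the giants
  obtain ⟨M₁, hPM, hM₁n, hM₁clo, hM₁big, hM₁card⟩ := cbp_M1 hpar hn1 hnN hPn
  have hGM : G ⊆ M₁ := hGP.trans hPM
  have hM₁c : (M₁.card : ℝ) ≤ min (κ₁ / 2) (c₀ * ε / (10 ^ 5 * b)) * N := by
    have h1 := hEv N hNEn
    linarith
  have hM₁κ : (M₁.card : ℝ) ≤ κ₁ * n := by
    calc (M₁.card : ℝ) ≤ min (κ₁ / 2) (c₀ * ε / (10 ^ 5 * b)) * N := hM₁c
      _ ≤ κ₁ / 2 * N := mul_le_mul_of_nonneg_right (min_le_left _ _) hN0.le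
      _ ≤ κ₁ / 2 * (2 * n) := mul_le_mul_of_nonneg_left hN2r (by positivity)
      _ = κ₁ * n := by ring
  have hM₁b : 10 ^ 5 * b * (M₁.card : ℝ) ≤ c₀ * ε * N := by
    have hb0 : (0 : ℝ) < 10 ^ 5 * b := by
      have : (0 : ℝ) < b := by exact_mod_cast hb1
      positivity
    calc 10 ^ 5 * b * (M₁.card : ℝ) ≤ 10 ^ 5 * b * (c₀ * ε / (10 ^ 5 * b) * N) := by
          refine mul_le_mul_of_nonneg_left (hM₁c.trans ?_) hb0.le
          exact mul_le_mul_of_nonneg_right (min_le_right _ _) hN0.le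
      _ = c₀ * ε * N := by field_simp
  obtain ⟨H, M, hs', hselP, hM₁M, hHc, hMc, halt⟩ :=
    hSel3 n hnSn N ⌈ε * N⌉₊ rfl rfl par hpar hpar0 hhosts M₁ hM₁n hM₁clo hM₁κ
  have hHη : (H.card : ℝ) ≤ η / 1000 * N := by
    have hD0 : (0 : ℝ) < D := by
      have : 1 ≤ D := (Nat.le_add_left _ _).trans (le_max_right _ _)
      exact_mod_cast this
    refine hHc.trans ?_
    rw [div_le_iff₀ hD0]
    have h1 : η * δ₂ * D ≤ η * D := by
      have : η * δ₂ ≤ η := mul_le_of_le_one_right hη0.le hδ1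
      exact mul_le_mul_of_nonneg_right this hD0.le
    have h2 : 10 ^ 5 ≤ η * D := hDbig.trans h1
    have h3 : (10 : ℝ) ^ 5 * n ≤ η * D * N := mul_le_mul h2 hnNr (by linarith) (by positivity)
    nlinarith
  obtain ⟨hR1, hR2⟩ := hR N hN₁n
  obtain ⟨A, U, f₀, hU, hA, hAR, hAc, hUc, hAU, hinj, hval, hfH, hfeq, hfM, hfb, hmatch⟩ :=
    hNum3 N hNBn n D ⌈ε * N⌉₊ par G P M₁ H M hs' (R N) fP rfl hpar rfl hselP hR1 hR2 hGP hPM hM₁M
      hPclo hM₁clo hM₁b hMc hHη hfP.1 hfP.2 (fun v hv => ⟨(hfodd v hv).1, hfle v hv⟩) hfPG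
  obtain ⟨lf, hlf⟩ := cbp_lf hselP hU
  have hCB : CBdP true n N D ⌈ε * N⌉₊ K g₀ c₁ b par hs' f₀ lf G M₁ H M A U (R N)
      (H ∪ U ∪ OO par H U) (U.image lf)
      (Icc 1 N \ (A ∪ R N ∪ (items par (H ∪ U ∪ OO par H U)).image (val par f₀)))
      s sL η ε δ₂ β l γ₀ ζ := by
    exact
      { isP := hpar
        n1 := hn1
        hN := rfl
        s0 := hs0
        hsL := hssL
        sδ := hsδ
        δ0 := hδ
        δ1 := hδ1
        hη := rfl
        ε0 := hε0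
        εη := he3
        εD := he4
        β0 := hβ0
        βε := hβζ.trans hζ2
        ζ0 := hζ0.le
        hD := hDbig
        hK := hK8
        hK' := hK100
        l0 := hl
        hb := hbs
        b1 := hb1
        Nc := hNc
        Nδ := hNδ
        Nl := hNl
        hB := rfl
        hΛ := rfl
        hlf := hlf
        hQ := rfl
        sel := hselP
        Hc := hHc
        hho := hhosts
        GM := hGM
        MM := hM₁M
        Gc := hGcard
        eG := fun h0 => absurd h0 (by decide)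
        Gdeg := fun v hv hvG => by
          refine (hGdeg v hv hvG).trans ?_
          exact mul_le_mul_of_nonneg_left hnNr hγ₀.le
        M₁big := hM₁big
        hR := hR1
        Rc := hR2
        hU := hU
        hA := hA
        AR := hAR
        Ac := hAc
        Uc := hUc
        AU := hAU
        inj := hinj
        hval := hval
        fH := hfH
        fG := fun g hg => by rw [hfeq g (hGP hg)]; exact hfG g hg
        fM := hfM
        fb := hfb }
  have hPB : P ⊆ H ∪ U ∪ OO par H U :=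
    (hPM.trans (hM₁M.trans hselP.Msub)).trans (subset_union_left.trans subset_union_left)
  refine SSext.of_sub (hCB.core (C := C) ?_ ?_ halt hmatch) hPB hfeq
  · intro Z Dom h1 h2 h3 h4
    exact hLaw n N par H _ Z _ f₀ Dom hNLn h1 h2 h3 h4
  · intro Z T Dom mu kr h1 h2 h3 h4 h5 h6 h7 h8
    exact hPL3 N hN₂n n par G _ Z _ T f₀ Dom mu kr h1 h2 h3 h4 h5 h6 h7 h8

end SSB
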