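import Pool.Agent.Lib.MP_8a819d_co.DP.CoreAP
import Pool.Agent.Lib.MP_8a819d_co.DP.CoreBP
import Pool.Agent.Lib.MP_8a819d_co.AT.PackVG

/-!
# MP_8a819d_co: the core with a prescribed set (`CoreDP`)

Few hosts: `coreAP`; many hosts: `coreBP`.
-/

set_option autoImplicit false

namespace SSB

open Finset

theorem coreDP (hE : AbsE1) (hF : AbsF2) : CoreDP := by
  intro δ hδ
  obtain ⟨δ₂, hδ₂, γ₁, hγ₁, hA⟩ := coreAP packSt_true hF δ hδ
  obtain ⟨γ₂, hγ₂, hB⟩ := coreBP packSt_true hE δ₂ hδ₂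
  refine ⟨min γ₁ γ₂, lt_min hγ₁ hγ₂, fun g₀ c₁ => ?_⟩
  obtain ⟨b₁, hA1⟩ := hA g₀ c₁
  obtain ⟨b₂, hB1⟩ := hB g₀ c₁
  obtain ⟨b, hb, hb1, hb2⟩ : ∃ b : ℕ, 1 ≤ b ∧ b₁ ≤ b ∧ b₂ ≤ b :=
    ⟨max (max b₁ b₂) 1, le_max_right _ _, (le_max_left _ _).trans (le_max_left _ _),
      (le_max_right _ _).trans (le_max_left _ _)⟩
  obtain ⟨n₁, hA2⟩ := hA1 b hb1
  obtain ⟨n₂, hB2⟩ := hB1 b hb2
  refine ⟨b, hb, max n₁ n₂, ?_⟩
  intro n hn par hpar h00 h02 hinn G P hGP hPi _ cP hGg hPc hGdeg f₀ hf hodd hG hPG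
  have hPn : P ⊆ range n := hPi.trans (filter_subset _ _)
  have hin : inn n par ⊆ (range n).filter (fun v => 2 ≤ pdeg n par v) := by
    intro v hv
    unfold inn at hv
    obtain ⟨h1, h2⟩ := mem_filter.1 hv
    refine mem_filter.2 ⟨h1, ?_⟩
    rcases Nat.eq_zero_or_pos v with h0 | h0
    · rw [h0]
      exact h02
    · have h3 := card_pos.2 h2
      unfold pdeg
      rw [if_neg (by omega)]
      omega
  have hq : δ * n ≤ (((range n).filter (fun v => 2 ≤ pdeg n par v)).card : ℝ) := by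
    refine hinn.trans ?_
    exact_mod_cast card_le_card hin
  by_cases hh : ((hosts n par).card : ℝ) ≤ δ₂ * n
  · refine hA2 n ((le_max_left _ _).trans hn) par hpar h00 h02 hq hh G P hGP hPn cP hGg hPc
      (fun v hv hvG => (hGdeg v hv hvG).trans ?_) f₀ hf hodd hG hPG
    exact mul_le_mul_of_nonneg_right (min_le_left _ _) (Nat.cast_nonneg _)
  · refine hB2 n ((le_max_right _ _).trans hn) par hpar h00 (not_le.1 hh).le G P hGP hPn cP hGg hPc
      (fun v hv hvG => (hGdeg v hv hvG).trans ?_) f₀ hf hodd hG hPG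
    exact mul_le_mul_of_nonneg_right (min_le_right _ _) (Nat.cast_nonneg _)

end SSB
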