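import Pool.Agent.Lib.MP_8a819d_co.AT.SelBF
import Pool.Agent.Lib.MP_8a819d_co.AT.GreedyN
import Pool.Agent.Lib.MP_8a819d_co.AT.AbsSt

/-!
# MP_8a819d_co, trees with many non-leaves: numbering of `B` (case B) with a prescribed set

This is `NumB.lean` with a prescribed closed set `P`: `G ⊆ P ⊆ M₁ ⊆ M ⊆ H`. The vertices of `P` have given odd labels `fP` (at most `ζ N/100`), those of `P \ G` are
`≥ b` and congruent to `1` mod `4 b`.
-/

set_option autoImplicit false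

namespace SSB

open Finset

/-- sorting -/
private theorem nump_sort (L : ℕ) (g : ℕ → ℕ) : ∃ π : ℕ → ℕ, (∀ i < L, π i < L) ∧
    (∀ i < L, ∀ j < L, π i = π j → i = j) ∧ ∀ i j, i ≤ j → j < L → g (π j) ≤ g (π i) := by
  classical
  let f : Fin L → ℕᵒᵈ := fun i => OrderDual.toDual (g i)
  have hm := Tuple.monotone_sort f
  refine ⟨fun i => if h : i < L then (Tuple.sort f ⟨i, h⟩ : Fin L).1 else 0, ?_, ?_, ?_⟩
  · intro i hi
    simp only [hi, dif_pos]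
    exact (Tuple.sort f ⟨i, hi⟩).2
  · intro i hi j hj h
    simp only [hi, hj, dif_pos] at h
    have := (Tuple.sort f).injective (Fin.ext h)
    simpa using this
  · intro i j hij hj
    have hi : i < L := lt_of_le_of_lt hij hj
    simp only [hi, hj, dif_pos]
    exact hm (show (⟨i, hi⟩ : Fin L) ≤ ⟨j, hj⟩ from hij)

/-- the numbering of `M ∪ U` -/
private theorem nump_MU {n D L : ℕ} {par : ℕ → ℕ} {H M : Finset ℕ} {hs : ℕ → ℕ} (hpar : IsPar n par)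
    (h : SelBP n D L par H M hs) {f₁ : ℕ → ℕ} (hinj : Set.InjOn (val par f₁) (items par M))
    (hodd : ∀ x ∈ M, f₁ x % 2 = 1) {π : ℕ → ℕ} (hπ1 : ∀ i < L, π i < L)
    (hπ2 : ∀ i < L, ∀ j < L, π i = π j → i = j) {e : ℕ → ℕ}
    (he : ∀ i < L, e i = if par (hs (π i)) ∈ M then f₁ (par (hs (π i))) else 0)
    {N : ℕ} {R A Dd : Finset ℕ} {ι : ℕ → ℕ} {ε ζ β : ℝ}
    (hA : AbsEData N R ((items par M).image (val par f₁)) A Dd e ι ε ζ β)
    (hιL : ∀ d ∈ Dd, ι d < L) :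
    ∃ (U : Finset ℕ) (f₂ : ℕ → ℕ), U ⊆ (range L).image hs ∧ U.card = Dd.card ∧
      (∀ x ∈ M, f₂ x = f₁ x) ∧ U.image f₂ = Dd ∧ Set.InjOn f₂ U ∧
      (items par (M ∪ U)).image (val par f₂) =
        (items par M).image (val par f₁) ∪ Dd ∪ Eset Dd e ι ∧
      Set.InjOn (val par f₂) (items par (M ∪ U)) := by
  classical
  set hd : ℕ → ℕ := fun d => hs (π (ι d)) with hhd
  have hdinj : Set.InjOn hd Dd := by
    intro a ha b hb hab
    have h1 := h.inj _ (hπ1 _ (hιL a ha)) _ (hπ1 _ (hιL b hb)) hab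
    exact hA.ι_inj ha hb (hπ2 _ (hιL a ha) _ (hιL b hb) h1)
  set U : Finset ℕ := Dd.image hd with hU
  have hUs : U ⊆ (range L).image hs := by
    intro u hu
    obtain ⟨d, hd', rfl⟩ := mem_image.1 hu
    exact mem_image.2 ⟨π (ι d), mem_range.2 (hπ1 _ (hιL d hd')), rfl⟩
  have hUH : Disjoint U H := U_H h hUs
  have hUM : ∀ x ∈ M, x ∉ U := fun x hx hx' => (disjoint_left.1 hUH hx') (h.Msub hx)
  set f₂ : ℕ → ℕ := fun v => if v ∈ U then Function.invFunOn hd (↑Dd) v else f₁ v with hf₂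
  have hf2M : ∀ x ∈ M, f₂ x = f₁ x := fun x hx => by simp only [hf₂, if_neg (hUM x hx)]
  have hf2D : ∀ d ∈ Dd, f₂ (hd d) = d := by
    intro d hd'
    have h1 : hd d ∈ U := mem_image_of_mem _ hd'
    simp only [hf₂, if_pos h1]
    exact hdinj.leftInvOn_invFunOn hd'
  have hval1 : ∀ x ∈ items par M, val par f₂ x = val par f₁ x := fun x hx => val_items hf2M hx
  have heD : ∀ d ∈ Dd, par (hd d) ∈ M → e (ι d) = f₁ (par (hd d)) := by
    intro d hd' hp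
    rw [he _ (hιL d hd')]
    exact if_pos hp
  have hvr : ∀ d ∈ Dd, par (hd d) ∈ M → val par f₂ (Sum.inr (hd d)) = d - e (ι d) := by
    intro d hd' hp
    rw [val_inr, hf2D d hd', hf2M _ hp, ← heD d hd' hp]
    have := hA.lt d hd'
    unfold dd
    omega
  have hene : ∀ d ∈ Dd, (e (ι d) ≠ 0 ↔ par (hd d) ∈ M) := by
    intro d hd'
    rw [he _ (hιL d hd')]
    by_cases hp : par (hs (π (ι d))) ∈ M
    · rw [if_pos hp]
      have := hodd _ hp
      constructor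
      · intro _
        exact hp
      · intro _
        omega
    · rw [if_neg hp]
      exact ⟨fun h => absurd rfl h, fun h => absurd h hp⟩
  have key : ∀ x ∈ items par (M ∪ U),
      (x ∈ items par M ∧ val par f₂ x = val par f₁ x) ∨
      (∃ d ∈ Dd, x = Sum.inl (hd d) ∧ val par f₂ x = d) ∨
      (∃ d ∈ Dd, e (ι d) ≠ 0 ∧ x = Sum.inr (hd d) ∧ val par f₂ x = d - e (ι d)) := by
    intro x hx
    rw [items_MU hpar h hUs, mem_union, mem_union] at hx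
    rcases hx with (hx | hx) | hx
    · exact Or.inl ⟨hx, hval1 x hx⟩
    · obtain ⟨u, hu, rfl⟩ := mem_image.1 hx
      obtain ⟨d, hd', rfl⟩ := mem_image.1 hu
      exact Or.inr (Or.inl ⟨d, hd', rfl, hf2D d hd'⟩)
    · obtain ⟨u, hu, rfl⟩ := mem_image.1 hx
      obtain ⟨hu1, hu2⟩ := mem_filter.1 hu
      obtain ⟨d, hd', rfl⟩ := mem_image.1 hu1
      exact Or.inr (Or.inr ⟨d, hd', (hene d hd').2 hu2, rfl, hvr d hd' hu2⟩)
  refine ⟨U, f₂, hUs, card_image_of_injOn hdinj, hf2M, ?_, ?_, ?_, ?_⟩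
  · ext d
    rw [mem_image]
    constructor
    · rintro ⟨u, hu, rfl⟩
      obtain ⟨d', hd', rfl⟩ := mem_image.1 hu
      rw [hf2D d' hd']
      exact hd'
    · intro hd'
      exact ⟨hd d, mem_image_of_mem _ hd', hf2D d hd'⟩
  · intro a ha b hb hab
    obtain ⟨d, hd1, rfl⟩ := mem_image.1 (mem_coe.1 ha)
    obtain ⟨d', hd2, rfl⟩ := mem_image.1 (mem_coe.1 hb)
    rw [hf2D d hd1, hf2D d' hd2] at hab
    rw [hab]
  · ext y
    simp only [mem_union]
    constructor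
    · intro hy
      obtain ⟨x, hx, rfl⟩ := mem_image.1 hy
      rcases key x hx with ⟨h1, h2⟩ | ⟨d, hd', _, h2⟩ | ⟨d, hd', hne, _, h2⟩
      · rw [h2]
        exact Or.inl (Or.inl (mem_image_of_mem _ h1))
      · rw [h2]
        exact Or.inl (Or.inr hd')
      · rw [h2]
        exact Or.inr (mem_image.2 ⟨d, mem_filter.2 ⟨hd', hne⟩, rfl⟩)
    · rintro ((hy | hy) | hy)
      · obtain ⟨x, hx, rfl⟩ := mem_image.1 hy
        refine mem_image.2 ⟨x, items_mono subset_union_left hx, hval1 x hx⟩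
      · refine mem_image.2 ⟨Sum.inl (hd y), ?_, hf2D y hy⟩
        exact mem_items_inl.2 (mem_union_right _ (mem_image_of_mem _ hy))
      · obtain ⟨d, hd', rfl⟩ := mem_image.1 hy
        obtain ⟨hd1, hd2⟩ := mem_filter.1 hd'
        have hp := (hene d hd1).1 hd2
        refine mem_image.2 ⟨Sum.inr (hd d), ?_, hvr d hd1 hp⟩
        rw [items_MU hpar h hUs]
        refine mem_union_right _ (mem_image.2 ⟨hd d, mem_filter.2 ⟨mem_image_of_mem _ hd1, hp⟩, rfl⟩)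
  · intro x hx y hy hxy
    have hF : ∀ z ∈ items par M, val par f₁ z ∈ (items par M).image (val par f₁) :=
      fun z hz => mem_image_of_mem _ hz
    have hE : ∀ d ∈ Dd, e (ι d) ≠ 0 → d - e (ι d) ∈ Eset Dd e ι :=
      fun d hd1 hd2 => mem_image.2 ⟨d, mem_filter.2 ⟨hd1, hd2⟩, rfl⟩
    rcases key x hx with ⟨h1, h2⟩ | ⟨d, hd1, h1, h2⟩ | ⟨d, hd1, hne, h1, h2⟩ <;>
    rcases key y hy with ⟨k1, k2⟩ | ⟨d', kd1, k1, k2⟩ | ⟨d', kd1, kne, k1, k2⟩ <;>
    rw [h2, k2] at hxy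
    · exact hinj h1 k1 hxy
    · exact absurd (hF x h1) (by rw [hxy]; exact disjoint_left.1 hA.DF kd1)
    · exact absurd (hF x h1) (by rw [hxy]; exact disjoint_left.1 hA.EF (hE d' kd1 kne))
    · exact absurd (hF y k1) (by rw [← hxy]; exact disjoint_left.1 hA.DF hd1)
    · rw [h1, k1, hxy]
    · exact absurd (hE d' kd1 kne) (by rw [← hxy]; exact disjoint_left.1 hA.DE hd1)
    · exact absurd (hF y k1) (by rw [← hxy]; exact disjoint_left.1 hA.EF (hE d hd1 hne))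
    · exact absurd (hE d hd1 hne) (by rw [hxy]; exact disjoint_left.1 hA.DE kd1)
    · have h3 : d = d' := hA.e_inj (mem_coe.2 (mem_filter.2 ⟨hd1, hne⟩))
        (mem_coe.2 (mem_filter.2 ⟨kd1, kne⟩)) hxy
      rw [h1, k1, h3]


private theorem nump_oddc {x : ℝ} (b : ℕ) : x ≤
    2 * (((Icc (b + 1) ⌊x⌋₊).filter (fun y => y % 2 = 1)).card : ℝ) + b + 2 := by
  have h1 := odd_card b ⌊x⌋₊
  have h2 : x < (⌊x⌋₊ : ℝ) + 1 := Nat.lt_floor_add_one x
  have h3 : ((⌊x⌋₊ : ℕ) : ℝ) ≤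
      2 * (((Icc (b + 1) ⌊x⌋₊).filter (fun y => y % 2 = 1)).card : ℝ) + b + 1 := by
    exact_mod_cast h1
  linarith

private theorem nump_oddm {x : ℝ} (hx : 0 ≤ x) {b y : ℕ}
    (hy : y ∈ (Icc (b + 1) ⌊x⌋₊).filter (fun y => y % 2 = 1)) :
    b + 1 ≤ y ∧ (y : ℝ) ≤ x ∧ y % 2 = 1 := by
  obtain ⟨h1, h2⟩ := mem_filter.1 hy
  obtain ⟨h3, h4⟩ := mem_Icc.1 h1
  exact ⟨h3, (Nat.cast_le.2 h4).trans (Nat.floor_le hx), h2⟩

private theorem nump_modc {x : ℝ} {b : ℕ} (hb : 1 ≤ b) : x ≤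
    4 * b * ((((Icc b ⌊x⌋₊).filter (fun y => y % (4 * b) = 1)).card : ℝ) + 2) := by
  set k := (⌊x⌋₊ - 1) / (4 * b) with hk
  have h1 : k ≤ ((Icc b ⌊x⌋₊).filter (fun y => y % (4 * b) = 1)).card := by
    have h2 : (Icc 1 k).image (fun i => 4 * b * i + 1) ⊆
        (Icc b ⌊x⌋₊).filter (fun y => y % (4 * b) = 1) := by
      intro y hy
      obtain ⟨i, hi, rfl⟩ := mem_image.1 hy
      obtain ⟨h3, h4⟩ := mem_Icc.1 hi
      have h5 : 4 * b * k ≤ ⌊x⌋₊ - 1 := Nat.mul_div_le _ _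
      have h6 : 4 * b * i ≤ 4 * b * k := Nat.mul_le_mul_left _ h4
      have h7 : 4 * b * 1 ≤ 4 * b * i := Nat.mul_le_mul_left _ h3
      refine mem_filter.2 ⟨mem_Icc.2 ⟨by omega, by omega⟩, ?_⟩
      rw [Nat.mul_add_mod]
      exact Nat.mod_eq_of_lt (by omega)
    have h3 := card_le_card h2
    rw [card_image_of_injOn, Nat.card_Icc, Nat.add_sub_cancel] at h3
    · exact h3
    · intro i _ j _ hij
      have h4 : 4 * b * i = 4 * b * j := Nat.add_right_cancel hij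
      exact Nat.eq_of_mul_eq_mul_left (by omega) h4
  have h2 : ⌊x⌋₊ - 1 < 4 * b * (k + 1) := by
    have := Nat.lt_mul_div_succ (⌊x⌋₊ - 1) (show 0 < 4 * b by omega)
    exact this
  have h3 : ⌊x⌋₊ ≤ 4 * b * (k + 1) := by omega
  have h4 : x < (⌊x⌋₊ : ℝ) + 1 := Nat.lt_floor_add_one x
  have h5 : (⌊x⌋₊ : ℝ) ≤ 4 * b * (k + 1) := by exact_mod_cast h3
  have h6 : (1 : ℝ) ≤ b := by exact_mod_cast hb
  have h7 : (k : ℝ) ≤ (((Icc b ⌊x⌋₊).filter (fun y => y % (4 * b) = 1)).card : ℝ) := by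
    exact_mod_cast h1
  have h8 : 4 * (b : ℝ) * (k + 1) ≤
      4 * b * ((((Icc b ⌊x⌋₊).filter (fun y => y % (4 * b) = 1)).card : ℝ) + 1) :=
    mul_le_mul_of_nonneg_left (by linarith) (by positivity)
  linarith

private theorem nump_modm {x : ℝ} (hx : 0 ≤ x) {b y : ℕ}
    (hy : y ∈ (Icc b ⌊x⌋₊).filter (fun y => y % (4 * b) = 1)) :
    b ≤ y ∧ (y : ℝ) ≤ x ∧ y % 2 = 1 ∧ y % (4 * b) = 1 := by
  obtain ⟨h1, h2⟩ := mem_filter.1 hy
  obtain ⟨h3, h4⟩ := mem_Icc.1 h1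
  refine ⟨h3, (Nat.cast_le.2 h4).trans (Nat.floor_le hx), ?_, h2⟩
  have h5 : y = 2 * (2 * b * (y / (4 * b))) + 1 := by
    have h6 := Nat.div_add_mod y (4 * b)
    rw [h2] at h6
    have h7 : 4 * b * (y / (4 * b)) = 2 * (2 * b * (y / (4 * b))) := by ring
    omega
  omega

/-- a vertex outside a closed set has at most one child in it -/
private theorem nump_clo {n : ℕ} {par : ℕ → ℕ} {G : Finset ℕ} (h : Clo n par G)
    {x : ℕ} (hx : x < n) (hxG : x ∉ G) : ((chs n par x).filter (· ∈ G)).card ≤ 1 := by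
  refine (card_le_card ?_).trans (h x hx hxG)
  intro c hc
  obtain ⟨h1, h2⟩ := mem_filter.1 hc
  rw [bnb, mem_filter]
  refine ⟨h2, Or.inr ?_⟩
  simp only [chs, mem_filter, mem_range] at h1
  omega

/-- the values of the items are at most the largest label -/
private theorem nump_val_le {par f : ℕ → ℕ} {W : Finset ℕ} {m : ℝ} (h : ∀ x ∈ W, (f x : ℝ) ≤ m)
    {x : ℕ ⊕ ℕ} (hx : x ∈ items par W) : (val par f x : ℝ) ≤ m := by
  rcases x with i | i
  · rw [val_inl]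
    exact h i (mem_items_inl.1 hx)
  · obtain ⟨k1, _, k3⟩ := mem_items_inr.1 hx
    have k4 := h i k1
    have k5 := h _ k3
    have k6 : dd (f i) (f (par i)) ≤ max (f i) (f (par i)) := by
      unfold dd
      omega
    have k7 : (dd (f i) (f (par i)) : ℝ) ≤ max (f i : ℝ) (f (par i)) := by exact_mod_cast k6
    rw [val_inr]
    exact k7.trans (max_le k4 k5)

theorem numP (hE : AbsE1) : ∃ c₀ ε₁ : ℝ, 0 < c₀ ∧ 0 < ε₁ ∧ ∀ ε : ℝ, 0 < ε → ε ≤ ε₁ →
    ∃ ζ β : ℝ, c₀ * ε ≤ ζ ∧ ζ ≤ ε ∧ 0 < β ∧ β ≤ ζ ∧ ∀ η : ℝ, 1000 * ε ≤ η → η ≤ 1 →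
    ∀ b : ℕ, 1 ≤ b → ∃ N₀ : ℕ, ∀ N : ℕ, N₀ ≤ N →
    ∀ (n D L : ℕ) (par : ℕ → ℕ) (G P M₁ H M : Finset ℕ) (hs : ℕ → ℕ) (R : Finset ℕ) (fP : ℕ → ℕ),
      N = 2 * n - 1 → IsPar n par → L = ⌈ε * N⌉₊ → SelBP n D L par H M hs →
      (∀ x ∈ R, ζ * N < x ∧ x ≤ N) → (R.card : ℝ) ≤ β * N →
      G ⊆ P → P ⊆ M₁ → M₁ ⊆ M → Clo n par P → Clo n par M₁ →
      10 ^ 5 * b * (M₁.card : ℝ) ≤ c₀ * ε * N →
      (M.card : ℝ) ≤ c₀ / 10000 * ε * N → (H.card : ℝ) ≤ η / 1000 * N →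
      Set.InjOn (val par fP) (items par P) → (∀ x ∈ items par P, 1 ≤ val par fP x) →
      (∀ v ∈ P, fP v % 2 = 1 ∧ (fP v : ℝ) ≤ ζ * N / 100) →
      (∀ v ∈ P \ G, fP v % (4 * b) = 1 ∧ b ≤ fP v) →
      ∃ (A U : Finset ℕ) (f₀ : ℕ → ℕ), U ⊆ (range L).image hs ∧ A ⊆ Icc 1 N ∧ Disjoint A R ∧
        (A.card : ℝ) ≤ 2 * ε * N ∧ (U.card : ℝ) ≤ ε * N ∧
        (A.card : ℝ) + 2 * β * N ≤ 2 * U.card ∧
        Set.InjOn (val par f₀) (items par (H ∪ U ∪ OO par H U)) ∧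
        (∀ x ∈ items par (H ∪ U ∪ OO par H U),
          1 ≤ val par f₀ x ∧ val par f₀ x ≤ N ∧ val par f₀ x ∉ A ∧ val par f₀ x ∉ R) ∧
        (∀ h ∈ H, f₀ h % 2 = 1 ∧ (f₀ h : ℝ) ≤ η * N) ∧
        (∀ v ∈ P, f₀ v = fP v) ∧ (∀ x ∈ M₁ \ G, f₀ x % (4 * b) = 1) ∧
        (∀ x ∈ (H ∪ U ∪ OO par H U) \ G, b ≤ f₀ x) ∧
        (∀ J : Finset ℕ, J ⊆ Icc 1 N → Disjoint J A →
          Disjoint J ((items par (H ∪ U ∪ OO par H U)).image (val par f₀)) →
          J.card + A.card = 2 * U.card →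
          (∑ x ∈ A, x + ∑ x ∈ J, x + ∑ u ∈ U, f₀ u) % 2 = 0 →
          Matchable 1 ((U.image f₀).image (fun d => (d, d))) (A ∪ J)) := by
  classical
  obtain ⟨c₀, ε₁, hc₀, hε₁, hE⟩ := hE
  refine ⟨c₀, ε₁, hc₀, hε₁, ?_⟩
  intro ε hε hεle
  obtain ⟨ζ, β, h1, h2, h3, h4, N₀, hN₀⟩ := hE ε hε hεle
  refine ⟨ζ, β, h1, h2, h3, h4, ?_⟩
  intro η hη1 hη2 b hb
  have hζ : 0 < ζ := lt_of_lt_of_le (by positivity) h1
  have hε1000 : 1000 * ε ≤ 1 := hη1.trans hη2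
  obtain ⟨K, hK⟩ := exists_nat_ge
    ((1000 * (b : ℝ) * 13 + 1000 * (10 + b) + 6000) / ζ)
  refine ⟨max N₀ K, fun N hN n D L par G P M₁ H M hs R fP hNn hpar hL h hR hRc hGP hPM₁ hM₁M
    hPclo hM₁clo hM₁c hM hH hPinj hPval hPlab hPG => ?_⟩
  have hNN₀ : N₀ ≤ N := (le_max_left _ _).trans hN
  have hNK : (K : ℝ) ≤ N := by
    exact_mod_cast (le_max_right _ _).trans hN
  have hb1 : (1 : ℝ) ≤ b := by exact_mod_cast hb
  have hζN : 1000 * (b : ℝ) * 13 + 1000 * (10 + b) + 6000 ≤ ζ * N := by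
    have h5 := hK.trans hNK
    rw [div_le_iff₀ hζ] at h5
    linarith
  have hbg : (0 : ℝ) ≤ 1000 * (b : ℝ) * 13 := by positivity
  have hNpos : (0 : ℝ) < N := by
    by_contra hcon
    have h5 : ζ * N ≤ 0 := mul_nonpos_of_nonneg_of_nonpos hζ.le (not_lt.1 hcon)
    linarith
  have hζεN : ζ * N ≤ ε * N := mul_le_mul_of_nonneg_right h2 hNpos.le
  have hβζN : β * N ≤ ζ * N := mul_le_mul_of_nonneg_right h4 hNpos.le
  have hεηN : 1000 * (ε * N) ≤ η * N := by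
    have := mul_le_mul_of_nonneg_right hη1 hNpos.le
    linarith
  have hηNN : η * N ≤ N := by
    have := mul_le_mul_of_nonneg_right hη2 hNpos.le
    linarith
  have hζN0 : 0 ≤ ζ * N / 100 := by positivity
  have hηN0 : 0 ≤ η * N := by linarith
  have hc₀ε : c₀ * ε * N ≤ ζ * N := mul_le_mul_of_nonneg_right h1 hNpos.le
  have hMζ : 10000 * (M.card : ℝ) ≤ ζ * N := by
    have h6 : c₀ / 10000 * ε * N = c₀ * ε * N / 10000 := by ring
    rw [h6] at hM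
    linarith
  have hHη : 1000 * (H.card : ℝ) ≤ η * N := by
    have h6 : η / 1000 * N = η * N / 1000 := by ring
    rw [h6] at hH
    linarith
  have hMH : (M.card : ℝ) ≤ H.card := by exact_mod_cast card_le_card h.Msub
  have hM₁M' : (M₁.card : ℝ) ≤ M.card := by exact_mod_cast card_le_card hM₁M
  have hMn : M ⊆ range n := h.Msub.trans h.Hsub
  have hM₁n : M₁ ⊆ range n := hM₁M.trans hMn
  have hPn : P ⊆ range n := hPM₁.trans hM₁n
  have hPlab' : ∀ x ∈ P, (fP x : ℝ) ≤ ζ * N / 100 := fun x hx => (hPlab x hx).2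
  -- step 1
  set P₀ : Finset ℕ := (Icc b ⌊ζ * N / 100⌋₊).filter (fun x => x % (4 * b) = 1) with hP₀
  have hP₀c : ζ * N / 100 ≤ _ := nump_modc hb
  rw [← hP₀] at hP₀c
  have hc0 : 5 * ((∅ : Finset ℕ).card + (items par P).card + 3 * (M₁ \ P).card) + 10 ≤ P₀.card := by
    by_contra hcon
    rw [not_le, card_empty] at hcon
    have h5 := items_le par P
    have h5' : P.card ≤ M₁.card := card_le_card hPM₁
    have h6 : (M₁ \ P).card ≤ M₁.card := card_le_card sdiff_subset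
    have h7 : P₀.card + 2 ≤ 25 * M₁.card + 11 := by omega
    have h8 : ((P₀.card : ℝ) + 2) ≤ 25 * M₁.card + 11 := by exact_mod_cast h7
    have h9 : 4 * (b : ℝ) * ((P₀.card : ℝ) + 2) ≤ 4 * b * (25 * M₁.card + 11) :=
      mul_le_mul_of_nonneg_left h8 (by positivity)
    have h10 : 4 * (b : ℝ) * (25 * M₁.card + 11) = 10 ^ 5 * b * (M₁.card : ℝ) / 1000 + 44 * b := by
      ring
    rw [h10] at h9
    linarith [h9, hP₀c, hM₁c, hc₀ε, hζN, hb1]
  have hP₀s : P₀ ⊆ Icc 1 N := by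
    intro y hy
    obtain ⟨h5, h6, _⟩ := nump_modm hζN0 hy
    have h7 : (y : ℝ) ≤ N := by linarith
    exact mem_Icc.2 ⟨hb.trans h5, by exact_mod_cast h7⟩
  have hvalP : ∀ x ∈ items par P, 1 ≤ val par fP x ∧ val par fP x ≤ N := by
    intro x hx
    refine ⟨hPval x hx, ?_⟩
    have h5 := nump_val_le hPlab' hx
    have h6 : (val par fP x : ℝ) ≤ N := by linarith
    exact_mod_cast h6
  obtain ⟨f₀, hf₀, hinj₀, hf₀P, hval₀, -⟩ := greedy_num (N := N) hpar (W := P) (X := M₁ \ P)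
    (F := ∅) (P := P₀) (f := fP) hPn (sdiff_subset.trans hM₁n) disjoint_sdiff
    (fun x hx => nump_clo hPclo (mem_range.1 (hM₁n (mem_sdiff.1 hx).1)) (mem_sdiff.1 hx).2)
    hPinj hvalP hP₀s hc0
  have hPu : P ∪ (M₁ \ P) = M₁ := union_sdiff_of_subset hPM₁
  rw [hPu] at hinj₀ hval₀
  -- step 2
  set P₁ : Finset ℕ := (Icc (b + 1) ⌊ζ * N / 100⌋₊).filter (fun x => x % 2 = 1) with hP₁
  have hP₁c : ζ * N / 100 ≤ _ := nump_oddc b
  rw [← hP₁] at hP₁c
  have hc1 : 5 * ((∅ : Finset ℕ).card + (items par M₁).card + 3 * (M \ M₁).card) + 10 ≤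
      P₁.card := by
    have h5 := items_le par M₁
    have h6 : (M \ M₁).card ≤ M.card := card_le_card sdiff_subset
    have h6' : M₁.card ≤ M.card := card_le_card hM₁M
    have h7 : (25 * (M.card : ℝ) + 10) ≤ P₁.card := by linarith
    have h8 : 25 * M.card + 10 ≤ P₁.card := by exact_mod_cast h7
    rw [card_empty]
    omega
  have hP₁s : P₁ ⊆ Icc 1 N := by
    intro y hy
    obtain ⟨h5, h6, _⟩ := nump_oddm hζN0 hy
    have h7 : (y : ℝ) ≤ N := by linarith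
    exact mem_Icc.2 ⟨by omega, by exact_mod_cast h7⟩
  obtain ⟨f₁, hf₁, hinj₁, hf₁P, hval₁, -⟩ := greedy_num (N := N) hpar (W := M₁) (X := M \ M₁)
    (F := ∅) (P := P₁) (f := f₀) hM₁n (sdiff_subset.trans hMn) disjoint_sdiff
    (fun x hx => nump_clo hM₁clo (mem_range.1 (hMn (mem_sdiff.1 hx).1)) (mem_sdiff.1 hx).2)
    hinj₀ hval₀ hP₁s hc1
  have hMu : M₁ ∪ (M \ M₁) = M := union_sdiff_of_subset hM₁M
  rw [hMu] at hinj₁ hval₁
  have hf₁P' : ∀ x ∈ P, f₁ x = fP x := fun x hx => by rw [hf₁ x (hPM₁ hx), hf₀ x hx]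
  have hf₁M₁ : ∀ x ∈ M₁ \ G, b ≤ f₁ x ∧ (f₁ x : ℝ) ≤ ζ * N / 100 ∧ f₁ x % 2 = 1 ∧
      f₁ x % (4 * b) = 1 := by
    intro x hx
    obtain ⟨hx1, hx2⟩ := mem_sdiff.1 hx
    by_cases hxP : x ∈ P
    · rw [hf₁P' x hxP]
      have h5 := hPlab x hxP
      have h6 := hPG x (mem_sdiff.2 ⟨hxP, hx2⟩)
      exact ⟨h6.2, h5.2, h5.1, h6.1⟩
    · rw [hf₁ x hx1]
      exact nump_modm hζN0 (hf₀P x (mem_sdiff.2 ⟨hx1, hxP⟩))
  have hf₁M : ∀ x ∈ M \ M₁, b + 1 ≤ f₁ x ∧ (f₁ x : ℝ) ≤ ζ * N / 100 ∧ f₁ x % 2 = 1 :=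
    fun x hx => nump_oddm hζN0 (hf₁P x hx)
  have hf₁all : ∀ x ∈ M, f₁ x % 2 = 1 ∧ (f₁ x : ℝ) ≤ ζ * N / 100 := by
    intro x hx
    by_cases hxM₁ : x ∈ M₁
    · by_cases hxG : x ∈ G
      · rw [hf₁P' x (hGP hxG)]
        exact hPlab x (hGP hxG)
      · obtain ⟨_, h6, h7, _⟩ := hf₁M₁ x (mem_sdiff.2 ⟨hxM₁, hxG⟩)
        exact ⟨h7, h6⟩
    · obtain ⟨_, h6, h7⟩ := hf₁M x (mem_sdiff.2 ⟨hx, hxM₁⟩)
      exact ⟨h7, h6⟩
  have hf₁odd : ∀ x ∈ M, f₁ x % 2 = 1 := fun x hx => (hf₁all x hx).1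
  have hf₁le : ∀ x ∈ M, (f₁ x : ℝ) ≤ ζ * N / 100 := fun x hx => (hf₁all x hx).2
  -- step 3
  obtain ⟨π, hπ1, hπ2, hπ3⟩ := nump_sort L
    (fun i => if par (hs i) ∈ M then f₁ (par (hs i)) else 0)
  set e : ℕ → ℕ := fun i => if i < L then
    (if par (hs (π i)) ∈ M then f₁ (par (hs (π i))) else 0) else 0 with he
  have heL : ∀ i < L, e i = if par (hs (π i)) ∈ M then f₁ (par (hs (π i))) else 0 := by
    intro i hi
    simp only [he, if_pos hi]
  have heanti : Antitone e := by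
    intro i j hij
    by_cases hj : j < L
    · rw [heL j hj, heL i (lt_of_le_of_lt hij hj)]
      exact hπ3 i j hij hj
    · simp only [he, if_neg hj]
      exact Nat.zero_le _
  have heodd : ∀ i, e i = 0 ∨ (e i % 2 = 1 ∧ 100 * (e i : ℝ) ≤ ζ * N) := by
    intro i
    by_cases hi : i < L
    · rw [heL i hi]
      by_cases hp : par (hs (π i)) ∈ M
      · rw [if_pos hp]
        have := hf₁le _ hp
        exact Or.inr ⟨hf₁odd _ hp, by linarith⟩
      · rw [if_neg hp]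
        exact Or.inl rfl
    · left
      simp only [he, if_neg hi]
  have hF₀ : ∀ x ∈ (items par M).image (val par f₁), 1 ≤ x ∧ (x : ℝ) ≤ ζ * N := by
    intro y hy
    obtain ⟨x, hx, rfl⟩ := mem_image.1 hy
    refine ⟨(hval₁ x hx).1, ?_⟩
    have h5 := nump_val_le hf₁le hx
    linarith
  obtain ⟨A, Dd, ι, hA, hJ⟩ := hN₀ N hNN₀ R _ e hR hRc hF₀ heanti heodd
  have hιL : ∀ d ∈ Dd, ι d < L := by
    intro d hd
    have h5 := hA.ι_lt d hd
    have h6 : ε * N ≤ (⌈ε * N⌉₊ : ℝ) := Nat.le_ceil _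
    rw [← hL] at h6
    have h7 : (ι d : ℝ) < L := lt_of_lt_of_le h5 h6
    exact_mod_cast h7
  obtain ⟨U, f₂, hUs, hUc, hf2M, hUD, hf2inj, hvals, hinj₂⟩ :=
    nump_MU hpar h hinj₁ hf₁odd hπ1 hπ2 heL hA hιL
  have hUn : U ⊆ range n := U_sub h hUs
  have hUH : Disjoint U H := U_H h hUs
  -- step 4
  have hgood : ∀ y ∈ (items par M).image (val par f₁) ∪ Dd ∪ Eset Dd e ι,
      1 ≤ y ∧ y ≤ N ∧ y ∉ A ∧ y ∉ R := by
    intro y hy
    rcases mem_union.1 hy with hy | hy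
    · rcases mem_union.1 hy with hy | hy
      · refine ⟨(hF₀ y hy).1, ?_, disjoint_right.1 hA.AF hy, ?_⟩
        · have h5 := (hF₀ y hy).2
          have h6 : (y : ℝ) ≤ N := by linarith
          exact_mod_cast h6
        · intro hyR
          have h5 := (hF₀ y hy).2
          have h6 := (hR y hyR).1
          linarith
      · obtain ⟨h5, h6⟩ := mem_Icc.1 (hA.D_sub hy)
        exact ⟨h5, h6, disjoint_right.1 hA.AD hy, disjoint_left.1 hA.DR hy⟩
    · refine ⟨?_, ?_, disjoint_right.1 hA.AE hy, disjoint_left.1 hA.ER hy⟩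
      · obtain ⟨d, hd, rfl⟩ := mem_image.1 hy
        have := hA.lt d (mem_filter.1 hd).1
        omega
      · obtain ⟨d, hd, rfl⟩ := mem_image.1 hy
        have := (mem_Icc.1 (hA.D_sub (mem_filter.1 hd).1)).2
        omega
  have hval₂ : ∀ x ∈ items par (M ∪ U), 1 ≤ val par f₂ x ∧ val par f₂ x ≤ N ∧
      val par f₂ x ∉ A ∧ val par f₂ x ∉ R := by
    intro x hx
    refine hgood _ ?_
    rw [← hvals]
    exact mem_image_of_mem _ hx
  -- step 5
  have hARc : ((A ∪ R).card : ℝ) ≤ 3 * (ε * N) := by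
    have h5 : ((A ∪ R).card : ℝ) ≤ A.card + R.card := by exact_mod_cast card_union_le _ _
    have h6 := hA.A_le
    linarith
  have hUcr : (U.card : ℝ) ≤ ε * N := by
    rw [hUc]
    exact hA.D_le
  set P₂ : Finset ℕ := (Icc (b + 1) ⌊η * N⌋₊).filter (fun x => x % 2 = 1) with hP₂
  have hP₂c : η * N ≤ _ := nump_oddc b
  rw [← hP₂] at hP₂c
  have hP₂s : P₂ ⊆ Icc 1 N := by
    intro y hy
    obtain ⟨h5, h6, _⟩ := nump_oddm hηN0 hy
    have h7 : (y : ℝ) ≤ N := by linarith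
    exact mem_Icc.2 ⟨by omega, by exact_mod_cast h7⟩
  have hc2 : 5 * ((A ∪ R).card + (items par (M ∪ U)).card + 3 * (H \ M).card) + 10 ≤ P₂.card := by
    have h5 : ((items par (M ∪ U)).card : ℝ) ≤ 2 * (M.card + U.card) := by
      have h6 := items_le par (M ∪ U)
      have h7 : ((items par (M ∪ U)).card : ℝ) ≤ 2 * (M ∪ U).card := by exact_mod_cast h6
      have h8 : ((M ∪ U).card : ℝ) ≤ M.card + U.card := by exact_mod_cast card_union_le _ _
      linarith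
    have h6 : ((H \ M).card : ℝ) ≤ H.card := by exact_mod_cast card_le_card sdiff_subset
    have h7 : 5 * (((A ∪ R).card : ℝ) + (items par (M ∪ U)).card + 3 * (H \ M).card) + 10 ≤
        P₂.card := by linarith
    exact_mod_cast h7
  have hdis1 : Disjoint (M ∪ U) (H \ M) := by
    rw [disjoint_union_left]
    exact ⟨disjoint_sdiff, hUH.mono_right sdiff_subset⟩
  obtain ⟨f₃, hf₃, hinj₃, hf₃P, hval₃, hnew₃⟩ := greedy_num (N := N) hpar (W := M ∪ U)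
    (X := H \ M) (F := A ∪ R) (P := P₂) (f := f₂) (union_subset hMn hUn)
    (sdiff_subset.trans h.Hsub) hdis1 (fun x hx => chs_M hpar h hUs hx) hinj₂
    (fun x hx => ⟨(hval₂ x hx).1, (hval₂ x hx).2.1⟩) hP₂s hc2
  have hMU : M ∪ U ∪ (H \ M) = H ∪ U := by
    ext x
    simp only [mem_union, mem_sdiff]
    constructor
    · rintro ((h5 | h5) | h5)
      · exact Or.inl (h.Msub h5)
      · exact Or.inr h5
      · exact Or.inl h5.1
    · rintro (h5 | h5)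
      · by_cases h6 : x ∈ M
        · exact Or.inl (Or.inl h6)
        · exact Or.inr ⟨h5, h6⟩
      · exact Or.inl (Or.inr h5)
  rw [hMU] at hinj₃ hval₃ hnew₃
  have hval₃' : ∀ x ∈ items par (H ∪ U), val par f₃ x ∉ A ∧ val par f₃ x ∉ R := by
    intro x hx
    by_cases hx' : x ∈ items par (M ∪ U)
    · rw [val_items hf₃ hx']
      exact (hval₂ x hx').2.2
    · have h5 := hnew₃ x hx hx'
      rw [mem_union, not_or] at h5
      exact h5
  -- step 6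
  have hOsub : OO par H U ⊆ U.image par := filter_subset _ _
  have hOc : ((OO par H U).card : ℝ) ≤ U.card := by
    exact_mod_cast (card_le_card hOsub).trans card_image_le
  have hc3 : 5 * ((A ∪ R).card + (items par (H ∪ U)).card + 3 * (OO par H U).card) + 10 ≤
      (Icc b N).card := by
    have h5 : ((items par (H ∪ U)).card : ℝ) ≤ 2 * (H.card + U.card) := by
      have h6 := items_le par (H ∪ U)
      have h7 : ((items par (H ∪ U)).card : ℝ) ≤ 2 * (H ∪ U).card := by exact_mod_cast h6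
      have h8 : ((H ∪ U).card : ℝ) ≤ H.card + U.card := by exact_mod_cast card_union_le _ _
      linarith
    have h7 : 5 * (((A ∪ R).card : ℝ) + (items par (H ∪ U)).card + 3 * (OO par H U).card) + 10 + b ≤
        N := by linarith
    have h8 : 5 * ((A ∪ R).card + (items par (H ∪ U)).card + 3 * (OO par H U).card) + 10 + b ≤
        N := by exact_mod_cast h7
    rw [Nat.card_Icc]
    omega
  have hdis2 : Disjoint (H ∪ U) (OO par H U) := by
    rw [disjoint_union_left]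
    refine ⟨?_, (O_U hpar h hUs).symm⟩
    rw [disjoint_left]
    intro x hx hx'
    exact (mem_filter.1 hx').2.1 hx
  have hP₃s : Icc b N ⊆ Icc 1 N := Icc_subset_Icc_left hb
  obtain ⟨f₄, hf₄, hinj₄, hf₄P, hval₄, hnew₄⟩ := greedy_num (N := N) hpar (W := H ∪ U)
    (X := OO par H U) (F := A ∪ R) (P := Icc b N) (f := f₃) (union_subset h.Hsub hUn)
    (O_sub hpar h hUs) hdis2 (fun x hx => chs_O hpar h hUs hx) hinj₃ hval₃ hP₃s hc3
  have hf4M : ∀ x ∈ M ∪ U, f₄ x = f₂ x := by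
    intro x hx
    have h5 : x ∈ H ∪ U := by
      rw [← hMU]
      exact mem_union_left _ hx
    rw [hf₄ x h5, hf₃ x hx]
  have hf4M1 : ∀ x ∈ M, f₄ x = f₁ x := fun x hx => by
    rw [hf4M x (mem_union_left _ hx), hf2M x hx]
  have hsubI : items par (M ∪ U) ⊆ items par (H ∪ U ∪ OO par H U) :=
    items_mono ((union_subset_union_left h.Msub).trans subset_union_left)
  have hUf : U.image f₄ = Dd := by
    rw [← hUD]
    refine image_congr ?_
    intro u hu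
    exact hf4M u (mem_union_right _ hu)
  have hf4H : ∀ x ∈ H \ M, b + 1 ≤ f₄ x ∧ (f₄ x : ℝ) ≤ η * N ∧ f₄ x % 2 = 1 := by
    intro x hx
    rw [hf₄ x (mem_union_left _ (mem_sdiff.1 hx).1)]
    exact nump_oddm hηN0 (hf₃P x hx)
  refine ⟨A, U, f₄, hUs, hA.A_sub, hA.AR, hA.A_le, hUcr, ?_, hinj₄, ?_, ?_, ?_, ?_, ?_, ?_⟩
  · rw [hUc]
    exact hA.gap
  · intro x hx
    refine ⟨(hval₄ x hx).1, (hval₄ x hx).2, ?_⟩
    by_cases hx' : x ∈ items par (H ∪ U)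
    · rw [val_items hf₄ hx']
      exact hval₃' x hx'
    · have h5 := hnew₄ x hx hx'
      rw [mem_union, not_or] at h5
      exact h5
  · intro x hx
    by_cases hxM : x ∈ M
    · rw [hf4M1 x hxM]
      refine ⟨hf₁odd x hxM, ?_⟩
      have := hf₁le x hxM
      linarith
    · obtain ⟨_, h7, h8⟩ := hf4H x (mem_sdiff.2 ⟨hx, hxM⟩)
      exact ⟨h8, h7⟩
  · intro x hx
    rw [hf4M1 x (hM₁M (hPM₁ hx)), hf₁P' x hx]
  · intro x hx
    rw [hf4M1 x (hM₁M (mem_sdiff.1 hx).1)]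
    exact (hf₁M₁ x hx).2.2.2
  · intro x hx
    obtain ⟨hx, hxG⟩ := mem_sdiff.1 hx
    rcases mem_union.1 hx with hx | hx
    · rcases mem_union.1 hx with hx | hx
      · by_cases hxM : x ∈ M
        · rw [hf4M1 x hxM]
          by_cases hxM₁ : x ∈ M₁
          · exact (hf₁M₁ x (mem_sdiff.2 ⟨hxM₁, hxG⟩)).1
          · have := (hf₁M x (mem_sdiff.2 ⟨hxM, hxM₁⟩)).1
            omega
        · have := (hf4H x (mem_sdiff.2 ⟨hx, hxM⟩)).1
          omega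
      · have h5 : f₄ x ∈ Dd := by
          rw [← hUf]
          exact mem_image_of_mem _ hx
        have h6 := hA.tiny _ h5
        have h7 : (b : ℝ) ≤ f₄ x := by linarith
        exact_mod_cast h7
    · exact (mem_Icc.1 (hf₄P x hx)).1
  · intro J hJN hJA hJv hJc hJp
    have hsub2 : (items par M).image (val par f₁) ∪ Dd ∪ Eset Dd e ι ⊆
        (items par (H ∪ U ∪ OO par H U)).image (val par f₄) := by
      rw [← hvals]
      intro y hy
      obtain ⟨x, hx, rfl⟩ := mem_image.1 hy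
      refine mem_image.2 ⟨x, hsubI hx, ?_⟩
      exact val_items hf4M hx
    have hJd := hJv.mono_right hsub2
    rw [disjoint_union_right, disjoint_union_right] at hJd
    rw [hUf]
    refine hJ J hJN hJA hJd.1.2 hJd.2 hJd.1.1 ?_ ?_
    · rw [hJc, hUc]
    · have h5 : ∑ u ∈ U, f₄ u = ∑ x ∈ Dd, x := by
        rw [← hUD, sum_image hf2inj]
        exact sum_congr rfl fun u hu => hf4M u (mem_union_right _ hu)
      rw [← h5]
      exact hJp

end SSB
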